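import Pool.Agent.T6.H50.QN.Defs

/-! Project QN (`MP_3fd3b2_an`): module AFF, affine change of variables. -/

set_option autoImplicit false

open MeasureTheory Real Filter Topology Set
open scoped ENNReal RealInnerProductSpace

namespace H50.QN

namespace ModAFF

theorem det_adjoint' {d : ℕ} (f : E d →ₗ[ℝ] E d) :
    LinearMap.det (LinearMap.adjoint f) = LinearMap.det f := by
  have v := EuclideanSpace.basisFun (Fin d) ℝ
  rw [← LinearMap.det_toMatrix v.toBasis, ← LinearMap.det_toMatrix v.toBasis,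
    LinearMap.toMatrix_adjoint v v, Matrix.det_conjTranspose]
  simp

theorem vol_image {d : ℕ} (T : E d ≃ₗ[ℝ] E d) (b : E d) (B : Set (E d)) :
    volume ((fun x => T x + b) '' B) =
      ENNReal.ofReal |LinearMap.det (T : E d →ₗ[ℝ] E d)| * volume B := by
  have h1 : (fun x => T x + b) '' B = (fun y => y + b) '' ((T : E d →ₗ[ℝ] E d) '' B) := by
    rw [Set.image_image]; rfl
  rw [h1, Set.image_add_right, measure_preimage_add_right, Measure.addHaar_image_linearMap]

theorem ft_image {d : ℕ} (T : E d ≃ₗ[ℝ] E d) (b : E d) (B : Set (E d)) (hB : MeasurableSet B)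
    (ξ : E d) :
    ft ((fun x => T x + b) '' B) ξ =
      (|LinearMap.det (T : E d →ₗ[ℝ] E d)| : ℝ) •
        (Complex.exp (((-2 * π * inner ℝ b ξ : ℝ) : ℂ) * Complex.I) *
          ft B (LinearMap.adjoint (T : E d →ₗ[ℝ] E d) ξ)) := by
  have hd : ∀ x ∈ B, HasFDerivWithinAt (fun x => T x + b)
      (T.toContinuousLinearEquiv : E d →L[ℝ] E d) B x := by
    intro x _
    have h1 : HasFDerivAt (fun x => T.toContinuousLinearEquiv x)
      (T.toContinuousLinearEquiv : E d →L[ℝ] E d) x :=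
        (T.toContinuousLinearEquiv : E d →L[ℝ] E d).hasFDerivAt
    exact (h1.add_const b).hasFDerivWithinAt
  have hinj : InjOn (fun x => T x + b) B := fun x _ y _ h => T.injective (add_right_cancel h)
  unfold ft
  rw [integral_image_eq_integral_abs_det_fderiv_smul volume hB hd hinj]
  rw [← integral_const_mul, ← integral_smul]
  refine integral_congr_ae (Eventually.of_forall fun x => ?_)
  have hdet : (T.toContinuousLinearEquiv : E d →L[ℝ] E d).det =
      LinearMap.det (T : E d →ₗ[ℝ] E d) := rfl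
  simp only [hdet]
  congr 1
  rw [← Complex.exp_add]
  congr 1
  have h2 : inner ℝ (T x + b) ξ = inner ℝ x (LinearMap.adjoint (T : E d →ₗ[ℝ] E d) ξ) +
      inner ℝ b ξ := by
    rw [inner_add_left, LinearMap.adjoint_inner_right]
    rfl
  rw [h2]
  push_cast
  ring

theorem enorm_ft_image {d : ℕ} (T : E d ≃ₗ[ℝ] E d) (b : E d) (B : Set (E d))
    (hB : MeasurableSet B) (ξ : E d) :
    ‖ft ((fun x => T x + b) '' B) ξ‖ₑ =
      ENNReal.ofReal |LinearMap.det (T : E d →ₗ[ℝ] E d)| *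
        ‖ft B (LinearMap.adjoint (T : E d →ₗ[ℝ] E d) ξ)‖ₑ := by
  rw [ft_image T b B hB ξ, enorm_smul, enorm_mul]
  have h1 : ‖Complex.exp (((-2 * π * inner ℝ b ξ : ℝ) : ℂ) * Complex.I)‖ₑ = 1 := by
    rw [← ofReal_norm_eq_enorm, Complex.norm_exp_ofReal_mul_I, ENNReal.ofReal_one]
  rw [h1, one_mul, Real.enorm_eq_ofReal (abs_nonneg _)]

theorem lintegral_adj {d : ℕ} (T : E d ≃ₗ[ℝ] E d) (F : E d → ℝ≥0∞) :
    ∫⁻ ξ, F (LinearMap.adjoint (T : E d →ₗ[ℝ] E d) ξ) =
      ENNReal.ofReal |(LinearMap.det (T : E d →ₗ[ℝ] E d))⁻¹| * ∫⁻ ξ, F ξ := by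
  have hne : LinearMap.det (LinearMap.adjoint (T : E d →ₗ[ℝ] E d)) ≠ 0 := by
    rw [det_adjoint']
    exact (LinearEquiv.isUnit_det' T).ne_zero
  have h1 := Measure.map_linearMap_addHaar_eq_smul_addHaar (volume : Measure (E d)) hne
  let g := ((LinearMap.adjoint (T : E d →ₗ[ℝ] E d)).equivOfDetNeZero
    hne).toContinuousLinearEquiv.toHomeomorph.toMeasurableEquiv
  have h2 : ∀ ξ, g ξ = LinearMap.adjoint (T : E d →ₗ[ℝ] E d) ξ := fun ξ => rfl
  have h3 : Measure.map g (volume : Measure (E d)) =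
      Measure.map (LinearMap.adjoint (T : E d →ₗ[ℝ] E d)) volume := rfl
  calc ∫⁻ ξ, F (LinearMap.adjoint (T : E d →ₗ[ℝ] E d) ξ)
      = ∫⁻ ξ, F (g ξ) := rfl
    _ = ∫⁻ ξ, F ξ ∂(Measure.map g volume) := (lintegral_map_equiv F g).symm
    _ = _ := by rw [h3, h1, lintegral_smul_measure, det_adjoint']; rfl

theorem Phi_image {d : ℕ} (q : ℝ) (hq : 0 ≤ q) (T : E d ≃ₗ[ℝ] E d) (b : E d) (B : Set (E d))
    (hB : MeasurableSet B) :
    Phi q ((fun x => T x + b) '' B) =
      ENNReal.ofReal |LinearMap.det (T : E d →ₗ[ℝ] E d)| ^ q *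
        (ENNReal.ofReal |(LinearMap.det (T : E d →ₗ[ℝ] E d))⁻¹| * Phi q B) := by
  unfold Phi
  rw [← lintegral_adj T (fun ξ => ‖ft B ξ‖ₑ ^ q), ← lintegral_const_mul']
  · refine lintegral_congr fun ξ => ?_
    rw [enorm_ft_image T b B hB ξ, ENNReal.mul_rpow_of_nonneg _ _ hq]
  · exact ENNReal.rpow_ne_top_of_nonneg hq ENNReal.ofReal_ne_top

end ModAFF

open ModAFF

theorem aff : StmAFF := by
  intro d hd q hq A hA hvol
  obtain ⟨T, b, rfl⟩ := hA
  haveI : Nonempty (Fin d) := ⟨⟨0, hd⟩⟩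
  set c : ℝ := |LinearMap.det (T : E d →ₗ[ℝ] E d)| with hc
  have hc0 : 0 < c := abs_pos.mpr (LinearEquiv.isUnit_det' T).ne_zero
  have hball : volume (Metric.closedBall (0 : E d) 1) = ENNReal.ofReal (om d) := by
    rw [Measure.addHaar_closedBall_eq_addHaar_ball, om, ENNReal.ofReal_toReal]
    exact measure_ball_lt_top.ne
  rw [vol_image, hball, ← hc, ← ENNReal.ofReal_mul hc0.le] at hvol
  have h1 : c * om d = 1 := by
    have := congrArg ENNReal.toReal hvol
    rw [ENNReal.toReal_ofReal, ENNReal.toReal_one] at this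
    · exact this
    · exact mul_nonneg hc0.le ENNReal.toReal_nonneg
  have hom : 0 < om d := by
    by_contra h
    have h2 : om d = 0 := le_antisymm (not_lt.mp h) ENNReal.toReal_nonneg
    rw [h2, mul_zero] at h1
    exact zero_ne_one h1
  have hcom : c = (om d)⁻¹ := eq_inv_of_mul_eq_one_left h1
  rw [Phi_image q (by linarith) T b _ Metric.isClosed_closedBall.measurableSet, abs_inv, ← hc,
    ← mul_assoc, ENNReal.ofReal_rpow_of_pos hc0, ← ENNReal.ofReal_mul (by positivity)]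
  congr 2
  rw [hcom, inv_inv, Real.inv_rpow hom.le, ← Real.rpow_neg hom.le, sub_eq_neg_add,
    Real.rpow_add hom, Real.rpow_one]

end H50.QN
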