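import Pool.Agent.T6.H50.QN.Defs

/-! Project QN (`MP_3fd3b2_an`), module BES: the Bessel type equation (helper61). -/

set_option autoImplicit false

open MeasureTheory Real Filter Topology Set

namespace H50.QN

namespace ModBES

/-- differentiation of `∫ w(t) cos (z t) dt` -/
theorem dcos {w : ℝ → ℝ} (hw : Continuous w) (z : ℝ) :
    HasDerivAt (fun z : ℝ => ∫ t in (-1 : ℝ)..1, w t * cos (z * t))
      (∫ t in (-1 : ℝ)..1, w t * (-sin (z * t) * t)) z := by
  have hc1 : Continuous fun t : ℝ => |w t| * |t| := (hw.abs).mul continuous_abs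
  refine (intervalIntegral.hasDerivAt_integral_of_dominated_loc_of_deriv_le
    (F := fun z t => w t * cos (z * t)) (F' := fun z t => w t * (-sin (z * t) * t))
    (x₀ := z) (a := -1) (b := 1) (bound := fun t => |w t| * |t|) (μ := volume)
    (Metric.ball_mem_nhds z one_pos) ?_ ?_ ?_ ?_ ?_ ?_).2
  · exact Eventually.of_forall fun y => (by fun_prop : Continuous fun t => w t * cos (y * t)).aestronglyMeasurable
  · exact (by fun_prop : Continuous fun t => w t * cos (z * t)).intervalIntegrable _ _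
  · exact (by fun_prop : Continuous fun t => w t * (-sin (z * t) * t)).aestronglyMeasurable
  · refine Eventually.of_forall fun t _ x _ => ?_
    rw [Real.norm_eq_abs, abs_mul, abs_mul, abs_neg]
    exact mul_le_mul_of_nonneg_left (mul_le_of_le_one_left (abs_nonneg _) (abs_sin_le_one _))
      (abs_nonneg _)
  · exact hc1.intervalIntegrable _ _
  · refine Eventually.of_forall fun t _ x _ => ?_
    have h1 : HasDerivAt (fun x : ℝ => x * t) t x := by
      simpa using (hasDerivAt_id x).mul_const t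
    exact (h1.cos).const_mul (w t)

/-- differentiation of `∫ w(t) sin (z t) dt` -/
theorem dsin {w : ℝ → ℝ} (hw : Continuous w) (z : ℝ) :
    HasDerivAt (fun z : ℝ => ∫ t in (-1 : ℝ)..1, w t * sin (z * t))
      (∫ t in (-1 : ℝ)..1, w t * (cos (z * t) * t)) z := by
  have hc1 : Continuous fun t : ℝ => |w t| * |t| := (hw.abs).mul continuous_abs
  refine (intervalIntegral.hasDerivAt_integral_of_dominated_loc_of_deriv_le
    (F := fun z t => w t * sin (z * t)) (F' := fun z t => w t * (cos (z * t) * t))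
    (x₀ := z) (a := -1) (b := 1) (bound := fun t => |w t| * |t|) (μ := volume)
    (Metric.ball_mem_nhds z one_pos) ?_ ?_ ?_ ?_ ?_ ?_).2
  · exact Eventually.of_forall fun y => (by fun_prop : Continuous fun t => w t * sin (y * t)).aestronglyMeasurable
  · exact (by fun_prop : Continuous fun t => w t * sin (z * t)).intervalIntegrable _ _
  · exact (by fun_prop : Continuous fun t => w t * (cos (z * t) * t)).aestronglyMeasurable
  · refine Eventually.of_forall fun t _ x _ => ?_
    rw [Real.norm_eq_abs, abs_mul, abs_mul]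
    exact mul_le_mul_of_nonneg_left (mul_le_of_le_one_left (abs_nonneg _) (abs_cos_le_one _))
      (abs_nonneg _)
  · exact hc1.intervalIntegrable _ _
  · refine Eventually.of_forall fun t _ x _ => ?_
    have h1 : HasDerivAt (fun x : ℝ => x * t) t x := by
      simpa using (hasDerivAt_id x).mul_const t
    exact (h1.sin).const_mul (w t)

/-- the weight -/
noncomputable def wt (p t : ℝ) : ℝ := (1 - t ^ 2) ^ p

theorem wt_cont {p : ℝ} (hp : 0 ≤ p) : Continuous (wt p) := by
  unfold wt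
  exact (by fun_prop : Continuous fun t : ℝ => 1 - t ^ 2).rpow_const fun _ => Or.inr hp

theorem wt_le {p : ℝ} (hp : 0 ≤ p) {t : ℝ} (ht : |t| ≤ 1) : |wt p t| ≤ 1 := by
  have h1 : t ^ 2 ≤ 1 := by rw [← sq_abs]; nlinarith [abs_nonneg t]
  have h0 : 0 ≤ 1 - t ^ 2 := by linarith
  unfold wt
  rw [abs_of_nonneg (Real.rpow_nonneg h0 _)]
  exact Real.rpow_le_one h0 (by nlinarith [sq_nonneg t]) hp

theorem G_eq (d : ℕ) (z : ℝ) :
    G d z = ∫ t in (-1 : ℝ)..1, wt (((d : ℝ) - 1) / 2) t * cos (z * t) := rfl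

theorem G2_eq (d : ℕ) (z : ℝ) :
    G (d + 2) z = ∫ t in (-1 : ℝ)..1, wt (((d : ℝ) + 1) / 2) t * cos (z * t) := by
  rw [G_eq]
  congr 1
  ext t
  congr 2
  push_cast
  ring

/-- the first derivative -/
noncomputable def HH (d : ℕ) (z : ℝ) : ℝ :=
  -∫ t in (-1 : ℝ)..1, (t * wt (((d : ℝ) - 1) / 2) t) * sin (z * t)

theorem wt_deriv {p : ℝ} (hp : 0 ≤ p) (t : ℝ) :
    HasDerivAt (fun t => -(wt (p + 1) t / (2 * (p + 1)))) (t * wt p t) t := by
  have h1 : HasDerivAt (fun t : ℝ => 1 - t ^ 2) (-(2 * t)) t := by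
    simpa using (hasDerivAt_pow 2 t).const_sub 1
  have h2 := h1.rpow_const (p := p + 1) (Or.inr (by linarith))
  have h3 := (h2.div_const (2 * (p + 1))).neg
  have hp1 : p + 1 ≠ 0 := by linarith
  have e : t * wt p t = -(-(2 * t) * (p + 1) * (1 - t ^ 2) ^ (p + 1 - 1) / (2 * (p + 1))) := by
    unfold wt
    rw [show p + 1 - 1 = p by ring]
    field_simp
  rw [e]
  exact h3

theorem wt_one {p : ℝ} (hp : 0 ≤ p) {t : ℝ} (ht : t ^ 2 = 1) : wt (p + 1) t = 0 := by
  unfold wt
  rw [ht, sub_self]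
  exact Real.zero_rpow (by linarith)

theorem HH_eq {d : ℕ} (hd : 1 ≤ d) (z : ℝ) : HH d z = -(z / (d + 1)) * G (d + 2) z := by
  have hd' : (1 : ℝ) ≤ d := by exact_mod_cast hd
  obtain ⟨p, hp⟩ : ∃ p : ℝ, p = ((d : ℝ) - 1) / 2 := ⟨_, rfl⟩
  have hp0 : 0 ≤ p := by rw [hp]; linarith
  have hp1 : ((d : ℝ) + 1) / 2 = p + 1 := by rw [hp]; ring
  rw [G2_eq, HH, ← hp, hp1]
  have hcw : Continuous (wt p) := wt_cont hp0
  have hcw1 : Continuous (wt (p + 1)) := wt_cont (by linarith)
  have hcw2 : Continuous fun t : ℝ => t * wt p t := continuous_id.mul hcw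
  have hib := intervalIntegral.integral_deriv_mul_eq_sub
    (a := (-1 : ℝ)) (b := 1) (u := fun t => -(wt (p + 1) t / (2 * (p + 1)))) (v := fun t => sin (z * t))
    (u' := fun t => t * wt p t) (v' := fun t => cos (z * t) * z) ?_ ?_ ?_ ?_
  · rw [intervalIntegral.integral_add ?_ ?_] at hib
    · rw [wt_one hp0 (by norm_num), wt_one hp0 (by norm_num)] at hib
      have h3 : ∫ t in (-1 : ℝ)..1, (-(wt (p + 1) t / (2 * (p + 1)))) * (cos (z * t) * z) =
          -(z / (2 * (p + 1))) * ∫ t in (-1 : ℝ)..1, wt (p + 1) t * cos (z * t) := by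
        rw [← intervalIntegral.integral_const_mul]
        congr 1
        ext t
        ring
      rw [h3] at hib
      have h4 : (d : ℝ) + 1 = 2 * (p + 1) := by rw [hp]; ring
      rw [h4]
      simp only [zero_div, neg_zero, zero_mul, sub_zero] at hib
      linarith
    · exact (hcw2.mul (by fun_prop : Continuous fun t : ℝ => sin (z * t))).intervalIntegrable _ _
    · exact (((hcw1.div_const _).neg).mul (by fun_prop : Continuous fun t : ℝ => cos (z * t) * z)).intervalIntegrable _ _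
  · intro x _
    exact wt_deriv hp0 x
  · intro x _
    have h1 : HasDerivAt (fun x : ℝ => z * x) z x := by
      simpa using (hasDerivAt_id x).const_mul z
    exact h1.sin
  · exact hcw2.intervalIntegrable _ _
  · exact (by fun_prop : Continuous fun t : ℝ => cos (z * t) * z).intervalIntegrable _ _

theorem dG {d : ℕ} (hd : 1 ≤ d) (z : ℝ) : HasDerivAt (G d) (HH d z) z := by
  have hd' : (1 : ℝ) ≤ d := by exact_mod_cast hd
  have hp0 : 0 ≤ ((d : ℝ) - 1) / 2 := by linarith
  have h := dcos (wt_cont hp0) z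
  have e : (∫ t in (-1 : ℝ)..1, wt (((d : ℝ) - 1) / 2) t * (-sin (z * t) * t)) = HH d z := by
    rw [HH, ← intervalIntegral.integral_neg]
    congr 1
    ext t
    ring
  rw [e] at h
  exact h

theorem dH {d : ℕ} (hd : 1 ≤ d) (z : ℝ) :
    HasDerivAt (HH d) (-G d z + G (d + 2) z) z := by
  have hd' : (1 : ℝ) ≤ d := by exact_mod_cast hd
  have hp0 : 0 ≤ ((d : ℝ) - 1) / 2 := by linarith
  have hcw : Continuous (wt (((d : ℝ) - 1) / 2)) := wt_cont hp0
  have hcw1 : Continuous (wt (((d : ℝ) + 1) / 2)) := wt_cont (by linarith)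
  have hcw2 : Continuous fun t : ℝ => t * wt (((d : ℝ) - 1) / 2) t := continuous_id.mul hcw
  have h := (dsin hcw2 z).neg
  have e : -(∫ t in (-1 : ℝ)..1, (t * wt (((d : ℝ) - 1) / 2) t) * (cos (z * t) * t)) =
      -G d z + G (d + 2) z := by
    rw [G_eq, G2_eq, ← intervalIntegral.integral_neg, ← intervalIntegral.integral_neg,
      ← intervalIntegral.integral_add]
    · refine intervalIntegral.integral_congr fun t ht => ?_
      rw [uIcc_of_le (by norm_num)] at ht
      have h0 : 0 ≤ 1 - t ^ 2 := by nlinarith [ht.1, ht.2]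
      have h1 : wt (((d : ℝ) + 1) / 2) t = wt (((d : ℝ) - 1) / 2) t * (1 - t ^ 2) := by
        unfold wt
        rw [show ((d : ℝ) + 1) / 2 = ((d : ℝ) - 1) / 2 + 1 by ring,
          Real.rpow_add_one' h0 (by linarith)]
      show -(t * wt (((d : ℝ) - 1) / 2) t * (cos (z * t) * t)) =
        -(wt (((d : ℝ) - 1) / 2) t * cos (z * t)) + wt (((d : ℝ) + 1) / 2) t * cos (z * t)
      rw [h1]
      ring
    · exact ((hcw.mul (by fun_prop : Continuous fun t : ℝ => cos (z * t))).neg).intervalIntegrable _ _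
    · exact (hcw1.mul (by fun_prop : Continuous fun t : ℝ => cos (z * t))).intervalIntegrable _ _
  rw [e] at h
  exact h

theorem G_le {d : ℕ} (hd : 1 ≤ d) (z : ℝ) : |G d z| ≤ 2 := by
  have hd' : (1 : ℝ) ≤ d := by exact_mod_cast hd
  have hp0 : 0 ≤ ((d : ℝ) - 1) / 2 := by linarith
  rw [G_eq]
  have h := intervalIntegral.norm_integral_le_of_norm_le_const (a := (-1 : ℝ)) (b := 1) (C := 1)
    (f := fun t => wt (((d : ℝ) - 1) / 2) t * cos (z * t)) ?_
  · rw [Real.norm_eq_abs] at h
    refine h.trans ?_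
    norm_num
  · intro t ht
    rw [uIoc_of_le (by norm_num)] at ht
    have h1 : |t| ≤ 1 := abs_le.2 ⟨ht.1.le, ht.2⟩
    rw [Real.norm_eq_abs, abs_mul]
    exact mul_le_one₀ (wt_le hp0 h1) (abs_nonneg _) (abs_cos_le_one _)

theorem H_le {d : ℕ} (hd : 1 ≤ d) (z : ℝ) : |HH d z| ≤ 2 ∧ |HH d z| ≤ 2 * |z| := by
  have hd' : (1 : ℝ) ≤ d := by exact_mod_cast hd
  have hp0 : 0 ≤ ((d : ℝ) - 1) / 2 := by linarith
  have key : ∀ C : ℝ, (∀ t : ℝ, |t| ≤ 1 → |sin (z * t)| ≤ C) → |HH d z| ≤ 2 * C := by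
    intro C hC
    rw [HH, abs_neg]
    have h := intervalIntegral.norm_integral_le_of_norm_le_const (a := (-1 : ℝ)) (b := 1) (C := C)
      (f := fun t => (t * wt (((d : ℝ) - 1) / 2) t) * sin (z * t)) ?_
    · rw [Real.norm_eq_abs] at h
      refine h.trans (le_of_eq ?_)
      norm_num
      ring
    · intro t ht
      rw [uIoc_of_le (by norm_num)] at ht
      have h1 : |t| ≤ 1 := abs_le.2 ⟨ht.1.le, ht.2⟩
      rw [Real.norm_eq_abs, abs_mul, abs_mul]
      have h2 : |t| * |wt (((d : ℝ) - 1) / 2) t| ≤ 1 :=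
        mul_le_one₀ h1 (abs_nonneg _) (wt_le hp0 h1)
      calc |t| * |wt (((d : ℝ) - 1) / 2) t| * |sin (z * t)| ≤ 1 * |sin (z * t)| :=
            mul_le_mul_of_nonneg_right h2 (abs_nonneg _)
        _ = |sin (z * t)| := one_mul _
        _ ≤ C := hC t h1
  refine ⟨by simpa using key 1 fun t _ => abs_sin_le_one _, key |z| fun t ht => ?_⟩
  refine abs_sin_le_abs.trans ?_
  rw [abs_mul]
  exact mul_le_of_le_one_right (abs_nonneg _) ht

end ModBES

open ModBES in
theorem bes : StmBES := by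
  intro d hd
  have hd' : (1 : ℝ) ≤ d := by exact_mod_cast hd
  refine ⟨HH d, dG hd, HH_eq hd, fun z hz => ?_, G_le hd, fun z => (H_le hd z).1,
    fun z => (H_le hd z).2⟩
  have h := dH hd z
  have e : -G d z + G (d + 2) z = -G d z - ((d : ℝ) + 1) / z * HH d z := by
    rw [HH_eq hd]
    have : (d : ℝ) + 1 ≠ 0 := by linarith
    field_simp
    ring
  rw [e] at h
  exact h

open ModBES in
theorem ode : StmODE := by
  intro d hd z
  have hder : deriv (G d) = HH d := by
    ext y
    exact (dG hd y).deriv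
  refine ⟨?_, ?_⟩
  · rw [← HH_eq hd]
    exact dG hd z
  · rw [hder]
    exact dH hd z

end H50.QN
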