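import Pool.Agent.T6.H50.QN.Defs

/-! Module CUB of project QN: the Fourier transform of the cube (helper13). -/

set_option autoImplicit false

open MeasureTheory Real Filter Topology Set
open scoped ENNReal RealInnerProductSpace

namespace H50.QN

namespace ModCUB

theorem lint_pow (g : ℝ → ℝ≥0∞) (hg : Measurable g) (n : ℕ) :
    ∫⁻ x : Fin n → ℝ, ∏ i, g (x i) = (∫⁻ t, g t) ^ n := by
  induction n with
  | zero =>
    rw [Measure.volume_pi_eq_dirac (fun i : Fin 0 => i.elim0)]
    simp
  | succ n ih =>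
    have hm : ∀ m : ℕ, Measurable (fun x : Fin m → ℝ => ∏ i, g (x i)) := fun m =>
      Finset.measurable_prod _ fun i _ => hg.comp (measurable_pi_apply i)
    have h1 := (volume_preserving_piFinSuccAbove (fun _ : Fin (n + 1) => ℝ) 0).symm
    rw [← h1.lintegral_comp (hm (n + 1))]
    have h2 : ∀ z : ℝ × (Fin n → ℝ),
        ∏ i, g ((MeasurableEquiv.piFinSuccAbove (fun _ : Fin (n + 1) => ℝ) 0).symm z i) =
          g z.1 * ∏ i, g (z.2 i) := by
      intro z
      rw [Fin.prod_univ_succ]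
      simp [MeasurableEquiv.piFinSuccAbove_symm_apply, Fin.insertNthEquiv]
    simp_rw [h2]
    rw [Measure.volume_eq_prod]
    rw [lintegral_prod_mul hg.aemeasurable (hm n).aemeasurable, ih, pow_succ, mul_comm]

theorem cube_eq (d : ℕ) : cube d = (@WithLp.ofLp 2 (Fin d → ℝ)) ⁻¹'
    (Set.pi univ (fun _ => Icc (-(1 / 2) : ℝ) (1 / 2))) := by
  ext x
  unfold cube
  simp only [Set.mem_preimage, Set.mem_pi, Set.mem_univ, forall_true_left, Set.mem_Icc]
  exact forall_congr' fun i => abs_le

theorem meas_cube (d : ℕ) : MeasurableSet (cube d) := by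
  rw [cube_eq]
  exact (PiLp.volume_preserving_ofLp (Fin d)).measurable
    (MeasurableSet.univ_pi fun _ => measurableSet_Icc)

theorem vol_cube (d : ℕ) : volume (cube d) = 1 := by
  rw [cube_eq, (PiLp.volume_preserving_ofLp (Fin d)).measure_preimage
    (MeasurableSet.univ_pi fun _ => measurableSet_Icc).nullMeasurableSet, volume_pi_pi]
  simp only [Real.volume_Icc]
  norm_num

theorem one_dim (y : ℝ) :
    ∫ t in Icc (-(1 / 2) : ℝ) (1 / 2), Complex.exp (((-2 * π * (t * y) : ℝ) : ℂ) * Complex.I) =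
      ((sinc (π * y) : ℝ) : ℂ) := by
  rw [integral_Icc_eq_integral_Ioc, ← intervalIntegral.integral_of_le (by norm_num)]
  rcases eq_or_ne y 0 with rfl | hy
  · simp
    norm_num
  · have hπ : (π : ℂ) ≠ 0 := by exact_mod_cast pi_ne_zero
    have hy' : (y : ℂ) ≠ 0 := by exact_mod_cast hy
    have hc : (-2 * π * y : ℂ) * Complex.I ≠ 0 := by
      refine mul_ne_zero (mul_ne_zero (mul_ne_zero (by norm_num) hπ) hy') Complex.I_ne_zero
    have h1 : ∀ t : ℝ, Complex.exp (((-2 * π * (t * y) : ℝ) : ℂ) * Complex.I) =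
        Complex.exp ((-2 * π * y : ℂ) * Complex.I * t) := by
      intro t
      congr 1
      push_cast
      ring
    simp_rw [h1]
    rw [integral_exp_mul_complex hc, sinc_of_ne_zero (mul_ne_zero pi_ne_zero hy)]
    push_cast
    have e1 : (-2 * π * y : ℂ) * Complex.I * (1 / 2) = -(π * y * Complex.I) := by ring
    have e2 : (-2 * π * y : ℂ) * Complex.I * (-(1 / 2)) = π * y * Complex.I := by ring
    rw [e1, e2, Complex.sin]
    have e3 : -(π * y : ℂ) * Complex.I = -(π * y * Complex.I) := by ring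
    rw [e3]
    rw [div_eq_div_iff hc (mul_ne_zero hπ hy')]
    have hI : Complex.I * Complex.I = -1 := Complex.I_mul_I
    linear_combination (Complex.exp (-(π * y * Complex.I)) - Complex.exp (π * y * Complex.I)) * (-(π * y : ℂ)) * (-hI)

theorem ft_cube {d : ℕ} (ξ : E d) : ft (cube d) ξ = ∏ i, ((sinc (π * ξ i) : ℝ) : ℂ) := by
  unfold ft
  have h1 : ∀ x : E d, Complex.exp (((-2 * π * inner ℝ x ξ : ℝ) : ℂ) * Complex.I) =
      (fun y : Fin d → ℝ => ∏ i, Complex.exp (((-2 * π * (y i * ξ i) : ℝ) : ℂ) * Complex.I))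
        (WithLp.ofLp x) := by
    intro x
    simp only
    rw [← Complex.exp_sum, ← Finset.sum_mul]
    congr 2
    rw [PiLp.inner_apply]
    push_cast
    rw [Finset.mul_sum]
    refine Finset.sum_congr rfl fun i _ => ?_
    simp
    ring
  rw [setIntegral_congr_fun (meas_cube d) (fun x _ => h1 x), cube_eq]
  have hme : MeasurableEmbedding (@WithLp.ofLp 2 (Fin d → ℝ)) :=
    (MeasurableEquiv.toLp 2 (Fin d → ℝ)).symm.measurableEmbedding
  refine ((PiLp.volume_preserving_ofLp (Fin d)).setIntegral_preimage_emb hme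
    (fun y : Fin d → ℝ => ∏ i, Complex.exp (((-2 * π * (y i * ξ i) : ℝ) : ℂ) * Complex.I)) _).trans ?_
  rw [volume_pi, Measure.restrict_pi_pi, integral_fintype_prod_eq_prod
    (f := fun i (t : ℝ) => Complex.exp (((-2 * π * (t * ξ i) : ℝ) : ℂ) * Complex.I))]
  exact Finset.prod_congr rfl fun i _ => one_dim (ξ i)

end ModCUB

open ModCUB in
theorem cub : StmCUB := by
  intro d q hq
  refine ⟨vol_cube d, (meas_cube d).nullMeasurableSet, ?_⟩
  have hg : Measurable (fun t : ℝ => ENNReal.ofReal (|sinc (π * t)| ^ q)) := by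
    have h1 : Continuous (fun t : ℝ => |sinc (π * t)|) :=
      (continuous_sinc.comp (continuous_const.mul continuous_id)).abs
    exact (h1.measurable.pow_const q).ennreal_ofReal
  unfold Phi S
  rw [← lint_pow _ hg d]
  have h1 : ∀ ξ : E d, ‖ft (cube d) ξ‖ₑ ^ q =
      (fun y : Fin d → ℝ => ∏ i, ENNReal.ofReal (|sinc (π * y i)| ^ q)) (WithLp.ofLp ξ) := by
    intro ξ
    rw [ft_cube]
    simp only
    have h2 : ‖∏ i, ((sinc (π * ξ i) : ℝ) : ℂ)‖ₑ = ENNReal.ofReal (∏ i, |sinc (π * ξ i)|) := by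
      rw [← ofReal_norm, norm_prod]
      congr 1
      refine Finset.prod_congr rfl fun i _ => ?_
      rw [Complex.norm_real, Real.norm_eq_abs]
    rw [h2, ENNReal.ofReal_rpow_of_nonneg (Finset.prod_nonneg fun i _ => abs_nonneg _) hq.le,
      ← Real.finsetProd_rpow _ _ (fun i _ => abs_nonneg _),
      ENNReal.ofReal_prod_of_nonneg fun i _ => Real.rpow_nonneg (abs_nonneg _) q]
  simp_rw [h1]
  exact (PiLp.volume_preserving_ofLp (Fin d)).lintegral_comp
    (f := fun y : Fin d → ℝ => ∏ i, ENNReal.ofReal (|sinc (π * y i)| ^ q))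
    (Finset.measurable_prod _ fun i _ => hg.comp (measurable_pi_apply i))

end H50.QN
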