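import Pool.Agent.T6.H50.QN.Defs

/-! Project QN (`MP_3fd3b2_an`), module DEC: decay of `G` and `G'`. -/

open MeasureTheory Real Filter Topology Set

namespace H50.QN

theorem dec (h : StmBES) : StmDEC := by
  intro d hd
  obtain ⟨H, hG, -, hH, bG, bH, -⟩ := h d hd
  have hder : deriv (G d) = H := funext fun z => (hG z).deriv
  rw [hder]
  have hd0 : (0:ℝ) < (d:ℝ) + 1 := by positivity
  have hd1 : (1:ℝ) ≤ (d:ℝ) + 1 := by
    have : (0:ℝ) ≤ (d:ℝ) := Nat.cast_nonneg d
    linarith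
  generalize hg : G d = g at *
  let V : ℝ → ℝ := fun z => z ^ (d+1) * (g z ^ 2 + H z ^ 2) + (d+1) * (z ^ d * (g z * H z))
  have hVd : ∀ z, V z = z ^ (d+1) * (g z ^ 2 + H z ^ 2) + (d+1) * (z ^ d * (g z * H z)) :=
    fun z => rfl
  have hV : ∀ z, 0 < z → HasDerivAt V (-((d+1) * (z ^ (d-1) * (g z * H z)))) z := by
    intro z hz
    have h1 : HasDerivAt (fun z : ℝ => z ^ (d+1)) ((d+1) * z ^ d) z := by
      simpa using hasDerivAt_pow (d+1) z
    have h2 : HasDerivAt (fun z : ℝ => z ^ d) (d * z ^ (d-1)) z := by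
      simpa using hasDerivAt_pow d z
    have h3 := ((hG z).pow 2).add ((hH z hz).pow 2)
    have h4 := (hG z).mul (hH z hz)
    have h5 := (h1.mul h3).add ((h2.mul h4).const_mul ((d:ℝ)+1))
    refine h5.congr_deriv ?_
    obtain ⟨k, rfl⟩ : ∃ k, d = k + 1 := ⟨d-1, by omega⟩
    have hz' : z ≠ 0 := hz.ne'
    simp
    field_simp
    ring
  have key : ∀ z, 0 < z → |g z * H z| ≤ (g z ^ 2 + H z ^ 2) / 2 := by
    intro z _
    rw [abs_le]
    constructor
    · nlinarith [sq_nonneg (g z + H z)]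
    · nlinarith [sq_nonneg (g z - H z)]
  have hW0 : ∀ z, 0 < z → 0 ≤ z ^ (d+1) * (g z ^ 2 + H z ^ 2) := by
    intro z hz; positivity
  -- comparison for `z ≥ d + 1`
  have hlow : ∀ z, (d:ℝ) + 1 ≤ z → z ^ (d+1) * (g z ^ 2 + H z ^ 2) ≤ 2 * V z := by
    intro z hz
    have hz0 : 0 < z := lt_of_lt_of_le hd0 hz
    have k := (abs_le.1 (key z hz0)).1
    have e : z ^ (d+1) * (g z ^ 2 + H z ^ 2) = z ^ d * (z * (g z ^ 2 + H z ^ 2)) := by ring
    have h1 : (d+1) * (g z * H z) ≥ - (z * ((g z ^ 2 + H z ^ 2) / 2)) := by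
      have : (d+1) * (g z * H z) ≥ (d+1) * (-((g z ^ 2 + H z ^ 2) / 2)) :=
        mul_le_mul_of_nonneg_left k hd0.le
      have h2 : (d+1) * ((g z ^ 2 + H z ^ 2) / 2) ≤ z * ((g z ^ 2 + H z ^ 2) / 2) :=
        mul_le_mul_of_nonneg_right hz (by positivity)
      linarith
    have h2 : z ^ d * ((d+1) * (g z * H z)) ≥ z ^ d * (- (z * ((g z ^ 2 + H z ^ 2) / 2))) :=
      mul_le_mul_of_nonneg_left h1 (by positivity)
    rw [hVd, e]
    nlinarith [h2]
  have hanti : AntitoneOn (fun z => V z * exp ((d+1) / z)) (Ici ((d:ℝ)+1)) := by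
    have hpos : ∀ z ∈ Ici ((d:ℝ)+1), (0:ℝ) < z := fun z hz => lt_of_lt_of_le hd0 hz
    have hdv : ∀ z ∈ Ici ((d:ℝ)+1), HasDerivAt (fun z => V z * exp ((d+1) / z))
        (-((d+1) * (z ^ (d-1) * (g z * H z))) * exp ((d+1)/z)
          + V z * (exp ((d+1)/z) * (-((d+1) / z ^ 2)))) z := by
      intro z hz
      have hz0 := hpos z hz
      have h1 : HasDerivAt (fun z : ℝ => ((d:ℝ)+1) / z) (-(((d:ℝ)+1) / z ^ 2)) z := by
        have := (hasDerivAt_inv hz0.ne').const_mul ((d:ℝ)+1)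
        refine (this.congr_deriv ?_)
        field_simp
      exact (hV z hz0).mul h1.exp
    refine antitoneOn_of_deriv_nonpos (convex_Ici _)
      (fun z hz => (hdv z hz).continuousAt.continuousWithinAt)
      (fun z hz => (hdv z (interior_subset hz)).differentiableAt.differentiableWithinAt) ?_
    intro z hz
    have hz := interior_subset hz
    rw [(hdv z hz).deriv]
    have hz0 := hpos z hz
    have e0 := exp_pos (((d:ℝ)+1)/z)
    have hl := hlow z hz
    have k := (abs_le.1 (key z hz0)).1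
    have main : -((d+1) * (z ^ (d-1) * (g z * H z))) ≤ V z * ((d+1) / z ^ 2) := by
      have e : z ^ (d+1) = z ^ (d-1) * z ^ 2 := by
        rw [← pow_add]; congr 1; omega
      have hz2 : (0:ℝ) < z ^ 2 := by positivity
      rw [← mul_div_assoc, le_div_iff₀ hz2]
      have h1 : -(z ^ (d-1) * (g z * H z)) ≤ z ^ (d-1) * ((g z ^ 2 + H z ^ 2) / 2) := by
        have := mul_le_mul_of_nonneg_left k (show (0:ℝ) ≤ z ^ (d-1) by positivity)
        linarith
      have h2 : -(z ^ (d-1) * (g z * H z)) * z ^ 2 ≤ V z := by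
        have := mul_le_mul_of_nonneg_right h1 hz2.le
        rw [e] at hl
        nlinarith
      nlinarith
    have : -((d+1) * (z ^ (d-1) * (g z * H z))) * exp ((d+1)/z)
          + V z * (exp ((d+1)/z) * (-((d+1) / z ^ 2)))
        = (-((d+1) * (z ^ (d-1) * (g z * H z))) - V z * ((d+1) / z ^ 2)) * exp ((d+1)/z) := by
      ring
    rw [this]
    exact mul_nonpos_of_nonpos_of_nonneg (by linarith) e0.le
  refine ⟨max (8 * ((d:ℝ)+1) ^ (d+1)) (2 * (V ((d:ℝ)+1) * exp (((d:ℝ)+1) / ((d:ℝ)+1)))), ?_⟩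
  intro z hz
  have hz0 : 0 < z := by linarith
  rcases le_total z ((d:ℝ)+1) with hc | hc
  · refine le_trans ?_ (le_max_left _ _)
    have a1 : g z ^ 2 ≤ 4 := by
      have := sq_le_sq' (by linarith [(abs_le.1 (bG z)).1]) (abs_le.1 (bG z)).2
      linarith
    have a2 : H z ^ 2 ≤ 4 := by
      have := sq_le_sq' (by linarith [(abs_le.1 (bH z)).1]) (abs_le.1 (bH z)).2
      linarith
    have a3 : z ^ (d+1) ≤ ((d:ℝ)+1) ^ (d+1) := pow_le_pow_left₀ hz0.le hc _
    calc z ^ (d+1) * (g z ^ 2 + H z ^ 2) ≤ ((d:ℝ)+1) ^ (d+1) * 8 :=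
          mul_le_mul a3 (by linarith) (by positivity) (by positivity)
      _ = _ := by ring
  · refine le_trans ?_ (le_max_right _ _)
    have hl := hlow z hc
    have ha := hanti (self_mem_Ici) (mem_Ici.2 hc) hc
    simp only at ha
    have hV0 : 0 ≤ V z := by
      have := hW0 z hz0
      linarith
    have he : 1 ≤ exp (((d:ℝ)+1) / z) := one_le_exp (by positivity)
    have : V z ≤ V z * exp (((d:ℝ)+1) / z) := le_mul_of_one_le_right hV0 he
    linarith

end H50.QN
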