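import Pool.Agent.T6.H50.QN.Defs2

/-! Project QN, module EBD: two sided bound for `L_d / N_d`. -/

open MeasureTheory Real Filter Topology Set

namespace H50.QN

lemma ebd_alg (x y A B A' B' : ℝ) (hx : 2 ≤ x) (hxy : 0 < y ^ 2 - x ^ 2) (hA : 0 < A)
    (h1 : x * (y ^ 2 - x ^ 2) * A = 4 * (x - 1) * A')
    (h2 : (y ^ 2 - 3 * x ^ 2) * A - x * (y ^ 2 - x ^ 2) * B = 4 * A' - 4 * (x - 1) * B') :
    B' / A' = B / A + 1 / (x - 1) - 1 / x + 2 * x / (y ^ 2 - x ^ 2) := by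
  have hx1 : 0 < x - 1 := by linarith
  have hx0 : 0 < x := by linarith
  have hA' : A' = x * (y ^ 2 - x ^ 2) * A / (4 * (x - 1)) := by
    rw [eq_div_iff (by positivity)]
    linarith
  have hA'0 : 0 < A' := by
    rw [hA']
    positivity
  have hB' : B' = (4 * A' - (y ^ 2 - 3 * x ^ 2) * A + x * (y ^ 2 - x ^ 2) * B)
      / (4 * (x - 1)) := by
    rw [eq_div_iff (by positivity)]
    linarith
  have e1 : B' / A' = (4 * A' - (y ^ 2 - 3 * x ^ 2) * A + x * (y ^ 2 - x ^ 2) * B)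
      / (x * (y ^ 2 - x ^ 2) * A) := by
    rw [hB', div_div, h1]
  have e2 : 4 * A' = x * (y ^ 2 - x ^ 2) * A / (x - 1) := by
    rw [eq_div_iff hx1.ne']
    linarith
  rw [e1, e2]
  have hne : y ^ 2 - x ^ 2 ≠ 0 := hxy.ne'
  have hne1 : x - 1 ≠ 0 := hx1.ne'
  field_simp
  ring

lemma ebd_step (hI : StmINT) (hM : StmMOM) (d s : ℕ) (hs : 2 ≤ s) (hsd : s + 1 ≤ d) :
    BB d (s - 2) / AA d (s - 2) = BB d s / AA d s + 1 / ((s : ℝ) - 1) - 1 / (s : ℝ)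
      + 2 * (s : ℝ) / ((d : ℝ) ^ 2 - (s : ℝ) ^ 2) := by
  obtain ⟨h1, h2⟩ := hM d s hs hsd
  have hA := (hI d s hsd).2.2
  have hx : (2 : ℝ) ≤ (s : ℝ) := by exact_mod_cast hs
  have hy : (s : ℝ) + 1 ≤ (d : ℝ) := by exact_mod_cast hsd
  exact ebd_alg _ _ _ _ _ _ hx (by nlinarith) hA h1 h2

theorem ebd (hI : StmINT) (hM : StmMOM) (hJ : StmJLU) : StmEBD := by
  intro d hd
  have hdr : (7 : ℝ) ≤ (d : ℝ) := by exact_mod_cast hd
  have s2 := ebd_step hI hM d 2 (by norm_num) (by omega)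
  have s4 := ebd_step hI hM d 4 (by norm_num) (by omega)
  have s6 := ebd_step hI hM d 6 (by norm_num) (by omega)
  norm_num at s2 s4 s6
  obtain ⟨j1, j2⟩ := hJ d 4 (by omega)
  norm_num at j1 j2
  have hA6 := (hI d 6 (by omega)).2.2
  have m6 := (hM d 6 (by norm_num) (by omega)).1
  norm_num at m6
  have hq : AA d 4 / AA d 6 = 3 * ((d : ℝ) ^ 2 - 36) / 10 := by
    rw [div_eq_iff hA6.ne']
    linarith
  rw [hq] at j1 j2
  have e0 : LL d / NN d = BB d 0 / AA d 0 := rfl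
  rw [e0]
  have p4 : 0 ≤ 4 / ((d : ℝ) ^ 2 - 4) := div_nonneg (by norm_num) (by nlinarith)
  have p8 : 0 ≤ 8 / ((d : ℝ) ^ 2 - 16) := div_nonneg (by norm_num) (by nlinarith)
  constructor <;> linarith

end H50.QN
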