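import Pool.Agent.T6.H50.QN.Defs

/-! Project QN, second wave: all dimensions `d ≥ 70`. -/

open MeasureTheory Real Filter Topology Set
open scoped ENNReal RealInnerProductSpace

namespace H50.QN

/-- `A_{d,s} = ∫_0^∞ z^{d-1-s} G_d(z)^2 dz` -/
noncomputable def AA (d s : ℕ) : ℝ := ∫ z in Ioi (0 : ℝ), z ^ (d - 1 - s) * G d z ^ 2

/-- `B_{d,s} = ∫_0^∞ z^{d-1-s} G_d(z)^2 log z dz` -/
noncomputable def BB (d s : ℕ) : ℝ := ∫ z in Ioi (0 : ℝ), z ^ (d - 1 - s) * G d z ^ 2 * log z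

/-- INT: integrability. -/
def StmINT : Prop := ∀ (d s : ℕ), s + 1 ≤ d →
  IntegrableOn (fun z : ℝ => z ^ (d - 1 - s) * G d z ^ 2) (Ioi 0) ∧
  IntegrableOn (fun z : ℝ => z ^ (d - 1 - s) * G d z ^ 2 * log z) (Ioi 0) ∧ 0 < AA d s

/-- MOM: the moment identities. -/
def StmMOM : Prop := ∀ (d s : ℕ), 2 ≤ s → s + 1 ≤ d →
  (s : ℝ) * ((d : ℝ) ^ 2 - (s : ℝ) ^ 2) * AA d s = 4 * ((s : ℝ) - 1) * AA d (s - 2) ∧
  ((d : ℝ) ^ 2 - 3 * (s : ℝ) ^ 2) * AA d s - (s : ℝ) * ((d : ℝ) ^ 2 - (s : ℝ) ^ 2) * BB d s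
    = 4 * AA d (s - 2) - 4 * ((s : ℝ) - 1) * BB d (s - 2)

/-- JLU: Jensen's inequality, lower and upper bound. -/
def StmJLU : Prop := ∀ (d s : ℕ), s + 3 ≤ d →
  1 / 2 * log (AA d s / AA d (s + 2)) ≤ BB d s / AA d s ∧
  BB d (s + 2) / AA d (s + 2) ≤ 1 / 2 * log (AA d s / AA d (s + 2))

/-- EBD: two sided bound for `L_d / N_d`. -/
def StmEBD : Prop := ∀ d : ℕ, 7 ≤ d →
  1 / 2 * log (3 * ((d : ℝ) ^ 2 - 36) / 10) + 7 / 12 ≤ LL d / NN d ∧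
  LL d / NN d ≤ 1 / 2 * log (3 * ((d : ℝ) ^ 2 - 36) / 10) + 37 / 60
    + 4 / ((d : ℝ) ^ 2 - 4) + 8 / ((d : ℝ) ^ 2 - 16) + 12 / ((d : ℝ) ^ 2 - 36)

/-- LA2: sharper bound for `λ = L_1 / N_1`. -/
def StmLA2 : Prop := LL 1 / NN 1 ≤ -(51 / 200)

/-- NU2: the numerical inequality for all `d ≥ 70`. -/
def StmNU2 : Prop := ∀ (lam e : ℝ) (d : ℕ), 70 ≤ d → lam ≤ -(51 / 200) →
  1 / 2 * log (3 * ((d : ℝ) ^ 2 - 36) / 10) + 7 / 12 ≤ e →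
    (d : ℝ) * (2 * (log 2 + lam)) < d * e - log 3 - d * log (2 * π) + 2 * log (om d)

end H50.QN
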