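import Mathlib

/-! Project QN (`MP_3fd3b2_an`): definitions and module statements.
For `q` near `2` and large odd dimension ellipsoids do not maximise `‖\hat 1_E‖_q`. -/

open MeasureTheory Real Filter Topology Set
open scoped ENNReal RealInnerProductSpace

namespace H50.QN

/-- Euclidean `d`-space -/
abbrev E (d : ℕ) := EuclideanSpace ℝ (Fin d)

/-- the Fourier transform of the indicator function of `A`:
`∫_A e^{-2π i ⟨x, ξ⟩} dx` -/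
noncomputable def ft {d : ℕ} (A : Set (E d)) (ξ : E d) : ℂ :=
  ∫ x in A, Complex.exp (((-2 * π * inner ℝ x ξ : ℝ) : ℂ) * Complex.I)

/-- `∫ |\hat 1_A|^q`, with values in `[0, ∞]` -/
noncomputable def Phi {d : ℕ} (q : ℝ) (A : Set (E d)) : ℝ≥0∞ :=
  ∫⁻ ξ, ‖ft A ξ‖ₑ ^ q

/-- ellipsoids: images of the closed unit ball under invertible affine maps -/
def IsEll {d : ℕ} (A : Set (E d)) : Prop :=
  ∃ (T : E d ≃ₗ[ℝ] E d) (b : E d), A = (fun x => T x + b) '' Metric.closedBall 0 1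

/-- maximisers among measurable sets of measure one -/
def IsMax {d : ℕ} (q : ℝ) (A : Set (E d)) : Prop :=
  NullMeasurableSet A ∧ volume A = 1 ∧
    ∀ B : Set (E d), NullMeasurableSet B → volume B = 1 → Phi q B ≤ Phi q A

/-- the closed cube of side one -/
def cube (d : ℕ) : Set (E d) := {x | ∀ i, |x i| ≤ 1 / 2}

/-- volume of the unit ball of `E d` -/
noncomputable def om (d : ℕ) : ℝ := (volume (Metric.ball (0 : E d) 1)).toReal

/-- `G_d(z) = ∫_{-1}^1 (1-t^2)^{(d-1)/2} cos (z t) dt` -/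
noncomputable def G (d : ℕ) (z : ℝ) : ℝ :=
  ∫ t in (-1 : ℝ)..1, (1 - t ^ 2) ^ (((d : ℝ) - 1) / 2) * cos (z * t)

/-- `N_d = ∫_0^∞ z^{d-1} G_d(z)^2 dz` -/
noncomputable def NN (d : ℕ) : ℝ := ∫ z in Ioi (0 : ℝ), z ^ (d - 1) * G d z ^ 2

/-- `L_d = ∫_0^∞ z^{d-1} G_d(z)^2 log z dz` -/
noncomputable def LL (d : ℕ) : ℝ := ∫ z in Ioi (0 : ℝ), z ^ (d - 1) * G d z ^ 2 * log z

/-- `∫ |sin(πx)/(πx)|^q dx` -/
noncomputable def S (q : ℝ) : ℝ≥0∞ := ∫⁻ x : ℝ, ENNReal.ofReal (|sinc (π * x)| ^ q)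

/-! ### Module statements -/

/-- AFF: affine change of variables. -/
def StmAFF : Prop := ∀ (d : ℕ), 1 ≤ d → ∀ q : ℝ, 2 < q → ∀ A : Set (E d), IsEll A →
  volume A = 1 →
    Phi q A = ENNReal.ofReal (om d ^ (1 - q)) * Phi q (Metric.closedBall (0 : E d) 1)

/-- SLI: slicing the ball perpendicular to the frequency. -/
def StmSLI : Prop := ∀ (n : ℕ) (ξ : E (n + 1)),
  ft (Metric.closedBall (0 : E (n + 1)) 1) ξ = ((om n * G (n + 1) (2 * π * ‖ξ‖) : ℝ) : ℂ)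

/-- POL: polar coordinates for the radial function `ft (ball)`. -/
def StmPOL : Prop := ∀ (n : ℕ) (q : ℝ), 0 < q →
  Phi q (Metric.closedBall (0 : E (n + 1)) 1)
    = ENNReal.ofReal (om n ^ q * (n + 1) * om (n + 1) / (2 * π) ^ (n + 1))
      * ∫⁻ z in Ioi (0 : ℝ), ENNReal.ofReal (z ^ n * |G (n + 1) z| ^ q)

/-- PLA: Plancherel for the ball. -/
def StmPLA : Prop := ∀ (n : ℕ),
  Phi 2 (Metric.closedBall (0 : E (n + 1)) 1) = ENNReal.ofReal (om (n + 1))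

/-- NOR: the value of `N_d` and integrability. -/
def StmNOR : Prop := ∀ (n : ℕ),
  IntegrableOn (fun z : ℝ => z ^ n * G (n + 1) z ^ 2) (Ioi 0) ∧
  NN (n + 1) = (2 * π) ^ (n + 1) / ((n + 1) * om n ^ 2)

/-- ODE: the two derivative formulas. -/
def StmODE : Prop := ∀ (d : ℕ), 1 ≤ d → ∀ z : ℝ,
  HasDerivAt (G d) (-(z / (d + 1)) * G (d + 2) z) z ∧
  HasDerivAt (deriv (G d)) (-G d z + G (d + 2) z) z

/-- BES: the consequence used below, the Bessel type equation (first and second derivatives). -/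
def StmBES : Prop := ∀ (d : ℕ), 1 ≤ d → ∃ H : ℝ → ℝ,
  (∀ z, HasDerivAt (G d) (H z) z) ∧
  (∀ z, H z = -(z / (d + 1)) * G (d + 2) z) ∧
  (∀ z, 0 < z → HasDerivAt H (-G d z - (d + 1) / z * H z) z) ∧
  (∀ z, |G d z| ≤ 2) ∧ (∀ z, |H z| ≤ 2) ∧ (∀ z, |H z| ≤ 2 * |z|)

/-- DEC: decay of `G` and `G'`. -/
def StmDEC : Prop := ∀ (d : ℕ), 1 ≤ d → ∃ C : ℝ, ∀ z : ℝ, 1 ≤ z →
  z ^ (d + 1) * (G d z ^ 2 + deriv (G d) z ^ 2) ≤ C

/-- REC: the virial recursion. -/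
def StmREC : Prop := ∀ (d : ℕ), 1 ≤ d →
  LL (d + 2) / NN (d + 2) = LL d / NN d + 1 / d + 1 / (d + 2)

/-- LIN: integrability of the logarithmic integrand. -/
def StmLIN : Prop := ∀ (d : ℕ), 1 ≤ d →
  IntegrableOn (fun z : ℝ => z ^ (d - 1) * G d z ^ 2 * log z) (Ioi 0)

/-- PTW: the pointwise bound. -/
def StmPTW : Prop := ∀ (d : ℕ), 2 ≤ d → ∀ z : ℝ, 0 < z →
  z ^ d * G d z ^ 2 ≤ 3 * d * NN d

/-- LAM: bound for `λ = (2/π) ∫ (sin z/z)^2 log z dz`. -/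
def StmLAM : Prop :=
  IntegrableOn (fun z : ℝ => (sin z / z) ^ 2 * log z) (Ioi 0) ∧
  2 / π * ∫ z in Ioi (0 : ℝ), (sin z / z) ^ 2 * log z ≤ -(23 / 100)

/-- CUB: the Fourier transform of the cube is a product. -/
def StmCUB : Prop := ∀ (d : ℕ) (q : ℝ), 0 < q →
  volume (cube d) = 1 ∧ NullMeasurableSet (cube d) ∧ Phi q (cube d) = S q ^ d

/-- SU1: the periodisation of `sinc^2` is one. -/
def StmSU1 : Prop := ∀ x : ℝ, HasSum (fun n : ℤ => sinc (π * (x + n)) ^ 2) 1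

/-- SIN: lower bound for `∫ |sinc|^q`. -/
def StmSIN : Prop := ∀ q : ℝ, 2 < q →
  ENNReal.ofReal (1 - (q - 2) * (log 2 + 2 / π * ∫ z in Ioi (0 : ℝ), (sin z / z) ^ 2 * log z))
    ≤ S q

/-- LIM: first order behaviour of `∫ w g^p` as `p → 0+`. -/
def StmLIM : Prop := ∀ (w g l : ℝ → ℝ), Measurable w → Measurable g → Measurable l →
  (∀ z, 0 < z → 0 ≤ w z) → (∀ z, 0 < z → 0 ≤ g z) → (∀ z, 0 < z → g z ≤ 1) →
  (∀ z, 0 < z → g z ≤ exp (-l z)) →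
  IntegrableOn w (Ioi 0) → ∫ z in Ioi (0 : ℝ), w z = 1 →
  IntegrableOn (fun z => w z * l z) (Ioi 0) →
  ∀ h : ℝ, h < ∫ z in Ioi (0 : ℝ), w z * l z →
    ∃ δ : ℝ, 0 < δ ∧ ∀ p : ℝ, 0 < p → p < δ →
      IntegrableOn (fun z => w z * g z ^ p) (Ioi 0) ∧
      ∫ z in Ioi (0 : ℝ), w z * g z ^ p < 1 - p * h

/-- OMR: volumes of unit balls. -/
def StmOMR : Prop := om 0 = 1 ∧ om 1 = 2 ∧ (∀ d, om (d + 2) = om d * (2 * π / (d + 2))) ∧
  ∀ d, 0 < om d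

/-- NUM: the numerical inequality (with `e m` in the role of `L_d / N_d`, `d = 2 m + 1`). -/
def StmNUM : Prop := ∀ (e : ℕ → ℝ), e 0 ≤ -(23 / 100) →
  (∀ m : ℕ, e (m + 1) = e m + 1 / (2 * m + 1) + 1 / (2 * m + 3)) →
  ∀ m : ℕ, 50 ≤ m →
    (2 * m + 1) * (2 * (log 2 + e 0))
      < (2 * m + 1) * e m - log 3 - (2 * m + 1) * log (2 * π) + 2 * log (om (2 * m + 1))

end H50.QN
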