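import Mathlib
import Pool.Agent.T6.H50.QN.Defs

/-! Project QN (`MP_3fd3b2_an`), module LIN: integrability of the logarithmic integrand. -/

set_option autoImplicit false

open MeasureTheory Real Filter Topology Set

namespace H50.QN

namespace ModLIN

/-- Integrability with a logarithm. -/
theorem integ_log (n : ℕ) (g : ℝ → ℝ) (hg : Continuous g) (b : ∀ z, |g z| ≤ 2) (C : ℝ)
    (hC : ∀ z : ℝ, 1 ≤ z → z ^ (n + 2) * g z ^ 2 ≤ C) :
    IntegrableOn (fun z : ℝ => z ^ n * g z ^ 2 * log z) (Ioi 0) := by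
  have hC0 : 0 ≤ C := le_trans (by positivity) (hC 1 le_rfl)
  have hb : ∀ z, g z ^ 2 ≤ 4 := by
    intro z
    have h1 := b z
    have h2 := abs_nonneg (g z)
    have h3 := sq_abs (g z)
    nlinarith
  have hmeas : Measurable (fun z : ℝ => z ^ n * g z ^ 2 * log z) :=
    ((measurable_id.pow_const n).mul (hg.measurable.pow_const 2)).mul measurable_log
  have hU : Ioi (0 : ℝ) = Ioc 0 1 ∪ Ioi 1 := by
    ext z
    simp only [mem_Ioi, mem_union, mem_Ioc]
    constructor
    · intro h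
      rcases le_or_gt z 1 with h1 | h1
      · exact Or.inl ⟨h, h1⟩
      · exact Or.inr h1
    · rintro (⟨h, -⟩ | h)
      · exact h
      · linarith
  rw [hU]
  apply IntegrableOn.union
  · have h1 : IntegrableOn (fun z : ℝ => log z) (Ioc 0 1) := by
      have h2 : IntervalIntegrable log volume 0 1 := intervalIntegral.intervalIntegrable_log'
      rwa [intervalIntegrable_iff_integrableOn_Ioc_of_le zero_le_one] at h2
    have h3 : IntegrableOn (fun z : ℝ => 4 * ‖log z‖) (Ioc 0 1) := h1.norm.const_mul 4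
    refine Integrable.mono' h3 hmeas.aestronglyMeasurable ?_
    filter_upwards [ae_restrict_mem measurableSet_Ioc] with z hz
    rw [norm_mul, Real.norm_eq_abs, abs_of_nonneg (mul_nonneg (pow_nonneg hz.1.le _) (sq_nonneg _))]
    apply mul_le_mul_of_nonneg_right _ (norm_nonneg _)
    have h4 : z ^ n ≤ 1 := pow_le_one₀ hz.1.le hz.2
    have h5 : 0 ≤ z ^ n := pow_nonneg hz.1.le _
    nlinarith [hb z, sq_nonneg (g z)]
  · have h3 : IntegrableOn (fun z : ℝ => 2 * C * z ^ (-(3 / 2) : ℝ)) (Ioi 1) :=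
      (integrableOn_Ioi_rpow_of_lt (by norm_num) one_pos).const_mul _
    refine Integrable.mono' h3 hmeas.aestronglyMeasurable ?_
    filter_upwards [ae_restrict_mem measurableSet_Ioi] with z hz
    have hz1 : 1 < z := hz
    have hz0 : 0 < z := by linarith
    have hl0 : 0 ≤ log z := log_nonneg hz1.le
    rw [Real.norm_eq_abs, abs_of_nonneg (mul_nonneg (mul_nonneg (pow_nonneg hz0.le _)
      (sq_nonneg _)) hl0)]
    have h4 : z ^ n * g z ^ 2 ≤ C / z ^ 2 := by
      rw [le_div_iff₀ (by positivity)]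
      have h5 := hC z hz1.le
      calc z ^ n * g z ^ 2 * z ^ 2 = z ^ (n + 2) * g z ^ 2 := by ring
        _ ≤ C := h5
    have h5 : log z ≤ 2 * z ^ (1 / 2 : ℝ) := by
      have h6 := Real.log_le_rpow_div hz0.le (show (0 : ℝ) < 1 / 2 by norm_num)
      linarith
    have h6 : z ^ (-(3 / 2) : ℝ) = z ^ (1 / 2 : ℝ) / z ^ 2 := by
      rw [show (-(3 / 2) : ℝ) = 1 / 2 - (2 : ℕ) by norm_num, Real.rpow_sub_natCast hz0.ne']
    rw [h6]
    calc z ^ n * g z ^ 2 * log z ≤ C / z ^ 2 * (2 * z ^ (1 / 2 : ℝ)) :=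
          mul_le_mul h4 h5 hl0 (by positivity)
      _ = 2 * C * (z ^ (1 / 2 : ℝ) / z ^ 2) := by ring

end ModLIN

theorem lin (h : StmBES) (h2 : StmDEC) : StmLIN := by
  intro d hd
  obtain ⟨H, h1, -, -, h4, -, -⟩ := h d hd
  obtain ⟨C, hC⟩ := h2 d hd
  obtain ⟨n, rfl⟩ : ∃ n, d = n + 1 := ⟨d - 1, by omega⟩
  have hcont : Continuous (G (n + 1)) :=
    continuous_iff_continuousAt.2 fun z => (h1 z).continuousAt
  refine ModLIN.integ_log n (G (n + 1)) hcont h4 C fun z hz => ?_
  refine le_trans ?_ (hC z hz)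
  apply mul_le_mul_of_nonneg_left _ (by positivity)
  linarith [sq_nonneg (deriv (G (n + 1)) z)]

end H50.QN
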