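import Mathlib
import Pool.Agent.T6.H50.QN.Defs2
import Pool.Agent.T6.H50.QN.LIN

/-! Project QN, second wave, module INT: integrability of the weighted integrands, positivity. -/

set_option autoImplicit false

open MeasureTheory Real Filter Topology Set

namespace H50.QN

namespace ModINT

/-- Integrability without the logarithm. -/
theorem integ (n : ℕ) (g : ℝ → ℝ) (hg : Continuous g) (b : ∀ z, |g z| ≤ 2) (C : ℝ)
    (hC : ∀ z : ℝ, 1 ≤ z → z ^ (n + 2) * g z ^ 2 ≤ C) :
    IntegrableOn (fun z : ℝ => z ^ n * g z ^ 2) (Ioi 0) := by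
  have hmeas : Measurable (fun z : ℝ => z ^ n * g z ^ 2) :=
    (measurable_id.pow_const n).mul (hg.measurable.pow_const 2)
  have hU : Ioi (0 : ℝ) = Ioc 0 1 ∪ Ioi 1 := by
    ext z
    simp only [mem_Ioi, mem_union, mem_Ioc]
    constructor
    · intro h
      rcases le_or_gt z 1 with h1 | h1
      · exact Or.inl ⟨h, h1⟩
      · exact Or.inr h1
    · rintro (⟨h, -⟩ | h)
      · exact h
      · linarith
  rw [hU]
  apply IntegrableOn.union
  · have hc : Continuous (fun z : ℝ => z ^ n * g z ^ 2) := by fun_prop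
    exact (hc.integrableOn_Icc (a := 0) (b := 1)).mono_set Ioc_subset_Icc_self
  · have h3 : IntegrableOn (fun z : ℝ => C * z ^ (-2 : ℝ)) (Ioi 1) :=
      (integrableOn_Ioi_rpow_of_lt (by norm_num) one_pos).const_mul _
    refine Integrable.mono' h3 hmeas.aestronglyMeasurable ?_
    filter_upwards [ae_restrict_mem measurableSet_Ioi] with z hz
    have hz1 : 1 < z := hz
    have hz0 : 0 < z := by linarith
    rw [Real.norm_eq_abs, abs_of_nonneg (mul_nonneg (pow_nonneg hz0.le _) (sq_nonneg _))]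
    have h6 : z ^ (-2 : ℝ) = (z ^ 2)⁻¹ := by
      rw [Real.rpow_neg hz0.le]
      norm_cast
    rw [h6, ← div_eq_mul_inv, le_div_iff₀ (by positivity)]
    have h5 := hC z hz1.le
    calc z ^ n * g z ^ 2 * z ^ 2 = z ^ (n + 2) * g z ^ 2 := by ring
      _ ≤ C := h5

/-- `G_d(0) > 0` -/
theorem G_zero_pos (d : ℕ) (hd : 1 ≤ d) : 0 < G d 0 := by
  have hd' : (1 : ℝ) ≤ d := by exact_mod_cast hd
  have hp : 0 ≤ ((d : ℝ) - 1) / 2 := by linarith
  unfold G
  apply intervalIntegral.intervalIntegral_pos_of_pos_on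
  · apply Continuous.intervalIntegrable
    have h1 : Continuous fun t : ℝ => (1 - t ^ 2) ^ (((d : ℝ) - 1) / 2) :=
      (by fun_prop : Continuous fun t : ℝ => 1 - t ^ 2).rpow_const fun _ => Or.inr hp
    exact h1.mul (by fun_prop)
  · intro t ht
    have h2 : 0 < 1 - t ^ 2 := by nlinarith [ht.1, ht.2]
    rw [zero_mul, cos_zero, mul_one]
    exact Real.rpow_pos_of_pos h2 _
  · norm_num

/-- Positivity. -/
theorem posi (n : ℕ) (g : ℝ → ℝ) (hg : Continuous g) (h0 : 0 < g 0)
    (hi : IntegrableOn (fun z : ℝ => z ^ n * g z ^ 2) (Ioi 0)) :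
    0 < ∫ z in Ioi (0 : ℝ), z ^ n * g z ^ 2 := by
  rw [setIntegral_pos_iff_support_of_nonneg_ae]
  · have h1 : ∀ᶠ z in 𝓝 (0 : ℝ), 0 < g z := hg.continuousAt.eventually (lt_mem_nhds h0)
    obtain ⟨ε, he, h2⟩ := Metric.eventually_nhds_iff.1 h1
    have h3 : Ioo (0 : ℝ) ε ⊆ Function.support (fun z : ℝ => z ^ n * g z ^ 2) ∩ Ioi 0 := by
      intro z hz
      refine ⟨?_, hz.1⟩
      rw [Function.mem_support]
      have h4 : 0 < g z := h2 (by
        rw [Real.dist_eq, sub_zero, abs_of_pos hz.1]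
        exact hz.2)
      have h5 : 0 < z := hz.1
      positivity
    refine lt_of_lt_of_le ?_ (measure_mono h3)
    rw [Real.volume_Ioo]
    simpa using he
  · filter_upwards [ae_restrict_mem measurableSet_Ioi] with z hz
    have hz1 : 0 < z := hz
    simp only [Pi.zero_apply]
    positivity
  · exact hi

end ModINT

/-- INT -/
theorem int2 (hB : StmBES) (hD : StmDEC) : StmINT := by
  intro d s hs
  have hd : 1 ≤ d := by omega
  obtain ⟨H, h1, -, -, h4, -, -⟩ := hB d hd
  obtain ⟨C, hC⟩ := hD d hd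
  have hcont : Continuous (G d) :=
    continuous_iff_continuousAt.2 fun z => (h1 z).continuousAt
  have key : ∀ z : ℝ, 1 ≤ z → z ^ ((d - 1 - s) + 2) * G d z ^ 2 ≤ C := by
    intro z hz
    refine le_trans ?_ (hC z hz)
    apply mul_le_mul
    · exact pow_le_pow_right₀ hz (by omega)
    · linarith [sq_nonneg (deriv (G d) z)]
    · positivity
    · positivity
  have i1 := ModINT.integ (d - 1 - s) (G d) hcont h4 C key
  exact ⟨i1, ModLIN.integ_log (d - 1 - s) (G d) hcont h4 C key,
    ModINT.posi (d - 1 - s) (G d) hcont (ModINT.G_zero_pos d hd) i1⟩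

end H50.QN
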