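import Pool.Agent.T6.H50.QN.Defs2

/-! Project QN, module JLU: Jensen's inequality for the logarithmic moments. -/

set_option autoImplicit false

open MeasureTheory Real Filter Topology Set

namespace H50.QN

/-- the tangent line of the logarithm -/
theorem ModJLU_tangent {x c : ℝ} (hx : 0 < x) (hc : 0 < c) : log x ≤ x / c - 1 + log c := by
  have h := Real.log_le_sub_one_of_pos (div_pos hx hc)
  rw [Real.log_div hx.ne' hc.ne'] at h
  linarith

theorem jlu (hI : StmINT) : StmJLU := by
  intro d s hs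
  obtain ⟨i1, i2, pA⟩ := hI d s (by omega)
  obtain ⟨j1, j2, pA'⟩ := hI d (s + 2) (by omega)
  have hexp : d - 1 - s = (d - 1 - (s + 2)) + 2 := by omega
  set F : ℝ → ℝ := fun z => z ^ (d - 1 - (s + 2)) * G d z ^ 2 with hF
  set E : ℝ → ℝ := fun z => z ^ (d - 1 - s) * G d z ^ 2 with hE
  have hEF : ∀ z, E z = z ^ 2 * F z := by
    intro z
    simp only [hE, hF, hexp, pow_add]
    ring
  have hF0 : ∀ z ∈ Ioi (0 : ℝ), 0 ≤ F z := by
    intro z hz
    have : (0 : ℝ) < z := hz
    simp only [hF]
    positivity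
  have hE0 : ∀ z ∈ Ioi (0 : ℝ), 0 ≤ E z := by
    intro z hz
    rw [hEF]
    exact mul_nonneg (sq_nonneg _) (hF0 z hz)
  have eA : AA d s = ∫ z in Ioi (0 : ℝ), E z := rfl
  have eA' : AA d (s + 2) = ∫ z in Ioi (0 : ℝ), F z := rfl
  have eB : BB d s = ∫ z in Ioi (0 : ℝ), E z * log z := rfl
  have eB' : BB d (s + 2) = ∫ z in Ioi (0 : ℝ), F z * log z := rfl
  set c : ℝ := AA d s / AA d (s + 2) with hc
  have hc0 : 0 < c := div_pos pA pA'
  have hci : 0 < c⁻¹ := inv_pos.2 hc0
  constructor
  · -- lower bound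
    have h1 : ∀ z ∈ Ioi (0 : ℝ), -2 * (E z * log z) ≤ c * F z + (-1 - log c) * E z := by
      intro z hz
      have hz0 : (0 : ℝ) < z := hz
      have h2 := ModJLU_tangent (x := (z ^ 2)⁻¹) (c := c⁻¹) (by positivity) hci
      rw [Real.log_inv, Real.log_inv, Real.log_pow] at h2
      have h3 := mul_le_mul_of_nonneg_left h2 (hE0 z hz)
      have h4 : E z * ((z ^ 2)⁻¹ / c⁻¹) = c * F z := by
        rw [hEF]
        field_simp
      push_cast at h3
      nlinarith [h3, h4]
    have h5 := setIntegral_mono_on (i2.const_mul (-2)) ((j1.const_mul c).add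
      (i1.const_mul (-1 - log c))) measurableSet_Ioi h1
    have h6 : ∫ z in Ioi (0 : ℝ), -2 * (E z * log z) = -2 * BB d s := by
      rw [eB]
      exact integral_const_mul _ _
    have h7 : ∫ z in Ioi (0 : ℝ), (c * F z + (-1 - log c) * E z) =
        c * AA d (s + 2) + (-1 - log c) * AA d s := by
      rw [integral_add (j1.const_mul c) (i1.const_mul (-1 - log c)), integral_const_mul,
        integral_const_mul, eA, eA']
    have h8 : -2 * BB d s ≤ c * AA d (s + 2) + (-1 - log c) * AA d s := by
      rw [← h6, ← h7]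
      exact h5
    have h9 : c * AA d (s + 2) = AA d s := by
      rw [hc]
      field_simp
    rw [le_div_iff₀ pA]
    linarith
  · -- upper bound
    have h1 : ∀ z ∈ Ioi (0 : ℝ), 2 * (F z * log z) ≤ c⁻¹ * E z + (-1 + log c) * F z := by
      intro z hz
      have hz0 : (0 : ℝ) < z := hz
      have h2 := ModJLU_tangent (x := z ^ 2) (c := c) (by positivity) hc0
      rw [Real.log_pow] at h2
      have h3 := mul_le_mul_of_nonneg_left h2 (hF0 z hz)
      have h4 : F z * (z ^ 2 / c) = c⁻¹ * E z := by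
        rw [hEF]
        field_simp
      push_cast at h3
      nlinarith [h3, h4]
    have h5 := setIntegral_mono_on (j2.const_mul 2) ((i1.const_mul c⁻¹).add
      (j1.const_mul (-1 + log c))) measurableSet_Ioi h1
    have h6 : ∫ z in Ioi (0 : ℝ), 2 * (F z * log z) = 2 * BB d (s + 2) := by
      rw [eB']
      exact integral_const_mul _ _
    have h7 : ∫ z in Ioi (0 : ℝ), (c⁻¹ * E z + (-1 + log c) * F z) =
        c⁻¹ * AA d s + (-1 + log c) * AA d (s + 2) := by
      rw [integral_add (i1.const_mul c⁻¹) (j1.const_mul (-1 + log c)), integral_const_mul,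
        integral_const_mul, eA, eA']
    have h8 : 2 * BB d (s + 2) ≤ c⁻¹ * AA d s + (-1 + log c) * AA d (s + 2) := by
      rw [← h6, ← h7]
      exact h5
    have h9 : c⁻¹ * AA d s = AA d (s + 2) := by
      rw [hc]
      field_simp
    rw [div_le_iff₀ pA']
    linarith

end H50.QN
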