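import Mathlib
import Pool.Agent.T6.H50.QN.Defs2

/-! Project QN, second wave, module LA2: sharper bound for `L_1 / N_1`. -/

set_option autoImplicit false

open MeasureTheory Real Filter Topology Set

namespace H50.QN

namespace ModLA2

/-- the recursion `n` times -/
theorem rec_n (hR : StmREC) (n : ℕ) :
    LL (2 * n + 1) / NN (2 * n + 1) = LL 1 / NN 1
      + ∑ j ∈ Finset.range n, (1 / (2 * (j : ℝ) + 1) + 1 / (2 * (j : ℝ) + 3)) := by
  induction n with
  | zero => simp
  | succ n ih =>
    have h := hR (2 * n + 1) (by omega)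
    rw [Finset.sum_range_succ, ← add_assoc, ← ih,
      show 2 * (n + 1) + 1 = 2 * n + 1 + 2 by ring, h]
    push_cast
    ring

/-- the sum of the `100` terms -/
theorem sum_100 : (5.57365 : ℝ) ≤
    ∑ j ∈ Finset.range 100, (1 / (2 * (j : ℝ) + 1) + 1 / (2 * (j : ℝ) + 3)) := by
  norm_num [Finset.sum_range_succ]

/-- the logarithm -/
theorem log_bd : log (24219 / 2) ≤ 9.40194 := by
  have h1 : (39 : ℝ) * log (24219 / 16384) ≤ 22 * log 2 := by
    have h2 : log ((24219 / 16384 : ℝ) ^ 39) ≤ log ((2 : ℝ) ^ 22) :=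
      log_le_log (by norm_num) (by norm_num)
    rw [log_pow, log_pow] at h2
    exact_mod_cast h2
  have h3 := Real.log_two_lt_d9
  have h4 : log (24219 / 2 : ℝ) = 13 * log 2 + log (24219 / 16384) := by
    have h5 : log ((2 : ℝ) ^ 13) = 13 * log 2 := by
      rw [log_pow]
      norm_num
    rw [← h5, ← log_mul (by norm_num) (by norm_num)]
    norm_num
  rw [h4]
  linarith

end ModLA2

/-- LA2 -/
theorem la2 (hR : StmREC) (hE : StmEBD) : StmLA2 := by
  have h1 := ModLA2.rec_n hR 100
  have h2 := (hE 201 (by norm_num)).2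
  have h3 := ModLA2.sum_100
  have h4 := ModLA2.log_bd
  norm_num only at h1
  unfold StmLA2
  have e : (3 * (((201 : ℕ) : ℝ) ^ 2 - 36) / 10) = 24219 / 2 := by norm_num
  rw [e, h1] at h2
  norm_num at h2
  linarith

end H50.QN
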