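import Pool.Agent.T6.H50.QN.Defs

/-! Project QN: module LAM. -/

open MeasureTheory Real Filter Topology Set

set_option autoImplicit false

namespace H50.QN.LAMM

/-- the integrand -/
noncomputable def f (z : ℝ) : ℝ := (sin z / z) ^ 2 * log z

theorem f_meas : Measurable f := by
  unfold f
  fun_prop

theorem sq_le (z : ℝ) : (sin z / z) ^ 2 ≤ 1 := by
  rw [sq_le_one_iff_abs_le_one, abs_div]
  rcases eq_or_ne z 0 with rfl | hz
  · simp
  · rw [div_le_one (abs_pos.mpr hz)]
    exact abs_sin_le_abs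

theorem int01 : IntegrableOn f (Ioc 0 1) := by
  have h : IntegrableOn (fun z : ℝ => ‖log z‖) (Ioc 0 1) := by
    have := (intervalIntegral.intervalIntegrable_log' (a := 0) (b := 1))
    rw [intervalIntegrable_iff_integrableOn_Ioc_of_le zero_le_one] at this
    exact this.norm
  refine Integrable.mono' h f_meas.aestronglyMeasurable ?_
  filter_upwards with z
  unfold f
  rw [norm_mul]
  have h1 : ‖(sin z / z) ^ 2‖ ≤ 1 := by
    rw [Real.norm_of_nonneg (sq_nonneg _)]
    exact sq_le z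
  exact mul_le_of_le_one_left (norm_nonneg _) h1

theorem hderA (z : ℝ) (hz : 0 < z) :
    HasDerivAt (fun z : ℝ => -((log z + 1) / z)) (log z / z ^ 2) z := by
  have h1 : HasDerivAt (fun z : ℝ => (log z + 1) / z)
      ((z⁻¹ * z - (log z + 1) * 1) / z ^ 2) z :=
    ((Real.hasDerivAt_log hz.ne').add_const 1).div (hasDerivAt_id z) hz.ne'
  refine h1.neg.congr_deriv ?_
  field_simp
  ring

theorem hderH (z : ℝ) (hz : 0 < z) :
    HasDerivAt (fun z : ℝ => log z / z ^ 2) ((1 - 2 * log z) / z ^ 3) z := by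
  have h1 : HasDerivAt (fun z : ℝ => log z / z ^ 2)
      ((z⁻¹ * z ^ 2 - log z * ((2 : ℕ) * z ^ (2 - 1) * 1)) / (z ^ 2) ^ 2) z :=
    (Real.hasDerivAt_log hz.ne').div ((hasDerivAt_id z).pow 2) (by positivity)
  refine h1.congr_deriv ?_
  field_simp
  push_cast
  ring

theorem hderS (z : ℝ) (hz : 0 < z) :
    HasDerivAt (fun z : ℝ => sin (2 * z) * (log z / z ^ 2))
      (2 * cos (2 * z) * (log z / z ^ 2) + sin (2 * z) * ((1 - 2 * log z) / z ^ 3)) z := by
  have h0 : HasDerivAt (fun z : ℝ => 2 * z) 2 z := by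
    simpa using (hasDerivAt_id z).const_mul (2 : ℝ)
  have h1 : HasDerivAt (fun z : ℝ => sin (2 * z)) (cos (2 * z) * 2) z := h0.sin
  have h2 := h1.mul (hderH z hz)
  refine h2.congr_deriv ?_
  ring

theorem tend0 : Tendsto (fun z : ℝ => -((log z + 1) / z)) atTop (𝓝 0) := by
  have h1 : Tendsto (fun z : ℝ => log z / z) atTop (𝓝 0) := by
    have := Real.isLittleO_log_id_atTop.tendsto_div_nhds_zero
    simpa using this
  have h2 : Tendsto (fun z : ℝ => 1 / z) atTop (𝓝 0) := by
    simpa using tendsto_inv_atTop_zero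
  have h3 := (h1.add h2).neg
  simp only [add_zero, neg_zero] at h3
  refine h3.congr fun z => ?_
  rw [add_div]

theorem intH : IntegrableOn (fun z : ℝ => log z / z ^ 2) (Ioi 1) :=
  integrableOn_Ioi_deriv_of_nonneg' (fun x hx => hderA x (lt_of_lt_of_le one_pos hx))
    (fun _ hx => div_nonneg (log_nonneg (le_of_lt hx)) (sq_nonneg _)) tend0

theorem int1 : IntegrableOn f (Ioi 1) := by
  refine Integrable.mono' intH f_meas.aestronglyMeasurable ?_
  filter_upwards [ae_restrict_mem measurableSet_Ioi] with z hz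
  have hz1 : (1 : ℝ) < z := hz
  have hl : 0 ≤ log z := log_nonneg hz1.le
  unfold f
  rw [Real.norm_of_nonneg (mul_nonneg (sq_nonneg _) hl), div_pow, div_mul_eq_mul_div]
  apply div_le_div_of_nonneg_right _ (sq_nonneg _)
  exact mul_le_of_le_one_left hl (sin_sq_le_one z)

/-- first part -/
theorem part1 : ∫ z in Ioc (0 : ℝ) 1, f z ≤ -1 + 1 / 27 := by
  rw [← intervalIntegral.integral_of_le zero_le_one]
  have hint : IntegrableOn f (Icc 0 1) := by
    rw [integrableOn_Icc_iff_integrableOn_Ioc]; exact int01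
  have hc : Continuous fun z : ℝ => z * log z := Real.continuous_mul_log
  have hcont : Continuous fun z : ℝ => z * log z - z - (z ^ 2 * (z * log z) / 9) + z ^ 3 / 27 := by
    fun_prop
  have hd : ∀ x ∈ Ioo (0 : ℝ) 1, HasDerivWithinAt
      (fun z : ℝ => z * log z - z - (z ^ 2 * (z * log z) / 9) + z ^ 3 / 27)
      ((1 - x ^ 2 / 3) * log x) (Ioi x) x := by
    intro x hx
    have hx0 : x ≠ 0 := hx.1.ne'
    have h1 : HasDerivAt (fun z : ℝ => z * log z) (log x + 1) x := Real.hasDerivAt_mul_log hx0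
    have h2 : HasDerivAt (fun z : ℝ => z ^ 2) (2 * x) x := by simpa using hasDerivAt_pow 2 x
    have h3 : HasDerivAt (fun z : ℝ => z ^ 3) (3 * x ^ 2) x := by simpa using hasDerivAt_pow 3 x
    have h4 := ((h1.sub (hasDerivAt_id x)).sub ((h2.mul h1).div_const 9)).add (h3.div_const 27)
    refine (h4.congr_deriv ?_).hasDerivWithinAt
    ring
  have hle : ∀ x ∈ Ioo (0 : ℝ) 1, f x ≤ (1 - x ^ 2 / 3) * log x := by
    intro x hx
    unfold f
    have hl : log x ≤ 0 := log_nonpos hx.1.le hx.2.le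
    have h1 : 1 - x ^ 2 / 6 ≤ sin x / x := by
      rw [le_div_iff₀ hx.1]
      have := sin_ge_sub_cube hx.1.le
      nlinarith
    have h2 : 1 - x ^ 2 / 3 ≤ (sin x / x) ^ 2 := by
      have h3 : 0 ≤ 1 - x ^ 2 / 6 := by nlinarith [hx.1, hx.2]
      have h4 : (1 - x ^ 2 / 6) ^ 2 ≤ (sin x / x) ^ 2 := pow_le_pow_left₀ h3 h1 2
      nlinarith [sq_nonneg (x ^ 2)]
    exact mul_le_mul_of_nonpos_right h2 hl
  have h := intervalIntegral.integral_le_sub_of_hasDeriv_right_of_le zero_le_one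
    hcont.continuousOn hd hint hle
  refine h.trans (le_of_eq ?_)
  norm_num

theorem f_eq (z : ℝ) :
    f z = 1 / 2 * (log z / z ^ 2) - 1 / 2 * cos (2 * z) * (log z / z ^ 2) := by
  unfold f
  rw [div_pow, Real.sin_sq, Real.cos_sq]
  ring

/-- second part, over finite intervals -/
theorem part2 (T : ℝ) (hT : exp (1 / 2) ≤ T) :
    ∫ z in (1 : ℝ)..T, f z ≤ 1 / 2 + 1 / (4 * exp 1) := by
  have h1e : (1 : ℝ) ≤ exp (1 / 2) := one_le_exp (by norm_num)
  have he0 : 0 < exp (1 / 2 : ℝ) := exp_pos _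
  have hIcc : ∀ a b : ℝ, 1 ≤ a → IntegrableOn f (Icc a b) := by
    intro a b ha
    rw [integrableOn_Icc_iff_integrableOn_Ioc]
    exact int1.mono_set fun x hx => lt_of_le_of_lt ha hx.1
  have hII : ∀ a b : ℝ, 1 ≤ a → a ≤ b → IntervalIntegrable f volume a b := by
    intro a b ha hab
    rw [intervalIntegrable_iff_integrableOn_Ioc_of_le hab]
    exact int1.mono_set fun x hx => lt_of_le_of_lt ha hx.1
  have hsplit := intervalIntegral.integral_add_adjacent_intervals
    (hII 1 (exp (1 / 2)) le_rfl h1e) (hII (exp (1 / 2)) T h1e hT)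
  -- the comparison function with a sign `c`
  have key : ∀ (c a b : ℝ), 1 ≤ a → a ≤ b →
      (∀ x ∈ Ioo a b, sin (2 * x) * ((1 - 2 * log x) / x ^ 3) ≤ c * ((1 - 2 * log x) / x ^ 3)) →
      ∫ z in a..b, f z ≤
        (1 / 2 * -((log b + 1) / b) - 1 / 4 * (sin (2 * b) * (log b / b ^ 2)) +
          c / 4 * (log b / b ^ 2)) -
        (1 / 2 * -((log a + 1) / a) - 1 / 4 * (sin (2 * a) * (log a / a ^ 2)) +
          c / 4 * (log a / a ^ 2)) := by
    intro c a b ha hab hc
    have hder : ∀ x : ℝ, 0 < x → HasDerivAt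
        (fun z : ℝ => 1 / 2 * -((log z + 1) / z) - 1 / 4 * (sin (2 * z) * (log z / z ^ 2)) +
          c / 4 * (log z / z ^ 2))
        (1 / 2 * (log x / x ^ 2) - 1 / 4 * (2 * cos (2 * x) * (log x / x ^ 2) +
          sin (2 * x) * ((1 - 2 * log x) / x ^ 3)) + c / 4 * ((1 - 2 * log x) / x ^ 3)) x :=
      fun x hx => (((hderA x hx).const_mul _).sub ((hderS x hx).const_mul _)).add
        ((hderH x hx).const_mul _)
    refine intervalIntegral.integral_le_sub_of_hasDeriv_right_of_le hab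
      (g := fun z : ℝ => 1 / 2 * -((log z + 1) / z) - 1 / 4 * (sin (2 * z) * (log z / z ^ 2)) +
          c / 4 * (log z / z ^ 2))
      (fun x hx => (hder x (by linarith [hx.1])).continuousAt.continuousWithinAt)
      (fun x hx => (hder x (by linarith [hx.1])).hasDerivWithinAt) (hIcc a b ha) ?_
    intro x hx
    rw [f_eq]
    have := hc x hx
    linarith
  have hA := key 1 1 (exp (1 / 2)) le_rfl h1e (by
    intro x hx
    have hx0 : 0 < x := by linarith [hx.1]
    have hl : log x ≤ 1 / 2 := by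
      rw [← log_exp (1 / 2)]
      exact log_le_log hx0 hx.2.le
    have : 0 ≤ (1 - 2 * log x) / x ^ 3 := div_nonneg (by linarith) (by positivity)
    exact mul_le_mul_of_nonneg_right (sin_le_one _) this)
  have hB := key (-1) (exp (1 / 2)) T h1e hT (by
    intro x hx
    have hx0 : 0 < x := by linarith [hx.1]
    have hl : 1 / 2 ≤ log x := by
      rw [← log_exp (1 / 2)]
      exact log_le_log he0 hx.1.le
    have : (1 - 2 * log x) / x ^ 3 ≤ 0 := div_nonpos_of_nonpos_of_nonneg (by linarith) (by positivity)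
    exact mul_le_mul_of_nonpos_right (neg_one_le_sin _) this)
  have hT0 : 0 < T := by linarith
  have hlT : 0 ≤ log T := log_nonneg (by linarith)
  have h3 : 0 ≤ (log T + 1) / T := by positivity
  have h4 : 0 ≤ (sin (2 * T) + 1) * (log T / T ^ 2) :=
    mul_nonneg (by linarith [neg_one_le_sin (2 * T)]) (by positivity)
  have h5 : log (exp (1 / 2 : ℝ)) / exp (1 / 2 : ℝ) ^ 2 = 1 / (2 * exp 1) := by
    rw [log_exp, ← exp_nat_mul]
    norm_num
    ring
  have h6 : 1 / (4 * exp 1) = 1 / (2 * exp 1) / 2 := by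
    field_simp
    norm_num
  rw [log_one] at hA
  rw [← hsplit, h6, ← h5]
  linarith

theorem part3 : ∫ z in Ioi (1 : ℝ), f z ≤ 1 / 2 + 1 / (4 * exp 1) := by
  refine le_of_tendsto (intervalIntegral_tendsto_integral_Ioi 1 int1 tendsto_id) ?_
  filter_upwards [eventually_ge_atTop (exp (1 / 2))] with T hT
  exact part2 T hT

end H50.QN.LAMM

namespace H50.QN

open LAMM in
theorem lam : StmLAM := by
  have hU : Ioi (0 : ℝ) = Ioc 0 1 ∪ Ioi 1 := (Ioc_union_Ioi_eq_Ioi zero_le_one).symm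
  have hint : IntegrableOn f (Ioi 0) := by
    rw [hU]; exact int01.union int1
  refine ⟨hint, ?_⟩
  have hsum : ∫ z in Ioi (0 : ℝ), f z = (∫ z in Ioc (0 : ℝ) 1, f z) + ∫ z in Ioi (1 : ℝ), f z := by
    rw [hU]
    exact setIntegral_union (Ioc_disjoint_Ioi le_rfl) measurableSet_Ioi int01 int1
  have h1 := part1
  have h2 := part3
  have he : 1 / (4 * exp 1) ≤ 92 / 1000 := by
    rw [div_le_div_iff₀ (by positivity) (by norm_num)]
    have := exp_one_gt_d9
    linarith
  have hI : ∫ z in Ioi (0 : ℝ), f z ≤ -(37 / 100) := by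
    rw [hsum]
    linarith
  have hpi := pi_lt_d2
  have hpi0 := pi_pos
  show 2 / π * (∫ z in Ioi (0 : ℝ), f z) ≤ -(23 / 100)
  rw [div_mul_eq_mul_div, div_le_iff₀ hpi0]
  nlinarith

end H50.QN
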