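import Pool.Agent.T6.H50.QN.Defs

/-! Project QN, module LIM: first order behaviour of `∫ w g^p` as `p → 0+`. -/

open MeasureTheory Real Filter Topology Set

namespace H50.QN

/-- `(1 - exp (-(p x))) / p → x` as `p → 0+` -/
lemma lim_quot (x : ℝ) :
    Tendsto (fun p : ℝ => (1 - exp (-(p * x))) / p) (𝓝[>] 0) (𝓝 x) := by
  have h1 : HasDerivAt (fun p : ℝ => -exp (-(p * x))) x 0 := by
    have h2 : HasDerivAt (fun p : ℝ => -(p * x)) (-(1 * x)) 0 :=
      ((hasDerivAt_id (0 : ℝ)).mul_const x).neg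
    have h3 := h2.exp.neg
    simp only [zero_mul, neg_zero, exp_zero, one_mul, neg_neg] at h3
    exact h3
  have h4 := h1.tendsto_slope_zero_right
  refine h4.congr (fun p => ?_)
  simp only [zero_add, zero_mul, neg_zero, exp_zero, smul_eq_mul]
  rw [div_eq_inv_mul]
  ring

lemma lim_quot_nonneg {x p : ℝ} (hx : 0 ≤ x) (hp : 0 < p) : 0 ≤ (1 - exp (-(p * x))) / p := by
  apply div_nonneg _ hp.le
  have : exp (-(p * x)) ≤ 1 := by
    rw [exp_le_one_iff]
    have := mul_nonneg hp.le hx
    linarith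
  linarith

lemma lim_quot_le {x p : ℝ} (hp : 0 < p) : (1 - exp (-(p * x))) / p ≤ x := by
  rw [div_le_iff₀ hp]
  have := add_one_le_exp (-(p * x))
  nlinarith

theorem lim : StmLIM := by
  intro w g l hwm hgm hlm hw hg hg1 hgl hwi hw1 hwl h hh
  have hmm : Measurable (fun z => max (l z) 0) := hlm.max measurable_const
  have hm0 : ∀ z, 0 ≤ max (l z) 0 := fun z => le_max_right _ _
  have hwmI : IntegrableOn (fun z => w z * max (l z) 0) (Ioi 0) := by
    refine Integrable.mono' hwl.norm (hwm.mul hmm).aestronglyMeasurable ?_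
    refine (ae_restrict_mem measurableSet_Ioi).mono (fun z _ => ?_)
    simp only [Real.norm_eq_abs, abs_mul]
    refine mul_le_mul_of_nonneg_left ?_ (abs_nonneg _)
    rw [abs_of_nonneg (hm0 z)]
    exact max_le (le_abs_self _) (abs_nonneg _)
  have hmono : ∫ z in Ioi (0 : ℝ), w z * l z ≤ ∫ z in Ioi (0 : ℝ), w z * max (l z) 0 :=
    setIntegral_mono_on hwl hwmI measurableSet_Ioi
      (fun z hz => mul_le_mul_of_nonneg_left (le_max_left _ _) (hw z hz))
  have hlim : Tendsto (fun p : ℝ => ∫ z in Ioi (0 : ℝ),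
      w z * ((1 - exp (-(p * max (l z) 0))) / p)) (𝓝[>] 0)
      (𝓝 (∫ z in Ioi (0 : ℝ), w z * max (l z) 0)) := by
    refine tendsto_integral_filter_of_dominated_convergence
      (fun z => w z * max (l z) 0) ?_ ?_ hwmI ?_
    · refine Eventually.of_forall (fun p => ?_)
      exact (hwm.mul ((measurable_const.sub
        ((measurable_const.mul hmm).neg.exp)).div_const p)).aestronglyMeasurable
    · refine (self_mem_nhdsWithin : Ioi (0 : ℝ) ∈ 𝓝[>] (0 : ℝ)) |> (fun H => ?_)
      filter_upwards [H] with p hp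
      refine (ae_restrict_mem measurableSet_Ioi).mono (fun z hz => ?_)
      rw [Real.norm_eq_abs, abs_of_nonneg (mul_nonneg (hw z hz) (lim_quot_nonneg (hm0 z) hp))]
      exact mul_le_mul_of_nonneg_left (lim_quot_le hp) (hw z hz)
    · refine Eventually.of_forall (fun z => ?_)
      exact (lim_quot (max (l z) 0)).const_mul (w z)
  have hev : ∀ᶠ p in 𝓝[>] (0 : ℝ), h < ∫ z in Ioi (0 : ℝ),
      w z * ((1 - exp (-(p * max (l z) 0))) / p) :=
    hlim.eventually (lt_mem_nhds (lt_of_lt_of_le hh hmono))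
  obtain ⟨δ, hδ, hsub⟩ := (mem_nhdsGT_iff_exists_Ioo_subset).1 hev
  refine ⟨δ, hδ, fun p hp hpδ => ?_⟩
  have hmain : h < ∫ z in Ioi (0 : ℝ), w z * ((1 - exp (-(p * max (l z) 0))) / p) :=
    hsub ⟨hp, hpδ⟩
  have hgp1 : ∀ z, 0 < z → g z ^ p ≤ 1 := fun z hz => rpow_le_one (hg z hz) (hg1 z hz) hp.le
  have hgp : ∀ z, 0 < z → g z ^ p ≤ exp (-(p * max (l z) 0)) := by
    intro z hz
    have h1 : g z ≤ exp (-max (l z) 0) := by
      rcases le_total (l z) 0 with hl | hl
      · rw [max_eq_right hl]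
        simpa using hg1 z hz
      · rw [max_eq_left hl]
        exact hgl z hz
    calc g z ^ p ≤ (exp (-max (l z) 0)) ^ p := rpow_le_rpow (hg z hz) h1 hp.le
      _ = exp (-(p * max (l z) 0)) := by
        rw [← exp_mul]
        congr 1
        ring
  have hI1 : IntegrableOn (fun z => w z * g z ^ p) (Ioi 0) := by
    refine Integrable.mono' hwi (hwm.mul (hgm.pow_const p)).aestronglyMeasurable ?_
    refine (ae_restrict_mem measurableSet_Ioi).mono (fun z hz => ?_)
    rw [Real.norm_eq_abs, abs_of_nonneg (mul_nonneg (hw z hz) (rpow_nonneg (hg z hz) p))]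
    exact mul_le_of_le_one_right (hw z hz) (hgp1 z hz)
  have hI2 : IntegrableOn (fun z => w z * ((1 - exp (-(p * max (l z) 0))) / p)) (Ioi 0) := by
    refine Integrable.mono' hwmI (hwm.mul ((measurable_const.sub
        ((measurable_const.mul hmm).neg.exp)).div_const p)).aestronglyMeasurable ?_
    refine (ae_restrict_mem measurableSet_Ioi).mono (fun z hz => ?_)
    rw [Real.norm_eq_abs, abs_of_nonneg (mul_nonneg (hw z hz) (lim_quot_nonneg (hm0 z) hp))]
    exact mul_le_mul_of_nonneg_left (lim_quot_le hp) (hw z hz)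
  refine ⟨hI1, ?_⟩
  have hstep : ∫ z in Ioi (0 : ℝ), w z * g z ^ p ≤
      ∫ z in Ioi (0 : ℝ), (w z - p * (w z * ((1 - exp (-(p * max (l z) 0))) / p))) := by
    refine setIntegral_mono_on hI1 (hwi.sub (hI2.const_mul p)) measurableSet_Ioi
      (fun z hz => ?_)
    have h1 : w z - p * (w z * ((1 - exp (-(p * max (l z) 0))) / p))
        = w z * exp (-(p * max (l z) 0)) := by
      field_simp
      ring
    rw [h1]
    exact mul_le_mul_of_nonneg_left (hgp z hz) (hw z hz)
  have hsplit : ∫ z in Ioi (0 : ℝ), (w z - p * (w z * ((1 - exp (-(p * max (l z) 0))) / p)))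
      = 1 - p * ∫ z in Ioi (0 : ℝ), w z * ((1 - exp (-(p * max (l z) 0))) / p) := by
    rw [integral_sub hwi (hI2.const_mul p), integral_const_mul, hw1]
  rw [hsplit] at hstep
  have := mul_lt_mul_of_pos_left hmain hp
  linarith

end H50.QN
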