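import Pool.Agent.T6.H50.QN.Defs2

/-! Project QN (helper50), second wave, module MOM (helper12): the moment identities. -/

set_option autoImplicit false

open MeasureTheory Real Filter Topology Set

namespace H50.QN

namespace ModMOM

theorem core (k : ℕ) (D σ : ℝ) (hD : D = k + σ + 1) (g H : ℝ → ℝ)
    (hg : ∀ z, HasDerivAt g (H z) z)
    (hH : ∀ z, 0 < z → HasDerivAt H (-g z - (D + 1) / z * H z) z)
    (cg : Continuous g) (cH : Continuous H) (C : ℝ)
    (hC : ∀ z : ℝ, 1 ≤ z → z ^ (k + 4) * (g z ^ 2 + H z ^ 2) ≤ C)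
    (iA : IntegrableOn (fun z : ℝ => z ^ k * g z ^ 2) (Ioi 0))
    (iB : IntegrableOn (fun z : ℝ => z ^ (k + 2) * g z ^ 2) (Ioi 0))
    (lA : IntegrableOn (fun z : ℝ => z ^ k * g z ^ 2 * log z) (Ioi 0))
    (lB : IntegrableOn (fun z : ℝ => z ^ (k + 2) * g z ^ 2 * log z) (Ioi 0)) :
    σ * (D ^ 2 - σ ^ 2) * (∫ z in Ioi (0 : ℝ), z ^ k * g z ^ 2) =
      4 * (σ - 1) * (∫ z in Ioi (0 : ℝ), z ^ (k + 2) * g z ^ 2) ∧
    (D ^ 2 - 3 * σ ^ 2) * (∫ z in Ioi (0 : ℝ), z ^ k * g z ^ 2) -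
      σ * (D ^ 2 - σ ^ 2) * (∫ z in Ioi (0 : ℝ), z ^ k * g z ^ 2 * log z) =
      4 * (∫ z in Ioi (0 : ℝ), z ^ (k + 2) * g z ^ 2) -
        4 * (σ - 1) * (∫ z in Ioi (0 : ℝ), z ^ (k + 2) * g z ^ 2 * log z) := by
  have hC0 : 0 ≤ C := le_trans (by positivity) (hC 1 le_rfl)
  -- the quotient `Th / z`
  set Q : ℝ → ℝ := fun z => z ^ (k + 2) * (H z ^ 2 + g z ^ 2) +
    (D + σ) * (z ^ (k + 1) * (g z * H z)) + (σ * (D + σ) / 2) * (z ^ k * g z ^ 2) with hQ
  set F : ℝ → ℝ := fun z => z ^ (k + 3) * (H z ^ 2 + g z ^ 2) +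
    (D + σ) * (z ^ (k + 2) * (g z * H z)) + (σ * (D + σ) / 2) * (z ^ (k + 1) * g z ^ 2) with hF
  set F3 : ℝ → ℝ := fun z => z ^ (k + 2) * (g z * H z) +
    (D / 2 + σ) * (z ^ (k + 1) * g z ^ 2) with hF3
  have cQ : Continuous Q := by rw [hQ]; fun_prop
  have cF : Continuous F := by rw [hF]; fun_prop
  have cF3 : Continuous F3 := by rw [hF3]; fun_prop
  have hFQ : ∀ z, F z = z * Q z := by intro z; simp only [hF, hQ]; ring
  have hF0 : F 0 = 0 := by simp [hF]
  have hF30 : F3 0 = 0 := by simp [hF3]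
  have dp : ∀ (n : ℕ) (z : ℝ), HasDerivAt (fun z : ℝ => z ^ (n + 1)) ((n + 1 : ℝ) * z ^ n) z := by
    intro n z
    have h := hasDerivAt_pow (n + 1) z
    simpa using h
  have dgg : ∀ z : ℝ, HasDerivAt (fun z => g z ^ 2) (2 * g z * H z) z := by
    intro z
    refine ((hg z).pow 2).congr_deriv ?_
    push_cast; ring
  have dHH : ∀ z : ℝ, 0 < z → HasDerivAt (fun z => H z ^ 2)
      (2 * H z * (-g z - (D + 1) / z * H z)) z := by
    intro z hz
    refine ((hH z hz).pow 2).congr_deriv ?_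
    push_cast; ring
  have dgH : ∀ z : ℝ, 0 < z → HasDerivAt (fun z => g z * H z)
      (H z * H z + g z * (-g z - (D + 1) / z * H z)) z := fun z hz => (hg z).mul (hH z hz)
  -- derivative of `F`
  have hF' : ∀ z ∈ Ioi (0 : ℝ), HasDerivAt F
      ((σ * (D ^ 2 - σ ^ 2) / 2) * (z ^ k * g z ^ 2) -
        (2 * (σ - 1)) * (z ^ (k + 2) * g z ^ 2)) z := by
    intro z hz
    have hz0 : (0 : ℝ) < z := hz
    have e1 := (dp (k + 2) z).mul ((dHH z hz0).add (dgg z))
    have e2 := ((dp (k + 1) z).mul (dgH z hz0)).const_mul (D + σ)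
    have e3 := ((dp k z).mul (dgg z)).const_mul (σ * (D + σ) / 2)
    refine ((e1.add e2).add e3).congr_deriv ?_
    simp only [Pi.add_apply]
    push_cast
    have p1 : z ^ (k + 1) = z ^ k * z := pow_succ z k
    have p2 : z ^ (k + 2) = z ^ k * z ^ 2 := pow_add z k 2
    have p3 : z ^ (k + 2 + 1) = z ^ k * z ^ 3 := by ring
    have p4 : z ^ (k + 1 + 1) = z ^ k * z ^ 2 := by ring
    rw [p3, p4, p1, hD]
    field_simp
    ring
  have hF3' : ∀ z ∈ Ioi (0 : ℝ), HasDerivAt F3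
      (F z / z - 2 * (z ^ (k + 2) * g z ^ 2) + ((D ^ 2 - 3 * σ ^ 2) / 2) * (z ^ k * g z ^ 2)) z := by
    intro z hz
    have hz0 : (0 : ℝ) < z := hz
    have e2 := (dp (k + 1) z).mul (dgH z hz0)
    have e3 := ((dp k z).mul (dgg z)).const_mul (D / 2 + σ)
    refine (e2.add e3).congr_deriv ?_
    simp only [hF]
    push_cast
    have p1 : z ^ (k + 1) = z ^ k * z := pow_succ z k
    have p2 : z ^ (k + 2) = z ^ k * z ^ 2 := pow_add z k 2
    have p3 : z ^ (k + 3) = z ^ k * z ^ 3 := pow_add z k 3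
    have p4 : z ^ (k + 1 + 1) = z ^ k * z ^ 2 := by ring
    rw [p4, p3, p1, hD]
    field_simp
    ring
  -- at infinity
  set B : ℝ := (1 + |D + σ| + |σ * (D + σ) / 2| + (1 + |D / 2 + σ|)) * C with hB
  have hB0 : 0 ≤ B := by positivity
  have key : ∀ z : ℝ, 1 ≤ z → |F z| ≤ B / z ∧ |F3 z| ≤ B / z := by
    intro z hz
    have hz0 : 0 < z := by linarith
    have hC' := hC z hz
    set w : ℝ := g z ^ 2 + H z ^ 2 with hw
    have hw0 : 0 ≤ w := by positivity
    have q1 : g z ^ 2 ≤ w := by rw [hw]; linarith [sq_nonneg (H z)]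
    have q2 : |g z * H z| ≤ w := by
      rw [hw, abs_mul]
      have := sq_nonneg (|g z| - |H z|)
      have h1 := sq_abs (g z)
      have h2 := sq_abs (H z)
      nlinarith
    have hz2 : z ^ (k + 2) ≤ z ^ (k + 3) := pow_le_pow_right₀ hz (by omega)
    have hz1 : z ^ (k + 1) ≤ z ^ (k + 3) := pow_le_pow_right₀ hz (by omega)
    have hp3 : 0 ≤ z ^ (k + 3) := by positivity
    have hp2 : 0 ≤ z ^ (k + 2) := by positivity
    have hp1 : 0 ≤ z ^ (k + 1) := by positivity
    have hzw : z ^ (k + 3) * w ≤ C / z := by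
      rw [le_div_iff₀ hz0]
      calc z ^ (k + 3) * w * z = z ^ (k + 4) * w := by ring
        _ ≤ C := hC'
    have t2 : |z ^ (k + 2) * (g z * H z)| ≤ z ^ (k + 3) * w := by
      rw [abs_mul, abs_of_nonneg hp2]
      exact mul_le_mul hz2 q2 (abs_nonneg _) hp3
    have t1 : |z ^ (k + 1) * g z ^ 2| ≤ z ^ (k + 3) * w := by
      rw [abs_of_nonneg (by positivity)]
      exact mul_le_mul hz1 q1 (sq_nonneg _) hp3
    have t3 : |z ^ (k + 3) * (H z ^ 2 + g z ^ 2)| ≤ z ^ (k + 3) * w := by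
      rw [abs_of_nonneg (by positivity), hw, add_comm (H z ^ 2)]
    have hBz : ∀ c : ℝ, 0 ≤ c → c ≤ 1 + |D + σ| + |σ * (D + σ) / 2| + (1 + |D / 2 + σ|) →
        c * (z ^ (k + 3) * w) ≤ B / z := by
      intro c hc0 hc
      calc c * (z ^ (k + 3) * w) ≤ c * (C / z) := mul_le_mul_of_nonneg_left hzw hc0
        _ ≤ (1 + |D + σ| + |σ * (D + σ) / 2| + (1 + |D / 2 + σ|)) * (C / z) :=
          mul_le_mul_of_nonneg_right hc (by positivity)
        _ = B / z := by rw [hB]; ring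
    have a1 := abs_nonneg (D + σ)
    have a2 := abs_nonneg (σ * (D + σ) / 2)
    have a3 := abs_nonneg (D / 2 + σ)
    constructor
    · calc |F z| ≤ |z ^ (k + 3) * (H z ^ 2 + g z ^ 2)| + |(D + σ) * (z ^ (k + 2) * (g z * H z))| +
            |(σ * (D + σ) / 2) * (z ^ (k + 1) * g z ^ 2)| := by
              simp only [hF]
              exact (abs_add_le _ _).trans (add_le_add (abs_add_le _ _) le_rfl)
        _ ≤ z ^ (k + 3) * w + |D + σ| * (z ^ (k + 3) * w) +
            |σ * (D + σ) / 2| * (z ^ (k + 3) * w) := by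
              rw [abs_mul (D + σ), abs_mul (σ * (D + σ) / 2)]
              exact add_le_add (add_le_add t3 (mul_le_mul_of_nonneg_left t2 a1))
                (mul_le_mul_of_nonneg_left t1 a2)
        _ = (1 + |D + σ| + |σ * (D + σ) / 2|) * (z ^ (k + 3) * w) := by ring
        _ ≤ B / z := hBz _ (by positivity) (by linarith)
    · calc |F3 z| ≤ |z ^ (k + 2) * (g z * H z)| + |(D / 2 + σ) * (z ^ (k + 1) * g z ^ 2)| := by
              simp only [hF3]
              exact abs_add_le _ _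
        _ ≤ z ^ (k + 3) * w + |D / 2 + σ| * (z ^ (k + 3) * w) := by
              rw [abs_mul (D / 2 + σ)]
              exact add_le_add t2 (mul_le_mul_of_nonneg_left t1 a3)
        _ = (1 + |D / 2 + σ|) * (z ^ (k + 3) * w) := by ring
        _ ≤ B / z := hBz _ (by positivity) (by linarith)
  have tBz : Tendsto (fun z : ℝ => B / z) atTop (𝓝 0) :=
    tendsto_const_nhds.div_atTop tendsto_id
  have htF : Tendsto F atTop (𝓝 0) := by
    apply squeeze_zero_norm' (a := fun z => B / z) _ tBz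
    filter_upwards [eventually_ge_atTop (1 : ℝ)] with z hz
    rw [Real.norm_eq_abs]
    exact (key z hz).1
  have htF3 : Tendsto F3 atTop (𝓝 0) := by
    apply squeeze_zero_norm' (a := fun z => B / z) _ tBz
    filter_upwards [eventually_ge_atTop (1 : ℝ)] with z hz
    rw [Real.norm_eq_abs]
    exact (key z hz).2
  have htK : Tendsto (fun z => z * log z * Q z) atTop (𝓝 0) := by
    apply squeeze_zero_norm' (a := fun z => B * (log z / z))
    · filter_upwards [eventually_ge_atTop (1 : ℝ)] with z hz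
      have hz0 : 0 < z := by linarith
      have e : z * log z * Q z = F z * log z := by rw [hFQ]; ring
      rw [Real.norm_eq_abs, e, abs_mul, abs_of_nonneg (log_nonneg hz)]
      calc |F z| * log z ≤ B / z * log z :=
            mul_le_mul_of_nonneg_right (key z hz).1 (log_nonneg hz)
        _ = B * (log z / z) := by ring
    · have h1 : Tendsto (fun z : ℝ => log z / z) atTop (𝓝 0) :=
        Real.isLittleO_log_id_atTop.tendsto_div_nhds_zero
      have h2 := h1.const_mul B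
      rwa [mul_zero] at h2
  -- first identity
  have i1 : IntegrableOn (fun z : ℝ => (σ * (D ^ 2 - σ ^ 2) / 2) * (z ^ k * g z ^ 2) -
        (2 * (σ - 1)) * (z ^ (k + 2) * g z ^ 2)) (Ioi 0) := (iA.const_mul _).sub (iB.const_mul _)
  have e1 := integral_Ioi_of_hasDerivAt_of_tendsto cF.continuousWithinAt hF' i1 htF
  rw [hF0, sub_zero, integral_sub (iA.const_mul _) (iB.const_mul _), integral_const_mul,
    integral_const_mul] at e1
  refine ⟨by linarith, ?_⟩
  -- second identity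
  have hK' : ∀ z ∈ Ioi (0 : ℝ), HasDerivAt (fun z => z * log z * Q z - F3 z)
      (((σ * (D ^ 2 - σ ^ 2) / 2) * (z ^ k * g z ^ 2 * log z) -
        (2 * (σ - 1)) * (z ^ (k + 2) * g z ^ 2 * log z)) +
        (2 * (z ^ (k + 2) * g z ^ 2) - ((D ^ 2 - 3 * σ ^ 2) / 2) * (z ^ k * g z ^ 2))) z := by
    intro z hz
    have hz0 : (0 : ℝ) < z := hz
    have h1 := ((hF' z hz).mul (Real.hasDerivAt_log hz0.ne')).sub (hF3' z hz)
    have h2 : (fun z => z * log z * Q z - F3 z) = fun z => F z * log z - F3 z := by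
      funext z; rw [hFQ]; ring
    rw [h2]
    refine h1.congr_deriv ?_
    rw [div_eq_mul_inv (F z)]
    ring
  have cK : Continuous (fun z => z * log z * Q z - F3 z) :=
    (Real.continuous_mul_log.mul cQ).sub cF3
  have j1 : IntegrableOn (fun z : ℝ => (σ * (D ^ 2 - σ ^ 2) / 2) * (z ^ k * g z ^ 2 * log z) -
        (2 * (σ - 1)) * (z ^ (k + 2) * g z ^ 2 * log z)) (Ioi 0) :=
    (lA.const_mul _).sub (lB.const_mul _)
  have j2 : IntegrableOn (fun z : ℝ => 2 * (z ^ (k + 2) * g z ^ 2) -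
      ((D ^ 2 - 3 * σ ^ 2) / 2) * (z ^ k * g z ^ 2)) (Ioi 0) :=
    (iB.const_mul _).sub (iA.const_mul _)
  have e2 := integral_Ioi_of_hasDerivAt_of_tendsto cK.continuousWithinAt hK' (j1.add j2)
    (htK.sub htF3)
  simp only [hF30, log_zero, mul_zero, zero_mul, sub_zero] at e2
  rw [integral_add j1 j2, integral_sub (lA.const_mul _) (lB.const_mul _), integral_const_mul,
    integral_const_mul, integral_sub (iB.const_mul _) (iA.const_mul _), integral_const_mul,
    integral_const_mul] at e2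
  linarith

end ModMOM

theorem mom (hB : StmBES) (hD : StmDEC) (hI : StmINT) : StmMOM := by
  intro d s hs hsd
  obtain ⟨H, h1, h2, h3, h4, h5, -⟩ := hB d (by omega)
  obtain ⟨H2, g1, -⟩ := hB (d + 2) (by omega)
  obtain ⟨C, hC⟩ := hD d (by omega)
  have hder : ∀ z, deriv (G d) z = H z := fun z => (h1 z).deriv
  simp only [hder] at hC
  have cg : Continuous (G d) := continuous_iff_continuousAt.2 fun x => (h1 x).continuousAt
  have cg2 : Continuous (G (d + 2)) := continuous_iff_continuousAt.2 fun x => (g1 x).continuousAt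
  have cH : Continuous H := by
    have e : H = fun z => -(z / ((d : ℝ) + 1)) * G (d + 2) z := funext h2
    rw [e]
    fun_prop
  obtain ⟨k, hk⟩ : ∃ k, d = k + s + 1 := ⟨d - s - 1, by omega⟩
  obtain ⟨r, hr⟩ : ∃ r, s = r + 2 := ⟨s - 2, by omega⟩
  have k1 : d - 1 - s = k := by omega
  have k2 : d - 1 - (s - 2) = k + 2 := by omega
  obtain ⟨iA, lA, -⟩ := hI d s hsd
  obtain ⟨iB, lB, -⟩ := hI d (s - 2) (by omega)
  rw [k1] at iA lA
  rw [k2] at iB lB
  have hdR : (d : ℝ) = k + (s : ℝ) + 1 := by rw [hk]; push_cast; ring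
  have hC' : ∀ z : ℝ, 1 ≤ z → z ^ (k + 4) * (G d z ^ 2 + H z ^ 2) ≤ C := by
    intro z hz
    refine le_trans ?_ (hC z hz)
    apply mul_le_mul_of_nonneg_right _ (by positivity)
    exact pow_le_pow_right₀ hz (by omega)
  have main := ModMOM.core k d s hdR (G d) H h1 h3 cg cH C hC' iA iB lA lB
  unfold AA BB
  rw [k1, k2]
  exact main

end H50.QN
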