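import Pool.Agent.T6.H50.QN.POL

/-! Project QN, module NOR: the value of `N_d` and integrability. -/

open MeasureTheory Real Filter Topology Set
open scoped ENNReal RealInnerProductSpace

namespace H50.QN

theorem nor (h1 : StmPOL) (h2 : StmPLA) (h3 : StmOMR) : StmNOR := by
  intro n
  obtain ⟨-, -, -, hom⟩ := h3
  have ho := hom n
  have ho1 := hom (n + 1)
  have hpi : (0 : ℝ) < 2 * π := by positivity
  have hG : Continuous (G (n + 1)) := POL.continuous_G (n + 1) (by omega)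
  have e1 := h1 n 2 (by norm_num)
  rw [h2 n] at e1
  have hc : 0 < om n ^ (2 : ℝ) * (n + 1) * om (n + 1) / (2 * π) ^ (n + 1) := by positivity
  have e2 : ∀ z ∈ Ioi (0 : ℝ), ENNReal.ofReal (z ^ n * |G (n + 1) z| ^ (2 : ℝ))
      = ENNReal.ofReal (z ^ n * G (n + 1) z ^ 2) := by
    intro z _
    congr 2
    rw [Real.rpow_two, sq_abs]
  rw [setLIntegral_congr_fun measurableSet_Ioi e2] at e1
  set I := ∫⁻ z in Ioi (0 : ℝ), ENNReal.ofReal (z ^ n * G (n + 1) z ^ 2) with hI
  have e3 : I = ENNReal.ofReal ((2 * π) ^ (n + 1) / ((n + 1) * om n ^ 2)) := by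
    have h4 : ENNReal.ofReal (om (n + 1)) = ENNReal.ofReal (om n ^ (2 : ℝ) * (n + 1) * om (n + 1) / (2 * π) ^ (n + 1))
        * ENNReal.ofReal ((2 * π) ^ (n + 1) / ((n + 1) * om n ^ 2)) := by
      rw [← ENNReal.ofReal_mul hc.le]
      congr 1
      rw [Real.rpow_two]
      field_simp
    rw [h4] at e1
    have h5 : ENNReal.ofReal (om n ^ (2 : ℝ) * (n + 1) * om (n + 1) / (2 * π) ^ (n + 1)) ≠ 0 :=
      (ENNReal.ofReal_pos.mpr hc).ne'
    exact ((ENNReal.mul_right_inj h5 ENNReal.ofReal_ne_top).mp e1).symm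
  have hm : Measurable fun z : ℝ => z ^ n * G (n + 1) z ^ 2 :=
    (measurable_id.pow_const n).mul (hG.measurable.pow_const 2)
  have hnn : 0 ≤ᵐ[volume.restrict (Ioi (0 : ℝ))] fun z : ℝ => z ^ n * G (n + 1) z ^ 2 := by
    filter_upwards [ae_restrict_mem measurableSet_Ioi] with z hz
    have hz0 : (0 : ℝ) < z := hz
    positivity
  refine ⟨⟨hm.aestronglyMeasurable, ?_⟩, ?_⟩
  · rw [hasFiniteIntegral_iff_ofReal hnn]
    rw [← hI, e3]
    exact ENNReal.ofReal_lt_top
  · unfold NN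
    rw [Nat.add_sub_cancel, integral_eq_lintegral_of_nonneg_ae hnn hm.aestronglyMeasurable, ← hI, e3,
      ENNReal.toReal_ofReal (by positivity)]

end H50.QN
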