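import Pool.Agent.T6.H50.QN.Defs2

/-! Project QN, second wave, module NU2: the numerical inequality for all `d ≥ 70`. -/

set_option autoImplicit false

open MeasureTheory Real Filter Topology Set

namespace H50.QN

namespace ModNU2

/-- the difference -/
noncomputable def DD (d : ℕ) : ℝ :=
  d * (1 / 2 * log (3 * ((d : ℝ) ^ 2 - 36) / 10) + 7 / 12) - log 3 - d * log (2 * π) +
    2 * log (om d) - d * (2 * (log 2 + -(51 / 200)))

theorem om_even (h : StmOMR) (m : ℕ) : om (2 * m) = π ^ m / m.factorial := by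
  obtain ⟨h0, -, hr, -⟩ := h
  induction m with
  | zero => simp [h0]
  | succ m ih =>
    have e : 2 * (m + 1) = 2 * m + 2 := by ring
    rw [e, hr, ih, Nat.factorial_succ]
    have h1 : ((m : ℝ) + 1) ≠ 0 := by positivity
    have h2 : ((m.factorial : ℕ) : ℝ) ≠ 0 := by positivity
    push_cast
    rw [pow_succ]
    field_simp

theorem om_odd (h : StmOMR) (m : ℕ) :
    om (2 * m + 1) * (∏ j ∈ Finset.range m, (2 * (j : ℝ) + 3)) = 2 * (2 * π) ^ m := by
  obtain ⟨-, h1, hr, -⟩ := h
  induction m with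
  | zero => simp [h1]
  | succ m ih =>
    have e : 2 * (m + 1) + 1 = 2 * m + 1 + 2 := by ring
    rw [e, hr, Finset.prod_range_succ]
    have h2 : (2 * (m : ℝ) + 3) ≠ 0 := by positivity
    have h3 : (((2 * m + 1 : ℕ) : ℝ) + 2) = 2 * (m : ℝ) + 3 := by push_cast; ring
    rw [h3]
    calc om (2 * m + 1) * (2 * π / (2 * (m : ℝ) + 3)) *
          ((∏ j ∈ Finset.range m, (2 * (j : ℝ) + 3)) * (2 * (m : ℝ) + 3))
        = (om (2 * m + 1) * (∏ j ∈ Finset.range m, (2 * (j : ℝ) + 3))) * (2 * π) := by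
          field_simp
      _ = 2 * (2 * π) ^ (m + 1) := by rw [ih]; ring

theorem log_x (x : ℝ) (hx : 70 ≤ x) :
    -(11 / 6) * log 2 ≤ log (3 * (x ^ 2 - 36) / 10) - 2 * log (x + 2) := by
  have h1 : (0 : ℝ) < x ^ 2 - 36 := by nlinarith
  have h2 : (0 : ℝ) < x + 2 := by linarith
  have e : log (3 * (x ^ 2 - 36) / 10) - 2 * log (x + 2) =
      log (3 * (x ^ 2 - 36) / 10 / (x + 2) ^ 2) := by
    have e1 : (3 * (x ^ 2 - 36) / 10) ≠ 0 := by positivity
    have e2 : (x + 2) ^ 2 ≠ 0 := by positivity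
    rw [Real.log_div e1 e2, Real.log_pow]
    push_cast
    ring
  rw [e]
  have h3 : (0.2814 : ℝ) ≤ 3 * (x ^ 2 - 36) / 10 / (x + 2) ^ 2 := by
    rw [le_div_iff₀ (by positivity)]
    nlinarith
  have h4 : log (0.2814 : ℝ) ≤ log (3 * (x ^ 2 - 36) / 10 / (x + 2) ^ 2) :=
    Real.log_le_log (by norm_num) h3
  refine le_trans ?_ h4
  have h5 : log ((1 / 2 : ℝ) ^ 11) ≤ log ((0.2814 : ℝ) ^ 6) :=
    Real.log_le_log (by norm_num) (by norm_num)
  rw [Real.log_pow, Real.log_pow, one_div, Real.log_inv] at h5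
  push_cast at h5
  linarith

theorem step (h : StmOMR) (d : ℕ) (hd : 70 ≤ d) : DD d ≤ DD (d + 2) := by
  obtain ⟨-, -, hr, hp⟩ := h
  have hx : (70 : ℝ) ≤ (d : ℝ) := by exact_mod_cast hd
  unfold DD
  rw [hr]
  have h0 : (0 : ℝ) < (d : ℝ) + 2 := by linarith
  rw [Real.log_mul (hp d).ne' (by positivity), Real.log_div (by positivity) h0.ne']
  push_cast
  generalize (d : ℝ) = x at hx h0 ⊢
  have h1 : (0 : ℝ) < x ^ 2 - 36 := by nlinarith
  have h2 : (0 : ℝ) < (x + 2) ^ 2 - 36 := by nlinarith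
  have hB : (4 * x + 4) / ((x + 2) ^ 2 - 36) ≤
      log (3 * ((x + 2) ^ 2 - 36) / 10) - log (3 * (x ^ 2 - 36) / 10) := by
    rw [← Real.log_div (by positivity) (by positivity)]
    have h3 : (0 : ℝ) < 3 * ((x + 2) ^ 2 - 36) / 10 / (3 * (x ^ 2 - 36) / 10) := by positivity
    have h4 := Real.one_sub_inv_le_log_of_pos h3
    refine le_trans (le_of_eq ?_) h4
    field_simp
    ring
  have hC : 1.97 ≤ (x + 2) / 2 * ((4 * x + 4) / ((x + 2) ^ 2 - 36)) := by
    rw [mul_div_assoc', le_div_iff₀ h2]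
    nlinarith [sq_nonneg (x - 30)]
  have hD : (x + 2) / 2 * ((4 * x + 4) / ((x + 2) ^ 2 - 36)) ≤
      (x + 2) / 2 * (log (3 * ((x + 2) ^ 2 - 36) / 10) - log (3 * (x ^ 2 - 36) / 10)) :=
    mul_le_mul_of_nonneg_left hB (by positivity)
  have hE := log_x x hx
  have hl := Real.log_two_lt_d9
  nlinarith

theorem base70 (h : StmOMR) : 0 < DD 70 := by
  have h1 : om 70 = π ^ 35 / ((Nat.factorial 35 : ℕ) : ℝ) := om_even h 35
  have hF : (0 : ℝ) < ((Nat.factorial 35 : ℕ) : ℝ) := by positivity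
  have h2 : log (om 70) = 35 * log π - log ((Nat.factorial 35 : ℕ) : ℝ) := by
    rw [h1, Real.log_div (by positivity) hF.ne', Real.log_pow]
    push_cast
    ring
  have h3 : log (2 * π) = log 2 + log π := Real.log_mul (by norm_num) Real.pi_pos.ne'
  have key : (3 : ℝ) * 2 ^ 100 * ((Nat.factorial 35 : ℕ) : ℝ) ^ 2 ≤
      (3 * ((70 : ℝ) ^ 2 - 36) / 10) ^ 35 := by
    norm_num [Nat.factorial]
  have h4 := Real.log_le_log (by positivity) key
  rw [Real.log_mul (by positivity) (by positivity), Real.log_mul (by norm_num) (by positivity),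
    Real.log_pow, Real.log_pow, Real.log_pow] at h4
  push_cast at h4
  have hl := Real.log_two_lt_d9
  unfold DD
  rw [h2, h3]
  push_cast
  linarith

theorem base71 (h : StmOMR) : 0 < DD 71 := by
  have h1 : om 71 * (∏ j ∈ Finset.range 35, (2 * (j : ℝ) + 3)) = 2 * (2 * π) ^ 35 := om_odd h 35
  have hP : (∏ j ∈ Finset.range 35, (2 * (j : ℝ) + 3)) =
      2395415678676082004163677716234578672981800778515625 := by
    norm_num [Finset.prod_range_succ]
  rw [hP] at h1
  have h2 : log (om 71) = log 2 + 35 * (log 2 + log π) - log (2395415678676082004163677716234578672981800778515625 : ℝ) := by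
    have h5 := congrArg Real.log h1
    rw [Real.log_mul (h.2.2.2 71).ne' (by norm_num), Real.log_mul (by norm_num) (by positivity),
      Real.log_pow, Real.log_mul (by norm_num) Real.pi_pos.ne'] at h5
    push_cast at h5
    linarith
  have h3 : log (2 * π) = log 2 + log π := Real.log_mul (by norm_num) Real.pi_pos.ne'
  have key : (3 : ℝ) ^ 2 * 2 ^ 59 * 3.15 ^ 2 * (2395415678676082004163677716234578672981800778515625 : ℝ) ^ 4 ≤
      (3 * ((71 : ℝ) ^ 2 - 36) / 10) ^ 71 := by
    norm_num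
  have h4 := Real.log_le_log (by positivity) key
  rw [Real.log_mul (by positivity) (by positivity), Real.log_mul (by positivity) (by positivity),
    Real.log_mul (by positivity) (by positivity), Real.log_pow, Real.log_pow, Real.log_pow,
    Real.log_pow, Real.log_pow] at h4
  push_cast at h4
  have hl := Real.log_two_lt_d9
  have hpi : log π ≤ log 3.15 := Real.log_le_log Real.pi_pos Real.pi_lt_d2.le
  unfold DD
  rw [h2, h3]
  push_cast
  linarith

theorem pos (h : StmOMR) (n : ℕ) : 0 < DD (70 + n) := by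
  induction n using Nat.strong_induction_on with
  | _ n ih =>
    match n, ih with
    | 0, _ => exact base70 h
    | 1, _ => exact base71 h
    | n + 2, ih =>
      have h1 := ih n (by omega)
      have h2 := step h (70 + n) (by omega)
      have e : 70 + (n + 2) = 70 + n + 2 := by ring
      rw [e]
      linarith

end ModNU2

open ModNU2 in
theorem nu2 (h : StmOMR) : StmNU2 := by
  intro lam e d hd hlam he
  have h1 := pos h (d - 70)
  rw [show 70 + (d - 70) = d by omega] at h1
  unfold DD at h1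
  have hx : (0 : ℝ) ≤ (d : ℝ) := by positivity
  have h2 : (d : ℝ) * (2 * (log 2 + lam)) ≤ d * (2 * (log 2 + -(51 / 200))) :=
    mul_le_mul_of_nonneg_left (by linarith) hx
  have h3 : (d : ℝ) * (1 / 2 * log (3 * ((d : ℝ) ^ 2 - 36) / 10) + 7 / 12) ≤ d * e :=
    mul_le_mul_of_nonneg_left he hx
  linarith

end H50.QN
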