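import Pool.Agent.T6.H50.QN.Defs

/-! Module OMR of project QN: volumes of unit balls. -/

open MeasureTheory Real Filter Topology Set

namespace H50.QN

theorem om_succ (d : ℕ) : om (d + 1) = √π ^ (d + 1) / Gamma (((d : ℝ) + 1) / 2 + 1) := by
  have hG : 0 < Gamma (((d : ℝ) + 1) / 2 + 1) := Gamma_pos_of_pos (by positivity)
  rw [om, EuclideanSpace.volume_ball]
  simp only [ENNReal.ofReal_one, one_pow, one_mul, Fintype.card_fin]
  rw [ENNReal.toReal_ofReal]
  · push_cast; rfl
  · push_cast; positivity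

theorem om_zero : om 0 = 1 := by
  rw [om]
  have : Metric.ball (0 : E 0) 1 = Set.univ := by
    ext x
    have : x = 0 := Subsingleton.elim _ _
    simp [this]
  rw [this]
  have h := (PiLp.volume_preserving_toLp (Fin 0)).measure_preimage
    (s := (Set.univ : Set (EuclideanSpace ℝ (Fin 0)))) MeasurableSet.univ.nullMeasurableSet
  rw [← h, Set.preimage_univ, volume_pi, Measure.pi_empty_univ]
  simp

theorem om_formula (d : ℕ) : om d = √π ^ d / Gamma ((d : ℝ) / 2 + 1) := by
  cases d with
  | zero => simp [om_zero]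
  | succ d => rw [om_succ]; push_cast; rfl

theorem omr : StmOMR := by
  refine ⟨om_zero, ?_, ?_, ?_⟩
  · rw [om_formula]
    have h : Gamma ((1 : ℝ) / 2 + 1) = 1 / 2 * √π := by
      rw [Gamma_add_one (by norm_num), Gamma_one_half_eq]
    have hs : √π ≠ 0 := (Real.sqrt_pos.mpr Real.pi_pos).ne'
    push_cast
    rw [h]
    field_simp
  · intro d
    rw [om_formula, om_formula]
    have h : Gamma (((d : ℝ) + 2) / 2 + 1) = ((d : ℝ) / 2 + 1) * Gamma ((d : ℝ) / 2 + 1) := by
      rw [← Gamma_add_one (by positivity)]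
      congr 1
      ring
    have hG : Gamma ((d : ℝ) / 2 + 1) ≠ 0 := (Gamma_pos_of_pos (by positivity)).ne'
    have hs : √π ^ 2 = π := Real.sq_sqrt Real.pi_pos.le
    have hd : (d : ℝ) + 2 ≠ 0 := by positivity
    push_cast
    rw [h, pow_add, hs]
    field_simp
  · intro d
    rw [om_formula]
    have hG : 0 < Gamma ((d : ℝ) / 2 + 1) := Gamma_pos_of_pos (by positivity)
    have := Real.sqrt_pos.mpr Real.pi_pos
    positivity

end H50.QN
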