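import Pool.Agent.T6.H50.QN.Defs
import Pool.Agent.H153R4.Pl

/-! Module PLA of project QN (helper54): Plancherel for the ball. -/

open MeasureTheory Real Filter Topology Set
open scoped ENNReal RealInnerProductSpace FourierTransform

namespace H50.QN

namespace ModPLA

theorem ft_eq {d : ℕ} (A : Set (E d)) (hA : MeasurableSet A) (ξ : E d) :
    ft A ξ = 𝓕 (A.indicator (fun _ => (1 : ℂ))) ξ := by
  rw [Real.fourier_eq', ft, ← integral_indicator hA]
  refine integral_congr_ae (Eventually.of_forall fun x => ?_)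
  by_cases hx : x ∈ A
  · simp only [Set.indicator_of_mem hx, smul_eq_mul, mul_one]
  · simp only [Set.indicator_of_notMem hx, smul_zero]

theorem vol_ball (n : ℕ) :
    volume (Metric.closedBall (0 : E (n + 1)) 1) = ENNReal.ofReal (om (n + 1)) := by
  rw [om, ENNReal.ofReal_toReal measure_ball_lt_top.ne]
  rw [Measure.addHaar_closedBall_eq_addHaar_ball]

end ModPLA

open ModPLA

/-- PLA: Plancherel for the ball. -/
theorem pla : StmPLA := by
  intro n
  set B : Set (E (n + 1)) := Metric.closedBall 0 1 with hB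
  have hBm : MeasurableSet B := measurableSet_closedBall
  have hfin : volume B < ⊤ := measure_closedBall_lt_top
  have h1 : Integrable (B.indicator (fun _ => (1 : ℂ))) :=
    (integrable_indicator_iff hBm).mpr (integrableOn_const hfin.ne)
  have h2 : MemLp (B.indicator (fun _ => (1 : ℂ))) 2 :=
    memLp_indicator_const 2 hBm 1 (Or.inr hfin.ne)
  have h3 := Pool.Agent.H153R4.plancherel _ h1 h2
  have h4 : Phi 2 B = ∫⁻ ξ, ‖𝓕 (B.indicator (fun _ => (1 : ℂ))) ξ‖ₑ ^ 2 := by
    unfold Phi
    refine lintegral_congr fun ξ => ?_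
    rw [ft_eq B hBm ξ, ENNReal.rpow_two]
  have h5 : ∫⁻ x, ‖B.indicator (fun _ => (1 : ℂ)) x‖ₑ ^ 2 = volume B := by
    have h6 : ∀ x, ‖B.indicator (fun _ => (1 : ℂ)) x‖ₑ ^ 2 = B.indicator (fun _ => (1 : ℝ≥0∞)) x := by
      intro x
      by_cases hx : x ∈ B
      · simp [Set.indicator_of_mem hx]
      · simp [Set.indicator_of_notMem hx]
    simp only [h6]
    rw [lintegral_indicator hBm]
    simp
  rw [h4, h3, h5, vol_ball]

end H50.QN
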