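import Pool.Agent.T6.H50.QN.Defs

/-! Project QN, module POL: polar coordinates for the Fourier transform of the ball. -/

open MeasureTheory Real Filter Topology Set
open scoped ENNReal RealInnerProductSpace

namespace H50.QN

namespace POL

/-- `G d` is continuous for `d ≥ 1` -/
theorem continuous_G (d : ℕ) (hd : 1 ≤ d) : Continuous (G d) := by
  have h0 : (0 : ℝ) ≤ ((d : ℝ) - 1) / 2 := by
    have : (1 : ℝ) ≤ d := by exact_mod_cast hd
    linarith
  have h1 : Continuous (Function.uncurry fun (z t : ℝ) =>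
      (1 - t ^ 2) ^ (((d : ℝ) - 1) / 2) * cos (z * t)) := by
    have h2 : Continuous fun x : ℝ => x ^ (((d : ℝ) - 1) / 2) := Real.continuous_rpow_const h0
    have h3 : Continuous fun p : ℝ × ℝ => (1 - p.2 ^ 2) ^ (((d : ℝ) - 1) / 2) :=
      h2.comp (by fun_prop)
    exact h3.mul (by fun_prop)
  exact intervalIntegral.continuous_parametric_intervalIntegral_of_continuous' h1 (-1) 1

open Measure in
/-- polar coordinates for radial functions with values in `[0, ∞]` -/
theorem lintegral_norm (n : ℕ) (f : ℝ → ℝ≥0∞) (hf : Measurable f) :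
    ∫⁻ x : E (n + 1), f ‖x‖ = ((n + 1 : ℕ) * volume (Metric.ball (0 : E (n + 1)) 1))
      * ∫⁻ r in Ioi (0 : ℝ), ENNReal.ofReal (r ^ n) * f r := by
  have hdim : Module.finrank ℝ (E (n + 1)) = n + 1 := by simp
  set μ : Measure (E (n + 1)) := volume with hμ
  have h1 : ∫⁻ x, f ‖x‖ ∂μ = ∫⁻ x : ({(0 : E (n + 1))}ᶜ : Set (E (n + 1))), f ‖x.1‖ ∂(μ.comap (↑)) := by
    rw [lintegral_subtype_comap (measurableSet_singleton _).compl (fun x => f ‖x‖),
      restrict_compl_singleton]
  have h2 : ∫⁻ x : ({(0 : E (n + 1))}ᶜ : Set (E (n + 1))), f ‖x.1‖ ∂(μ.comap (↑))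
      = ∫⁻ x, f x.2 ∂μ.toSphere.prod (.volumeIoiPow (Module.finrank ℝ (E (n + 1)) - 1)) := by
    simpa using μ.measurePreserving_homeomorphUnitSphereProd.lintegral_comp_emb
        (Homeomorph.measurableEmbedding _) (f ∘ Subtype.val ∘ Prod.snd)
  have h3 : ∫⁻ x, f x.2 ∂μ.toSphere.prod (.volumeIoiPow (Module.finrank ℝ (E (n + 1)) - 1))
      = μ.toSphere univ * ∫⁻ x : Ioi (0 : ℝ), f x ∂.volumeIoiPow (Module.finrank ℝ (E (n + 1)) - 1) := by
    have h4 := lintegral_prod_mul (μ := μ.toSphere)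
      (ν := .volumeIoiPow (Module.finrank ℝ (E (n + 1)) - 1)) (f := fun _ => (1 : ℝ≥0∞))
      (g := fun x : Ioi (0 : ℝ) => f x) aemeasurable_const
      (hf.comp measurable_subtype_coe).aemeasurable
    simpa using h4
  rw [h1, h2, h3, hdim, Nat.add_sub_cancel, μ.toSphere_apply_univ, hdim]
  congr 1
  have h5 : Measurable fun r : Ioi (0 : ℝ) => ENNReal.ofReal (r.1 ^ n) :=
    (measurable_subtype_coe.pow_const _).ennreal_ofReal
  have h6 : Measurable fun r : Ioi (0 : ℝ) => f r.1 := hf.comp measurable_subtype_coe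
  have h7 := lintegral_withDensity_eq_lintegral_mul
    (Measure.comap (Subtype.val : Ioi (0 : ℝ) → ℝ) volume) h5 h6
  have h8 := lintegral_subtype_comap (μ := (volume : Measure ℝ)) (measurableSet_Ioi (a := (0 : ℝ)))
    (fun r => ENNReal.ofReal (r ^ n) * f r)
  exact h7.trans h8

/-- scaling in an integral over the half line -/
theorem lintegral_scale (a : ℝ) (ha : 0 < a) (g : ℝ → ℝ≥0∞) :
    ∫⁻ r in Ioi (0 : ℝ), g (a * r) = ENNReal.ofReal a⁻¹ * ∫⁻ z in Ioi (0 : ℝ), g z := by
  have h1 : MeasurableEmbedding fun r : ℝ => a * r :=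
    (Homeomorph.mulLeft₀ a ha.ne').measurableEmbedding
  have h2 : Measure.map (a * ·) (volume : Measure ℝ) = ENNReal.ofReal |a⁻¹| • volume :=
    Real.map_volume_mul_left ha.ne'
  have h3 : (Ioi (0 : ℝ)).indicator g ∘ (fun r : ℝ => a * r)
      = (Ioi (0 : ℝ)).indicator (fun r => g (a * r)) := by
    funext r
    by_cases hr : r ∈ Ioi (0 : ℝ)
    · have : a * r ∈ Ioi (0 : ℝ) := mul_pos ha hr
      simp only [Function.comp_apply]
      rw [indicator_of_mem this, indicator_of_mem hr]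
    · have : a * r ∉ Ioi (0 : ℝ) := by
        simp only [mem_Ioi, not_lt] at hr ⊢
        exact mul_nonpos_of_nonneg_of_nonpos ha.le hr
      simp only [Function.comp_apply]
      rw [indicator_of_notMem this, indicator_of_notMem hr]
  rw [← lintegral_indicator measurableSet_Ioi, ← lintegral_indicator measurableSet_Ioi, ← h3]
  have h4 := h1.lintegral_map (μ := volume) ((Ioi (0 : ℝ)).indicator g)
  rw [h2, lintegral_smul_measure] at h4
  rw [abs_of_pos (inv_pos.mpr ha)] at h4
  exact h4.symm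

end POL

open POL

theorem pol (h : StmSLI) : StmPOL := by
  intro n q hq
  have hom : 0 ≤ om n := ENNReal.toReal_nonneg
  have hG : Continuous (G (n + 1)) := continuous_G (n + 1) (by omega)
  have hpi : (0 : ℝ) < 2 * π := by positivity
  have h1 : ∀ ξ : E (n + 1), ‖ft (Metric.closedBall (0 : E (n + 1)) 1) ξ‖ₑ ^ q
      = ENNReal.ofReal (om n ^ q * |G (n + 1) (2 * π * ‖ξ‖)| ^ q) := by
    intro ξ
    rw [h n ξ, ← ofReal_norm, Complex.norm_real, Real.norm_eq_abs,
      ENNReal.ofReal_rpow_of_nonneg (abs_nonneg _) hq.le, abs_mul, abs_of_nonneg hom,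
      Real.mul_rpow hom (abs_nonneg _)]
  have hm : Measurable fun r : ℝ => ENNReal.ofReal (om n ^ q * |G (n + 1) (2 * π * r)| ^ q) := by
    have h2 : Measurable fun r : ℝ => G (n + 1) (2 * π * r) := (hG.comp (by fun_prop)).measurable
    exact (measurable_const.mul (h2.abs.pow_const q)).ennreal_ofReal
  have h2 : Phi q (Metric.closedBall (0 : E (n + 1)) 1)
      = ∫⁻ ξ : E (n + 1), (fun r : ℝ => ENNReal.ofReal (om n ^ q * |G (n + 1) (2 * π * r)| ^ q)) ‖ξ‖ := by
    unfold Phi
    exact lintegral_congr h1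
  rw [h2, lintegral_norm n _ hm]
  have h3 : ∀ r ∈ Ioi (0 : ℝ), ENNReal.ofReal (r ^ n) *
      ENNReal.ofReal (om n ^ q * |G (n + 1) (2 * π * r)| ^ q)
      = (fun z : ℝ => ENNReal.ofReal (om n ^ q / (2 * π) ^ n) * ENNReal.ofReal (z ^ n * |G (n + 1) z| ^ q))
        (2 * π * r) := by
    intro r hr
    have hr0 : (0 : ℝ) < r := hr
    simp only
    rw [← ENNReal.ofReal_mul (by positivity), ← ENNReal.ofReal_mul (by positivity)]
    congr 1
    have h9 : (2 * π * r) ^ n = (2 * π) ^ n * r ^ n := mul_pow _ _ _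
    have h10 : (2 * π) ^ n ≠ 0 := by positivity
    rw [h9]
    field_simp
  rw [setLIntegral_congr_fun measurableSet_Ioi h3, lintegral_scale (2 * π) hpi
    (fun z : ℝ => ENNReal.ofReal (om n ^ q / (2 * π) ^ n) * ENNReal.ofReal (z ^ n * |G (n + 1) z| ^ q))]
  have h4 : Measurable fun z : ℝ => ENNReal.ofReal (z ^ n * |G (n + 1) z| ^ q) :=
    ((measurable_id.pow_const n).mul (hG.measurable.abs.pow_const q)).ennreal_ofReal
  rw [lintegral_const_mul _ h4]
  have h5 : volume (Metric.ball (0 : E (n + 1)) 1) = ENNReal.ofReal (om (n + 1)) := by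
    unfold om
    rw [ENNReal.ofReal_toReal measure_ball_lt_top.ne]
  rw [h5, ← mul_assoc, ← mul_assoc]
  congr 1
  have h6 : ((n + 1 : ℕ) : ℝ≥0∞) = ENNReal.ofReal ((n + 1 : ℕ) : ℝ) := (ENNReal.ofReal_natCast _).symm
  have hom1 : 0 ≤ om (n + 1) := ENNReal.toReal_nonneg
  rw [h6, ← ENNReal.ofReal_mul (by positivity), ← ENNReal.ofReal_mul (by positivity),
    ← ENNReal.ofReal_mul (by positivity)]
  congr 1
  push_cast
  have h10 : (2 * π) ^ n ≠ 0 := by positivity
  rw [pow_succ (2 * π) n]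
  field_simp

end H50.QN
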