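import Pool.Agent.T6.H50.QN.Defs

/-! Project QN, module PTW: the pointwise bound for `z^d G_d(z)^2`. -/

open MeasureTheory Real Filter Topology Set

namespace H50.QN

namespace PTW

theorem mono_of {f f' : ℝ → ℝ} (hc : Continuous f) (hd : ∀ z, 0 < z → HasDerivAt f (f' z) z)
    (h0 : ∀ z, 0 < z → 0 ≤ f' z) (hf : f 0 = 0) {z : ℝ} (hz : 0 < z) : 0 ≤ f z := by
  have h1 : MonotoneOn f (Ici 0) := by
    refine monotoneOn_of_deriv_nonneg (convex_Ici 0) hc.continuousOn ?_ ?_
    · rw [interior_Ici]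
      exact fun x hx => (hd x hx).differentiableAt.differentiableWithinAt
    · rw [interior_Ici]
      intro x hx
      rw [(hd x hx).deriv]
      exact h0 x hx
  have h2 := h1 (self_mem_Ici) (mem_Ici.2 hz.le) hz.le
  rwa [hf] at h2

end PTW

open PTW in
theorem ptw (hB : StmBES) (hN : StmNOR) : StmPTW := by
  intro d hd z hz
  obtain ⟨n, rfl⟩ : ∃ n, d = n + 1 := ⟨d - 1, by omega⟩
  have hn : (1 : ℝ) ≤ n := by
    have : 1 ≤ n := by omega
    exact_mod_cast this
  obtain ⟨H, hG, hH, hH', -, -, -⟩ := hB (n + 1) (by omega)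
  obtain ⟨H2, hG2, -⟩ := hB (n + 1 + 2) (by omega)
  have hGc : Continuous (G (n + 1)) := continuous_iff_continuousAt.2 fun x => (hG x).continuousAt
  have hG2c : Continuous (G (n + 1 + 2)) :=
    continuous_iff_continuousAt.2 fun x => (hG2 x).continuousAt
  have hHc : Continuous H := by
    have h1 : H = fun z => -(z / (((n + 1 : ℕ) : ℝ) + 1)) * G (n + 1 + 2) z := funext hH
    rw [h1]
    fun_prop
  set g : ℝ → ℝ := G (n + 1) with hg
  set D : ℝ := ((n + 1 : ℕ) : ℝ) with hD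
  have hDn : D = n + 1 := by rw [hD]; push_cast; ring
  have hD2 : 2 ≤ D := by rw [hDn]; linarith
  have hD0 : 0 < D := by linarith
  obtain ⟨hint, -⟩ := hN n
  set F : ℝ → ℝ := fun z => ∫ s in (0 : ℝ)..z, s ^ n * g s ^ 2 with hF
  have hic : Continuous fun s : ℝ => s ^ n * g s ^ 2 := by fun_prop
  have hFd : ∀ z, HasDerivAt F (z ^ n * g z ^ 2) z := fun z =>
    intervalIntegral.integral_hasDerivAt_right (hic.intervalIntegrable _ _)
      (hic.stronglyMeasurableAtFilter _ _) hic.continuousAt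
  have hFc : Continuous F := continuous_iff_continuousAt.2 fun x => (hFd x).continuousAt
  have hF0 : F 0 = 0 := intervalIntegral.integral_same
  have hFn : ∀ z, 0 < z → 0 ≤ F z := fun z hz =>
    intervalIntegral.integral_nonneg hz.le fun s hs => by
      have := hs.1
      positivity
  have hFN : ∀ z, 0 < z → F z ≤ NN (n + 1) := by
    intro z hz
    rw [hF]
    show ∫ s in (0 : ℝ)..z, s ^ n * g s ^ 2 ≤ ∫ z in Ioi (0 : ℝ), z ^ (n + 1 - 1) * g z ^ 2
    rw [intervalIntegral.integral_of_le hz.le, Nat.add_sub_cancel]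
    refine setIntegral_mono_set hint ?_ (HasSubset.Subset.eventuallyLE Ioc_subset_Ioi_self)
    refine (ae_restrict_mem measurableSet_Ioi).mono fun s hs => ?_
    have : (0 : ℝ) < s := hs
    show (0 : ℝ) ≤ s ^ n * g s ^ 2
    positivity
  -- the virial function
  set V : ℝ → ℝ := fun z => z ^ (n + 3) * (H z ^ 2 + g z ^ 2) + D * z ^ (n + 2) * (g z * H z)
    with hV
  have hVc : Continuous V := by rw [hV]; fun_prop
  have hVd : ∀ z, 0 < z → HasDerivAt V (2 * z ^ (n + 2) * g z ^ 2) z := by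
    intro z hz
    have e1 := (hasDerivAt_pow (n + 3) z).mul (((hH' z hz).pow 2).add ((hG z).pow 2))
    have e2 := ((hasDerivAt_pow (n + 2) z).const_mul D).mul ((hG z).mul (hH' z hz))
    refine (e1.add e2).congr_deriv ?_
    have hz' : z ≠ 0 := hz.ne'
    have hDD : (((n + 1 : ℕ) : ℝ)) = D := rfl
    simp only [Nat.add_succ_sub_one, Pi.pow_apply, Pi.add_apply, Pi.mul_apply]
    push_cast
    rw [hDn]
    field_simp
    ring
  have hV1 : ∀ z, 0 < z → V z ≤ 2 * z ^ 2 * F z := by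
    intro z hz
    have h1 := mono_of (f := fun z => 2 * z ^ 2 * F z - V z) (f' := fun z => 4 * z * F z)
      (by fun_prop) ?_ (fun z hz => by have := hFn z hz; positivity) ?_ hz
    · linarith
    · intro z hz
      have e1 := (((hasDerivAt_pow 2 z).const_mul 2).mul (hFd z)).sub (hVd z hz)
      refine e1.congr_deriv ?_
      simp only [Nat.add_one_sub_one]
      push_cast
      ring
    · simp [hV]
  have hVP : ∀ z, V z = z ^ (n + 1) * (z * H z + D / 2 * g z) ^ 2 +
      (z ^ 2 - D ^ 2 / 4) * (z ^ (n + 1) * g z ^ 2) := by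
    intro z
    rw [hV]
    ring
  have hkey : ∀ z, 0 < z → z ^ n * (z * H z + D / 2 * g z) ^ 2 +
      (z ^ 2 - D ^ 2 / 4) * (z ^ n * g z ^ 2) ≤ 2 * z * F z := by
    intro z hz
    have h1 := hV1 z hz
    rw [hVP z] at h1
    refine le_of_mul_le_mul_left ?_ hz
    calc z * (z ^ n * (z * H z + D / 2 * g z) ^ 2 + (z ^ 2 - D ^ 2 / 4) * (z ^ n * g z ^ 2))
        = z ^ (n + 1) * (z * H z + D / 2 * g z) ^ 2 +
          (z ^ 2 - D ^ 2 / 4) * (z ^ (n + 1) * g z ^ 2) := by ring
      _ ≤ 2 * z ^ 2 * F z := h1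
      _ = z * (2 * z * F z) := by ring
  show z ^ (n + 1) * g z ^ 2 ≤ 3 * D * NN (n + 1)
  have hFz := hFn z hz
  have hFz' := hFN z hz
  by_cases hc : D ^ 2 / 2 ≤ z ^ 2
  · -- large `z`
    have h1 := hV1 z hz
    rw [hVP z] at h1
    have h2 : 0 ≤ z ^ (n + 1) * (z * H z + D / 2 * g z) ^ 2 := by positivity
    have h3 : 0 ≤ z ^ (n + 1) * g z ^ 2 := by positivity
    have h4 : z ^ 2 * (z ^ (n + 1) * g z ^ 2) ≤ z ^ 2 * (4 * F z) := by
      nlinarith [mul_nonneg (sub_nonneg.2 hc) h3]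
    have h5 := le_of_mul_le_mul_left h4 (by positivity : 0 < z ^ 2)
    nlinarith
  · -- small `z`
    push Not at hc
    have h1 := mono_of (f := fun z => (5 * D / 4 + z ^ 2 / D) * F z - z ^ (n + 1) * g z ^ 2)
      (f' := fun z => (2 * z / D) * F z + (5 * D / 4 + z ^ 2 / D) * (z ^ n * g z ^ 2) -
        (D * z ^ n * g z ^ 2 + z ^ (n + 1) * (2 * g z * H z)))
      (by fun_prop) ?_ ?_ ?_ hz
    · have h2 : (5 * D / 4 + z ^ 2 / D) * F z ≤ (7 * D / 4) * F z := by
        refine mul_le_mul_of_nonneg_right ?_ hFz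
        have h3 : z ^ 2 / D ≤ D / 2 := by
          rw [div_le_iff₀ hD0]
          nlinarith
        linarith
      have h4 : (7 * D / 4) * F z ≤ 3 * D * NN (n + 1) := by nlinarith
      linarith
    · intro z hz
      have e1 := (((((hasDerivAt_pow 2 z).div_const D).const_add (5 * D / 4))).mul (hFd z)).sub
        ((hasDerivAt_pow (n + 1) z).mul ((hG z).pow 2))
      refine e1.congr_deriv ?_
      simp only [Nat.add_one_sub_one, Nat.add_succ_sub_one, Pi.pow_apply]
      push_cast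
      rw [hDn]
      ring
    · intro z hz
      have h2 := hkey z hz
      have h3 : D * ((2 * z / D) * F z + (5 * D / 4 + z ^ 2 / D) * (z ^ n * g z ^ 2) -
          (D * z ^ n * g z ^ 2 + z ^ (n + 1) * (2 * g z * H z))) =
          2 * z * F z + (5 * D ^ 2 / 4 + z ^ 2) * (z ^ n * g z ^ 2) -
          D * (D * z ^ n * g z ^ 2 + z ^ (n + 1) * (2 * g z * H z)) := by
        field_simp
      have h4 : 0 ≤ z ^ n * ((z * H z - D / 2 * g z) ^ 2 + 2 * z ^ 2 * g z ^ 2) := by positivity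
      have h5 : 0 ≤ D * ((2 * z / D) * F z + (5 * D / 4 + z ^ 2 / D) * (z ^ n * g z ^ 2) -
          (D * z ^ n * g z ^ 2 + z ^ (n + 1) * (2 * g z * H z))) := by
        rw [h3]
        have h6 : z ^ n * ((z * H z - D / 2 * g z) ^ 2 + 2 * z ^ 2 * g z ^ 2) =
            (z ^ n * (z * H z + D / 2 * g z) ^ 2 +
              (z ^ 2 - D ^ 2 / 4) * (z ^ n * g z ^ 2)) +
            (5 * D ^ 2 / 4 + z ^ 2) * (z ^ n * g z ^ 2) -
            D * (D * z ^ n * g z ^ 2 + z ^ (n + 1) * (2 * g z * H z)) := by ring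
        linarith
      exact nonneg_of_mul_nonneg_right h5 hD0
    · simp [hF0]

end H50.QN
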