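import Mathlib
import Pool.Agent.T6.H50.QN.Defs

/-! Project QN (`MP_3fd3b2_an`), module REC: the virial recursion. -/

set_option autoImplicit false

open MeasureTheory Real Filter Topology Set

namespace H50.QN

namespace ModREC

theorem sq4 {x : ℝ} (h : |x| ≤ 2) : x ^ 2 ≤ 4 := by
  have h2 := abs_nonneg x
  have h3 := sq_abs x
  nlinarith

/-- The virial identities. -/
theorem core (n : ℕ) (g H : ℝ → ℝ) (hg : ∀ z, HasDerivAt g (H z) z)
    (hH : ∀ z, 0 < z → HasDerivAt H (-g z - (n + 2) / z * H z) z)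
    (bg : ∀ z, |g z| ≤ 2) (bH : ∀ z, |H z| ≤ 2) (C : ℝ)
    (hC : ∀ z : ℝ, 1 ≤ z → z ^ (n + 2) * (g z ^ 2 + H z ^ 2) ≤ C)
    (iG : IntegrableOn (fun z : ℝ => z ^ n * g z ^ 2) (Ioi 0))
    (iH : IntegrableOn (fun z : ℝ => z ^ n * H z ^ 2) (Ioi 0))
    (lG : IntegrableOn (fun z : ℝ => z ^ n * g z ^ 2 * log z) (Ioi 0))
    (lH : IntegrableOn (fun z : ℝ => z ^ n * H z ^ 2 * log z) (Ioi 0)) :
    ((n : ℝ) + 1) * (∫ z in Ioi (0 : ℝ), z ^ n * g z ^ 2) -
      (n + 3) * (∫ z in Ioi (0 : ℝ), z ^ n * H z ^ 2) = 0 ∧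
    ((n : ℝ) + 1) * (∫ z in Ioi (0 : ℝ), z ^ n * g z ^ 2 * log z) -
      (n + 3) * (∫ z in Ioi (0 : ℝ), z ^ n * H z ^ 2 * log z) +
      ((∫ z in Ioi (0 : ℝ), z ^ n * g z ^ 2) + ∫ z in Ioi (0 : ℝ), z ^ n * H z ^ 2) = 0 := by
  have hC0 : 0 ≤ C := le_trans (by positivity) (hC 1 le_rfl)
  have hb : ∀ z, g z ^ 2 + H z ^ 2 ≤ 8 := fun z => by linarith [sq4 (bg z), sq4 (bH z)]
  have hb0 : ∀ z, 0 ≤ g z ^ 2 + H z ^ 2 := fun z => by positivity
  set F : ℝ → ℝ := fun z => z ^ (n + 1) * (g z ^ 2 + H z ^ 2) with hF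
  -- derivative of F
  have hF' : ∀ z ∈ Ioi (0 : ℝ), HasDerivAt F
      (((n : ℝ) + 1) * (z ^ n * g z ^ 2) - (n + 3) * (z ^ n * H z ^ 2)) z := by
    intro z hz
    have hz0 : (0 : ℝ) < z := hz
    have h1 : HasDerivAt (fun z : ℝ => z ^ (n + 1)) (((n + 1 : ℕ) : ℝ) * z ^ n) z := by
      simpa using hasDerivAt_pow (n + 1) z
    have h2 : HasDerivAt (fun z => g z ^ 2 + H z ^ 2)
        (2 * g z * H z + 2 * H z * (-g z - (n + 2) / z * H z)) z := by
      have h3 := ((hg z).pow 2).add ((hH z hz0).pow 2)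
      refine h3.congr_deriv ?_
      push_cast
      ring
    refine (h1.mul h2).congr_deriv ?_
    push_cast
    have h4 : z ^ (n + 1) = z ^ n * z := pow_succ z n
    rw [h4]
    field_simp
    ring
  have hbF : ∀ z, |F z| ≤ 8 * |z| ^ (n + 1) := by
    intro z
    rw [hF]
    simp only
    rw [abs_mul, abs_pow, abs_of_nonneg (hb0 z), mul_comm]
    exact mul_le_mul_of_nonneg_right (hb z) (by positivity)
  have hF0 : F 0 = 0 := by simp [hF]
  -- near zero
  have hcF : ContinuousWithinAt F (Ici 0) 0 := by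
    unfold ContinuousWithinAt
    rw [hF0]
    apply squeeze_zero_norm (a := fun z => 8 * |z| ^ (n + 1)) (fun z => by
      rw [Real.norm_eq_abs]; exact hbF z)
    have h1 : Tendsto (fun z : ℝ => 8 * |z| ^ (n + 1)) (𝓝 0) (𝓝 (8 * |(0 : ℝ)| ^ (n + 1))) :=
      Continuous.tendsto (by fun_prop) 0
    simp only [abs_zero, ne_eq, Nat.add_eq_zero_iff, one_ne_zero, and_false, not_false_eq_true,
      zero_pow, mul_zero] at h1
    exact h1.mono_left nhdsWithin_le_nhds
  -- at infinity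
  have hFinf : ∀ z : ℝ, 1 ≤ z → |F z| ≤ C / z := by
    intro z hz
    have hz0 : 0 < z := by linarith
    rw [abs_of_nonneg (mul_nonneg (pow_nonneg hz0.le _) (hb0 z)), le_div_iff₀ hz0]
    calc F z * z = z ^ (n + 2) * (g z ^ 2 + H z ^ 2) := by simp only [hF]; ring
      _ ≤ C := hC z hz
  have htF : Tendsto F atTop (𝓝 0) := by
    apply squeeze_zero_norm' (a := fun z => C / z)
    · filter_upwards [eventually_ge_atTop (1 : ℝ)] with z hz
      rw [Real.norm_eq_abs]
      exact hFinf z hz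
    · exact tendsto_const_nhds.div_atTop tendsto_id
  have i1 : IntegrableOn (fun z : ℝ => ((n : ℝ) + 1) * (z ^ n * g z ^ 2) -
      (n + 3) * (z ^ n * H z ^ 2)) (Ioi 0) := (iG.const_mul _).sub (iH.const_mul _)
  have e1 := integral_Ioi_of_hasDerivAt_of_tendsto hcF hF' i1 htF
  rw [hF0, sub_zero, integral_sub (iG.const_mul _) (iH.const_mul _), integral_const_mul,
    integral_const_mul] at e1
  refine ⟨e1, ?_⟩
  -- the second identity
  have hK' : ∀ z ∈ Ioi (0 : ℝ), HasDerivAt (fun z => F z * log z)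
      ((((n : ℝ) + 1) * (z ^ n * g z ^ 2 * log z) - (n + 3) * (z ^ n * H z ^ 2 * log z)) +
        (z ^ n * g z ^ 2 + z ^ n * H z ^ 2)) z := by
    intro z hz
    have hz0 : (0 : ℝ) < z := hz
    refine ((hF' z hz).mul (Real.hasDerivAt_log hz0.ne')).congr_deriv ?_
    simp only [hF]
    have h4 : z ^ (n + 1) = z ^ n * z := pow_succ z n
    rw [h4]
    field_simp
  have hcK : ContinuousWithinAt (fun z => F z * log z) (Ici 0) 0 := by
    unfold ContinuousWithinAt
    simp only [hF0, zero_mul]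
    have h1 : Tendsto (fun z : ℝ => 8 * |z * log z|) (𝓝 0) (𝓝 (8 * |(0 : ℝ) * log 0|)) :=
      Continuous.tendsto (continuous_const.mul Real.continuous_mul_log.abs) 0
    simp only [zero_mul, abs_zero, mul_zero] at h1
    apply squeeze_zero_norm' (a := fun z : ℝ => 8 * |z * log z|)
    · have h2 : ∀ᶠ z : ℝ in 𝓝[Ici 0] 0, |z| < 1 := by
        have h3 : Tendsto (fun z : ℝ => |z|) (𝓝[Ici 0] 0) (𝓝 |(0 : ℝ)|) :=
          (continuous_abs.tendsto 0).mono_left nhdsWithin_le_nhds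
        rw [abs_zero] at h3
        exact h3.eventually (gt_mem_nhds one_pos)
      filter_upwards [h2] with z hz
      rw [Real.norm_eq_abs, abs_mul, abs_mul z]
      have h4 : |z| ^ n ≤ 1 := pow_le_one₀ (abs_nonneg _) hz.le
      have h5 : |F z| ≤ 8 * |z| := by
        refine (hbF z).trans ?_
        rw [pow_succ]
        have h6 := abs_nonneg z
        nlinarith [mul_le_mul_of_nonneg_right h4 h6]
      calc |F z| * |log z| ≤ 8 * |z| * |log z| := mul_le_mul_of_nonneg_right h5 (abs_nonneg _)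
        _ = 8 * (|z| * |log z|) := by ring
    · exact h1.mono_left nhdsWithin_le_nhds
  have htK : Tendsto (fun z => F z * log z) atTop (𝓝 0) := by
    apply squeeze_zero_norm' (a := fun z => C * (log z / z))
    · filter_upwards [eventually_ge_atTop (1 : ℝ)] with z hz
      have hz0 : 0 < z := by linarith
      rw [Real.norm_eq_abs, abs_mul, abs_of_nonneg (log_nonneg hz)]
      calc |F z| * log z ≤ C / z * log z :=
            mul_le_mul_of_nonneg_right (hFinf z hz) (log_nonneg hz)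
        _ = C * (log z / z) := by ring
    · have h1 : Tendsto (fun z : ℝ => log z / z) atTop (𝓝 0) :=
        Real.isLittleO_log_id_atTop.tendsto_div_nhds_zero
      have h2 := h1.const_mul C
      rwa [mul_zero] at h2
  have j1 : IntegrableOn (fun z : ℝ => ((n : ℝ) + 1) * (z ^ n * g z ^ 2 * log z) -
      (n + 3) * (z ^ n * H z ^ 2 * log z)) (Ioi 0) := (lG.const_mul _).sub (lH.const_mul _)
  have j2 : IntegrableOn (fun z : ℝ => z ^ n * g z ^ 2 + z ^ n * H z ^ 2) (Ioi 0) := iG.add iH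
  have e2 := integral_Ioi_of_hasDerivAt_of_tendsto hcK hK' (j1.add j2) htK
  rw [hF0, zero_mul, sub_zero, integral_add j1 j2,
    integral_sub (lG.const_mul _) (lH.const_mul _), integral_const_mul, integral_const_mul,
    integral_add iG iH] at e2
  exact e2

end ModREC

theorem vrec (hB : StmBES) (hD : StmDEC) (hN : StmNOR) (hO : StmOMR) (hL : StmLIN) : StmREC := by
  intro d hd
  obtain ⟨H, h1, h2, h3, h4, h5, -⟩ := hB d hd
  obtain ⟨C, hC⟩ := hD d hd
  obtain ⟨n, rfl⟩ : ∃ n, d = n + 1 := ⟨d - 1, by omega⟩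
  have hder : ∀ z, deriv (G (n + 1)) z = H z := fun z => (h1 z).deriv
  simp only [hder] at hC
  obtain ⟨iG, vG⟩ := hN n
  obtain ⟨iG2, -⟩ := hN (n + 2)
  have lG := hL (n + 1) (by omega)
  have lG2 := hL (n + 1 + 2) (by omega)
  simp only [Nat.add_sub_cancel] at lG
  have hn0 : (0 : ℝ) < (n : ℝ) + 2 := by positivity
  -- the functions of index d + 2
  have e0 : ∀ z : ℝ, z ^ (n + 2) * G (n + 1 + 2) z ^ 2 =
      ((n : ℝ) + 2) ^ 2 * (z ^ n * H z ^ 2) := by
    intro z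
    have h6 := h2 z
    push_cast at h6
    have h7 : (n : ℝ) + 1 + 1 = n + 2 := by ring
    rw [h7] at h6
    rw [h6]
    field_simp
    ring
  have e1 : ∀ z : ℝ, z ^ n * H z ^ 2 =
      1 / ((n : ℝ) + 2) ^ 2 * (z ^ (n + 2) * G (n + 1 + 2) z ^ 2) := by
    intro z
    rw [e0 z]
    field_simp
  have iH : IntegrableOn (fun z : ℝ => z ^ n * H z ^ 2) (Ioi 0) := by
    have h6 : IntegrableOn (fun z : ℝ => 1 / ((n : ℝ) + 2) ^ 2 *
        (z ^ (n + 2) * G (n + 1 + 2) z ^ 2)) (Ioi 0) := iG2.const_mul _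
    simpa only [e1] using h6
  have lH : IntegrableOn (fun z : ℝ => z ^ n * H z ^ 2 * log z) (Ioi 0) := by
    have h6 : IntegrableOn (fun z : ℝ => 1 / ((n : ℝ) + 2) ^ 2 *
        (z ^ (n + 2) * G (n + 1 + 2) z ^ 2 * log z)) (Ioi 0) := by
      have h7 : n + 1 + 2 - 1 = n + 2 := by omega
      rw [h7] at lG2
      exact lG2.const_mul _
    refine h6.congr_fun (fun z _ => ?_) measurableSet_Ioi
    simp only
    rw [e1 z]
    ring
  have hN2 : NN (n + 1 + 2) = ((n : ℝ) + 2) ^ 2 * ∫ z in Ioi (0 : ℝ), z ^ n * H z ^ 2 := by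
    unfold NN
    rw [← integral_const_mul]
    congr 1
    funext z
    exact e0 z
  have hL2 : LL (n + 1 + 2) = ((n : ℝ) + 2) ^ 2 *
      ∫ z in Ioi (0 : ℝ), z ^ n * H z ^ 2 * log z := by
    unfold LL
    rw [← integral_const_mul]
    congr 1
    funext z
    have h7 : n + 1 + 2 - 1 = n + 2 := by omega
    rw [h7, e0 z]
    ring
  have hN1 : NN (n + 1) = ∫ z in Ioi (0 : ℝ), z ^ n * G (n + 1) z ^ 2 := rfl
  have hL1 : LL (n + 1) = ∫ z in Ioi (0 : ℝ), z ^ n * G (n + 1) z ^ 2 * log z := rfl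
  have hpos : 0 < NN (n + 1) := by
    rw [vG]
    have := hO.2.2.2 n
    positivity
  obtain ⟨c1, c2⟩ := ModREC.core n (G (n + 1)) H h1 (fun z hz => by
    have h6 := h3 z hz
    push_cast at h6
    have h7 : (n : ℝ) + 1 + 1 = n + 2 := by ring
    rwa [h7] at h6) h4 h5 C (fun z hz => hC z hz) iG iH lG lH
  rw [← hN1] at c1 c2
  rw [← hL1] at c2
  rw [hN2, hL2]
  set N' := ∫ z in Ioi (0 : ℝ), z ^ n * H z ^ 2 with hN'
  set L' := ∫ z in Ioi (0 : ℝ), z ^ n * H z ^ 2 * log z with hL'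
  set A := NN (n + 1) with hA
  set B := LL (n + 1) with hB'
  have hN'v : N' = (n + 1) * A / (n + 3) := by
    rw [eq_div_iff (by positivity)]
    linarith
  have hL'v : L' = ((n + 1) * B + A + N') / (n + 3) := by
    rw [eq_div_iff (by positivity)]
    linarith
  rw [hL'v, hN'v]
  push_cast
  have hn3 : (0 : ℝ) < (n : ℝ) + 3 := by positivity
  have hn1 : (0 : ℝ) < (n : ℝ) + 1 := by positivity
  have hn3' : (n : ℝ) + 1 + 2 = n + 3 := by ring
  rw [hn3']
  field_simp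

end H50.QN
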