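import Pool.Agent.T6.H50.QN.Defs

/-!
Project QN (helper50), MP_3fd3b2_an, module SLI (helper82): slicing the ball perpendicular to the
frequency.
-/

set_option autoImplicit false
open MeasureTheory Real Filter Topology Set
open scoped ENNReal RealInnerProductSpace

namespace H50.QN

namespace ModSLI

/-- first coordinate, and the other coordinates -/
def cut {n : ℕ} (x : E (n + 1)) : ℝ × E n := (x 0, WithLp.toLp 2 (fun j : Fin n => x j.succ))

/-- the map `cut` as a measurable equivalence -/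
noncomputable def cutE (n : ℕ) : E (n + 1) ≃ᵐ ℝ × E n :=
  ((MeasurableEquiv.toLp 2 (Fin (n + 1) → ℝ)).symm.trans
    (MeasurableEquiv.piFinSuccAbove (fun _ : Fin (n + 1) => ℝ) 0)).trans
    (MeasurableEquiv.prodCongr (MeasurableEquiv.refl ℝ) (MeasurableEquiv.toLp 2 (Fin n → ℝ)))

theorem cutE_apply {n : ℕ} (x : E (n + 1)) : cutE n x = cut x := rfl

theorem mp (n : ℕ) : MeasurePreserving (cutE n) volume volume := by
  unfold cutE
  have h1 := EuclideanSpace.volume_preserving_symm_measurableEquiv_toLp (Fin (n + 1))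
  have h2 := volume_preserving_piFinSuccAbove (fun _ : Fin (n + 1) => ℝ) 0
  have h3 : MeasurePreserving (MeasurableEquiv.prodCongr (MeasurableEquiv.refl ℝ)
      (MeasurableEquiv.toLp 2 (Fin n → ℝ))) volume volume := by
    have h4 := (EuclideanSpace.volume_preserving_symm_measurableEquiv_toLp (Fin n)).symm
    exact (MeasurePreserving.id (volume : Measure ℝ)).prod h4
  exact (h1.trans h2).trans h3

theorem norm_cut {n : ℕ} (x : E (n + 1)) : ‖x‖ ^ 2 = (cut x).1 ^ 2 + ‖(cut x).2‖ ^ 2 := by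
  rw [EuclideanSpace.norm_sq_eq, EuclideanSpace.norm_sq_eq, Fin.sum_univ_succ]
  unfold cut
  simp

/-- the ball in the coordinates `cut` -/
def B' (n : ℕ) : Set (ℝ × E n) := {p | p.1 ^ 2 + ‖p.2‖ ^ 2 ≤ 1}

theorem B'_closed (n : ℕ) : IsClosed (B' n) := by
  unfold B'
  exact isClosed_le (by fun_prop) continuous_const

theorem pre (n : ℕ) : (cutE n) ⁻¹' (B' n) = Metric.closedBall (0 : E (n + 1)) 1 := by
  ext x
  rw [mem_preimage, cutE_apply, mem_closedBall_zero_iff]
  unfold B'
  rw [mem_setOf_eq, ← norm_cut]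
  constructor
  · intro h
    have := norm_nonneg x
    nlinarith
  · intro h
    have := norm_nonneg x
    nlinarith

theorem slice_in {n : ℕ} {t : ℝ} (ht : t ∈ Icc (-1 : ℝ) 1) :
    {y : E n | (t, y) ∈ B' n} = Metric.closedBall 0 (√(1 - t ^ 2)) := by
  ext y
  have h1 : 0 ≤ 1 - t ^ 2 := by nlinarith [ht.1, ht.2]
  unfold B'
  rw [mem_setOf_eq, mem_setOf_eq, mem_closedBall_zero_iff, Real.le_sqrt (norm_nonneg y) h1]
  constructor <;> intro h <;> linarith

theorem slice_out {n : ℕ} {t : ℝ} (ht : t ∉ Icc (-1 : ℝ) 1) :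
    {y : E n | (t, y) ∈ B' n} = ∅ := by
  ext y
  unfold B'
  rw [mem_setOf_eq, mem_setOf_eq]
  simp only [mem_empty_iff_false, iff_false, not_le]
  have h1 : 1 < t ^ 2 := by
    by_contra h
    push Not at h
    apply ht
    rw [mem_Icc]
    constructor
    · nlinarith
    · nlinarith
  have := sq_nonneg ‖y‖
  linarith

theorem vol_slice (n : ℕ) {t : ℝ} (ht : t ∈ Icc (-1 : ℝ) 1) :
    volume.real {y : E n | (t, y) ∈ B' n} = √(1 - t ^ 2) ^ n * om n := by
  rw [slice_in ht]
  unfold Measure.real om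
  rw [Measure.addHaar_closedBall _ _ (Real.sqrt_nonneg _), ENNReal.toReal_mul,
    ENNReal.toReal_ofReal (by positivity), finrank_euclideanSpace_fin]

theorem fub (n : ℕ) (g : ℝ → ℂ) (hg : Continuous g) (M : ℝ) (hM : ∀ t, ‖g t‖ ≤ M) :
    ∫ x in Metric.closedBall (0 : E (n + 1)) 1, g (x 0) =
      ∫ t in (-1 : ℝ)..1, ((√(1 - t ^ 2) ^ n * om n : ℝ) : ℂ) * g t := by
  have h1 : ∫ x in Metric.closedBall (0 : E (n + 1)) 1, g (x 0) =
      ∫ p in B' n, g p.1 := by
    rw [← pre n]
    exact (mp n).setIntegral_preimage_emb (cutE n).measurableEmbedding (fun p => g p.1) (B' n)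
  have hms : MeasurableSet (B' n) := (B'_closed n).measurableSet
  have hfin : volume (B' n) ≠ ∞ := by
    rw [← (mp n).measure_preimage hms.nullMeasurableSet, pre n]
    exact measure_closedBall_lt_top.ne
  have hint : IntegrableOn (fun p : ℝ × E n => g p.1) (B' n) := by
    apply Measure.integrableOn_of_bounded (M := M) hfin
    · exact (hg.comp continuous_fst).aestronglyMeasurable
    · exact Filter.Eventually.of_forall (fun p => hM p.1)
  rw [h1, ← integral_indicator hms]
  rw [Measure.volume_eq_prod, integral_prod _ ((integrable_indicator_iff hms).2 hint)]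
  have h2 : ∀ t : ℝ, ∫ y : E n, (B' n).indicator (fun p : ℝ × E n => g p.1) (t, y) =
      (Icc (-1 : ℝ) 1).indicator (fun t => ((√(1 - t ^ 2) ^ n * om n : ℝ) : ℂ) * g t) t := by
    intro t
    have hs : MeasurableSet {y : E n | (t, y) ∈ B' n} := by
      have : Measurable (fun y : E n => (t, y)) := by fun_prop
      exact this hms
    have h3 : (fun y : E n => (B' n).indicator (fun p : ℝ × E n => g p.1) (t, y)) =
        {y : E n | (t, y) ∈ B' n}.indicator (fun _ => g t) := by
      funext y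
      by_cases hy : (t, y) ∈ B' n
      · have hy2 : y ∈ {y : E n | (t, y) ∈ B' n} := hy
        rw [indicator_of_mem hy, indicator_of_mem hy2]
      · have hy2 : y ∉ {y : E n | (t, y) ∈ B' n} := hy
        rw [indicator_of_notMem hy, indicator_of_notMem hy2]
    rw [h3, integral_indicator_const _ hs]
    by_cases ht : t ∈ Icc (-1 : ℝ) 1
    · rw [vol_slice n ht, indicator_of_mem ht, Complex.real_smul]
    · rw [slice_out ht, indicator_of_notMem ht]
      simp
  simp_rw [h2]
  rw [integral_indicator measurableSet_Icc, integral_Icc_eq_integral_Ioc,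
    ← intervalIntegral.integral_of_le (by norm_num)]

theorem odd_part (n : ℕ) (a : ℝ) :
    ∫ t in (-1 : ℝ)..1, ((√(1 - t ^ 2) ^ n * om n : ℝ) : ℂ) *
      Complex.exp (((-(a * t) : ℝ) : ℂ) * Complex.I) = ((om n * G (n + 1) a : ℝ) : ℂ) := by
  set F : ℝ → ℂ := fun t => ((√(1 - t ^ 2) ^ n * om n : ℝ) : ℂ) *
      Complex.exp (((-(a * t) : ℝ) : ℂ) * Complex.I) with hF
  have hc : Continuous F := by
    rw [hF]
    fun_prop
  have hc2 : Continuous (fun t => F (-t)) := hc.comp continuous_neg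
  have h1 : ∫ t in (-1 : ℝ)..1, F (-t) = ∫ t in (-1 : ℝ)..1, F t := by
    rw [intervalIntegral.integral_comp_neg]
    simp
  have h2 : ∫ t in (-1 : ℝ)..1, F t = ∫ t in (-1 : ℝ)..1, (1 / 2 : ℂ) * (F t + F (-t)) := by
    rw [intervalIntegral.integral_const_mul, intervalIntegral.integral_add
      (hc.intervalIntegrable _ _) (hc2.intervalIntegrable _ _), h1]
    ring
  rw [h2]
  have h3 : ∀ t ∈ uIcc (-1 : ℝ) 1, (1 / 2 : ℂ) * (F t + F (-t)) =
      ((om n * ((1 - t ^ 2) ^ ((((n + 1 : ℕ) : ℝ) - 1) / 2) * cos (a * t)) : ℝ) : ℂ) := by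
    intro t ht
    rw [uIcc_of_le (by norm_num)] at ht
    have h4 : 0 ≤ 1 - t ^ 2 := by nlinarith [ht.1, ht.2]
    have h5 : (1 - t ^ 2) ^ ((((n + 1 : ℕ) : ℝ) - 1) / 2) = √(1 - t ^ 2) ^ n := by
      generalize 1 - t ^ 2 = s at h4
      rw [Real.sqrt_eq_rpow, ← Real.rpow_natCast, ← Real.rpow_mul h4]
      congr 1
      push_cast
      ring
    rw [h5, hF]
    simp only
    have h6 : (-t) ^ 2 = t ^ 2 := by ring
    rw [h6]
    have h7 : Complex.exp (((-(a * t) : ℝ) : ℂ) * Complex.I) +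
        Complex.exp (((-(a * -t) : ℝ) : ℂ) * Complex.I) = 2 * Complex.cos ((a * t : ℝ) : ℂ) := by
      rw [Complex.cos]
      push_cast
      ring_nf
    calc (1 / 2 : ℂ) * (((√(1 - t ^ 2) ^ n * om n : ℝ) : ℂ) *
          Complex.exp (((-(a * t) : ℝ) : ℂ) * Complex.I) + ((√(1 - t ^ 2) ^ n * om n : ℝ) : ℂ) *
          Complex.exp (((-(a * -t) : ℝ) : ℂ) * Complex.I))
        = (1 / 2 : ℂ) * ((√(1 - t ^ 2) ^ n * om n : ℝ) : ℂ) *
          (Complex.exp (((-(a * t) : ℝ) : ℂ) * Complex.I) +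
            Complex.exp (((-(a * -t) : ℝ) : ℂ) * Complex.I)) := by ring
      _ = _ := by
          rw [h7]
          push_cast
          ring
  rw [intervalIntegral.integral_congr h3, intervalIntegral.integral_ofReal,
    intervalIntegral.integral_const_mul]
  rfl

theorem rot (n : ℕ) (ξ : E (n + 1)) (R : E (n + 1) ≃ₗᵢ[ℝ] E (n + 1)) :
    ft (Metric.closedBall (0 : E (n + 1)) 1) (R ξ) = ft (Metric.closedBall (0 : E (n + 1)) 1) ξ := by
  unfold ft
  have h1 : R ⁻¹' (Metric.closedBall (0 : E (n + 1)) 1) = Metric.closedBall (0 : E (n + 1)) 1 := by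
    ext x
    simp
  have h2 := R.measurePreserving.setIntegral_preimage_emb R.toHomeomorph.measurableEmbedding
    (fun x => Complex.exp (((-2 * π * inner ℝ x (R ξ) : ℝ) : ℂ) * Complex.I))
    (Metric.closedBall (0 : E (n + 1)) 1)
  rw [← h2, h1]
  simp only [LinearIsometryEquiv.inner_map_map]

end ModSLI

open ModSLI in
/-- SLI: slicing the ball perpendicular to the frequency. -/
theorem sli : StmSLI := by
  intro n ξ
  obtain ⟨R, hR⟩ : ∃ R : E (n + 1) ≃ₗᵢ[ℝ] E (n + 1), R ξ = EuclideanSpace.single 0 ‖ξ‖ := by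
    refine ⟨(ℝ ∙ (ξ - EuclideanSpace.single 0 ‖ξ‖))ᗮ.reflection, ?_⟩
    apply Submodule.reflection_sub
    simp
  rw [← rot n ξ R, hR]
  unfold ft
  have h1 : ∀ x : E (n + 1), Complex.exp (((-2 * π * inner ℝ x (EuclideanSpace.single 0 ‖ξ‖) : ℝ) : ℂ) *
      Complex.I) = (fun t : ℝ => Complex.exp (((-(2 * π * ‖ξ‖ * t) : ℝ) : ℂ) * Complex.I)) (x 0) := by
    intro x
    simp only
    congr 3
    rw [EuclideanSpace.inner_single_right]
    simp
    ring
  simp_rw [h1]
  rw [fub n (fun t : ℝ => Complex.exp (((-(2 * π * ‖ξ‖ * t) : ℝ) : ℂ) * Complex.I)) (by fun_prop) 1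
    (by
      intro t
      rw [Complex.norm_exp_ofReal_mul_I])]
  exact odd_part n (2 * π * ‖ξ‖)

end H50.QN
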