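import Pool.Agent.T6.H50.QN.Defs

/-! Module SU1 of project QN: the periodisation of `sinc^2` is one (Parseval). -/

open MeasureTheory Real Filter Topology Set

namespace H50.QN

theorem su1_coeff (x : ℝ) (n : ℤ) :
    fourierCoeffOn (show (-(1/2) : ℝ) < 1/2 by norm_num)
      (fun t : ℝ => Complex.exp (((-(2 * π * x * t) : ℝ) : ℂ) * Complex.I)) n
      = ((sinc (π * (x + n)) : ℝ) : ℂ) := by
  rw [fourierCoeffOn_eq_integral]
  have hba : (1/2 : ℝ) - -(1/2) = 1 := by norm_num
  have h1 : ∀ t : ℝ, (fourier (-n) (t : AddCircle ((1/2 : ℝ) - -(1/2))) : ℂ) •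
      Complex.exp (((-(2 * π * x * t) : ℝ) : ℂ) * Complex.I)
      = Complex.exp ((-(2 * π * (x + n)) * Complex.I : ℂ) * t) := by
    intro t
    rw [fourier_coe_apply, smul_eq_mul, ← Complex.exp_add]
    congr 1
    have : (((1/2 : ℝ) - -(1/2) : ℝ) : ℂ) = 1 := by rw [hba]; simp
    rw [this]
    push_cast
    ring
  simp_rw [h1]
  rw [hba]
  by_cases hx : x + n = 0
  · have hx' : ((x : ℂ) + n) = 0 := by exact_mod_cast congrArg (fun y : ℝ => (y : ℂ)) hx
    rw [hx, hx']
    simp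
    norm_num
  · have hx' : ((x : ℂ) + n) ≠ 0 := by
      intro h
      apply hx
      exact_mod_cast h
    have hc : (-(2 * π * (x + n)) * Complex.I : ℂ) ≠ 0 := by
      have : (π : ℂ) ≠ 0 := by exact_mod_cast Real.pi_ne_zero
      simp [this, hx', Complex.I_ne_zero]
    rw [integral_exp_mul_complex hc]
    rw [Real.sinc_of_ne_zero (mul_ne_zero Real.pi_ne_zero hx)]
    have hs : ((Real.sin (π * (x + n)) : ℝ) : ℂ) = Complex.sin (π * (x + n)) := by
      push_cast; rfl
    push_cast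
    rw [Complex.sin]
    have hpi : (π : ℂ) ≠ 0 := by exact_mod_cast Real.pi_ne_zero
    have e1 : (-(2 * π * (x + n)) * Complex.I : ℂ) * (1/2) = -(π * (x + n)) * Complex.I := by ring
    have e2 : (-(2 * π * (x + n)) * Complex.I : ℂ) * (-(1/2)) = (π * (x + n)) * Complex.I := by ring
    simp only [one_div] at e1 e2 ⊢
    rw [e1, e2]
    rw [inv_one, one_smul]
    field_simp
    ring_nf
    simp only [Complex.I_sq]
    ring

theorem su1 : StmSU1 := by
  intro x
  have hab : (-(1/2) : ℝ) < 1/2 := by norm_num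
  set f : ℝ → ℂ := fun t : ℝ => Complex.exp (((-(2 * π * x * t) : ℝ) : ℂ) * Complex.I) with hf
  have hnorm : ∀ t, ‖f t‖ = 1 := fun t => by
    rw [hf]; exact Complex.norm_exp_ofReal_mul_I _
  have hcont : Continuous f := by
    rw [hf]; fun_prop
  have hL2 : MemLp f 2 (volume.restrict (Ioc (-(1/2) : ℝ) (1/2))) := by
    apply MemLp.of_bound (C := 1) hcont.aestronglyMeasurable
    exact Eventually.of_forall fun t => (hnorm t).le
  have h := hasSum_sq_fourierCoeffOn hab hL2
  have h2 : ((1/2 : ℝ) - -(1/2))⁻¹ • ∫ t in (-(1/2) : ℝ)..(1/2), ‖f t‖ ^ 2 = 1 := by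
    simp_rw [hnorm]
    norm_num
  rw [h2] at h
  have h3 : (fun n : ℤ => sinc (π * (x + n)) ^ 2)
      = fun n : ℤ => ‖fourierCoeffOn hab f n‖ ^ 2 := by
    funext n
    have hn := su1_coeff x n
    rw [← hf] at hn
    rw [show fourierCoeffOn hab f n = ((sinc (π * (x + n)) : ℝ) : ℂ) from hn,
      Complex.norm_real, Real.norm_eq_abs, sq_abs]
  rw [h3]
  exact h

end H50.QN
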