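import Pool.Agent.T6.H50.QN.Fin2
import Pool.Agent.T6.H50.QN.AFF
import Pool.Agent.T6.H50.QN.SLI
import Pool.Agent.T6.H50.QN.POL
import Pool.Agent.T6.H50.QN.PLA
import Pool.Agent.T6.H50.QN.NOR
import Pool.Agent.T6.H50.QN.BES
import Pool.Agent.T6.H50.QN.DEC
import Pool.Agent.T6.H50.QN.LIN
import Pool.Agent.T6.H50.QN.REC
import Pool.Agent.T6.H50.QN.PTW
import Pool.Agent.T6.H50.QN.LAM
import Pool.Agent.T6.H50.QN.CUB
import Pool.Agent.T6.H50.QN.SU1
import Pool.Agent.T6.H50.QN.SIN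
import Pool.Agent.T6.H50.QN.LIM
import Pool.Agent.T6.H50.QN.OMR
import Pool.Agent.T6.H50.QN.INT
import Pool.Agent.T6.H50.QN.MOM
import Pool.Agent.T6.H50.QN.JLU
import Pool.Agent.T6.H50.QN.EBD
import Pool.Agent.T6.H50.QN.LA2
import Pool.Agent.T6.H50.QN.NU2

/-! Project QN: all modules together. -/

open MeasureTheory Real Filter Topology Set
open scoped ENNReal RealInnerProductSpace

namespace H50.QN

theorem tPOL : StmPOL := pol sli
theorem tNOR : StmNOR := nor tPOL pla omr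
theorem tDEC : StmDEC := dec bes
theorem tLIN : StmLIN := lin bes tDEC
theorem tREC : StmREC := vrec bes tDEC tNOR omr tLIN
theorem tPTW : StmPTW := ptw bes tNOR
theorem tSIN : StmSIN := sn su1 lam
theorem tINT : StmINT := int2 bes tDEC
theorem tMOM : StmMOM := mom bes tDEC tINT
theorem tEBD : StmEBD := ebd tINT tMOM (jlu tINT)
theorem tLA2 : StmLA2 := la2 tREC tEBD

/-- Ellipsoids lose against the cube for `q` close to `2` in every dimension `d ≥ 70`. -/
theorem all70 (d : ℕ) (hd : 70 ≤ d) :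
    ∃ q₀ : ℝ, 2 < q₀ ∧ ∀ q : ℝ, 2 < q → q < q₀ → ∀ A : Set (E d), IsEll A →
      volume A = 1 → Phi q A < Phi q (cube d) :=
  fin70 aff sli tPOL tNOR bes tLIN tPTW cub tSIN lim omr tEBD tLA2 (nu2 omr) d hd

end H50.QN
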