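import Pool.Agent.T6.H50.QN.Defs3
import Pool.Agent.T6.H50.QN.All

/-! Project QN, module D3: the entropy comparison in dimension three. -/

open MeasureTheory Real Filter Topology Set
open scoped ENNReal RealInnerProductSpace

namespace H50.QN

namespace ModD3

lemma G_three {z : ℝ} (hz : 0 < z) : G 3 z = 4 * vv z / z ^ 2 := by
  obtain ⟨H, h1, h2, -⟩ := bes 1 le_rfl
  have e1 : HasDerivAt (G 1) (2 * ((cos z * z - sin z * 1) / z ^ 2)) z := by
    have h := (((hasDerivAt_sin z).div (hasDerivAt_id z) hz.ne').const_mul 2)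
    refine h.congr_of_eventuallyEq ?_
    filter_upwards [isOpen_ne.mem_nhds hz.ne'] with x hx
    exact G_one hx
  have e2 : H z = 2 * ((cos z * z - sin z * 1) / z ^ 2) := (h1 z).unique e1
  have e3 := h2 z
  rw [e2] at e3
  norm_num at e3
  have hz' := hz.ne'
  have e4 : z ^ 3 * G 3 z = 4 * (sin z - cos z * z) := by
    have : z ^ 2 * (2 * ((cos z * z - sin z) / z ^ 2)) = z ^ 2 * (-(z / 2 * G 3 z)) := by rw [e3]
    have h5 : z ^ 2 * (2 * ((cos z * z - sin z) / z ^ 2)) = 2 * (cos z * z - sin z) := by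
      field_simp
    rw [h5] at this
    linarith
  have e5 : G 3 z = 4 * (sin z - cos z * z) / z ^ 3 := by
    rw [← e4]; field_simp
  rw [e5]
  unfold vv
  field_simp

lemma om_two : om 2 = π := by
  have := omr.2.2.1 0
  rw [omr.1] at this
  norm_num at this
  exact this

lemma om_three : om 3 = 4 * π / 3 := by
  have := omr.2.2.1 1
  rw [omr.2.1] at this
  norm_num at this
  rw [this]; ring

lemma NN_three : NN 3 = 8 * π / 3 := by
  have := (tNOR 2).2
  rw [om_two] at this
  norm_num at this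
  rw [this]
  have := pi_ne_zero
  field_simp
  ring

lemma log_three_lt : log 3 < 27 * 0.6931471808 / 17 := by
  have h1 : log ((3 : ℝ) ^ 17) < log ((2 : ℝ) ^ 27) :=
    log_lt_log (by norm_num) (by norm_num)
  rw [log_pow, log_pow] at h1
  have h2 := Real.log_two_lt_d9
  push_cast at h1
  rw [lt_div_iff₀ (by norm_num)]
  linarith

/-- the comparison function -/
noncomputable def ll (z : ℝ) : ℝ :=
  2 * log z - log 3 + 1 / 2 * (if z ≤ 3 / 2 then -log (vv z ^ 2) else 1 - vv z ^ 2)

lemma vv_meas : Measurable vv := by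
  unfold vv
  fun_prop

lemma ll_meas : Measurable ll := by
  have h := vv_meas
  have h1 : Measurable (fun z : ℝ => if z ≤ 3 / 2 then -log (vv z ^ 2) else 1 - vv z ^ 2) :=
    Measurable.ite measurableSet_Iic (by fun_prop) (by fun_prop)
  unfold ll
  fun_prop

lemma abs_le_exp (x : ℝ) : |x| ≤ exp (-(1 - x ^ 2) / 2) := by
  by_cases hx : x = 0
  · rw [hx, abs_zero]; exact (exp_pos _).le
  have h0 : 0 < |x| := abs_pos.mpr hx
  have h1 := Real.add_one_le_exp (log |x|)
  have h2 : log (|x| ^ 2) ≤ |x| ^ 2 - 1 := Real.log_le_sub_one_of_pos (by positivity)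
  rw [log_pow] at h2
  push_cast at h2
  rw [sq_abs] at h2
  calc |x| = exp (log |x|) := (exp_log h0).symm
    _ ≤ _ := by
      apply exp_le_exp.mpr
      linarith

lemma le_exp_ll {z : ℝ} (hz : 0 < z) : om 2 * |G 3 z| / om 3 ≤ exp (-ll z) := by
  rw [om_two, om_three, G_three hz, abs_div, abs_mul]
  have hz2 : |z ^ 2| = z ^ 2 := abs_of_pos (by positivity)
  have h4 : |(4 : ℝ)| = 4 := abs_of_pos (by norm_num)
  rw [hz2, h4]
  have e1 : π * (4 * |vv z| / z ^ 2) / (4 * π / 3) = 3 / z ^ 2 * |vv z| := by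
    have := pi_ne_zero
    field_simp
  rw [e1]
  unfold ll
  have e2 : ∀ t : ℝ, exp (-(2 * log z - log 3 + 1 / 2 * t)) = 3 / z ^ 2 * exp (-t / 2) := by
    intro t
    have : -(2 * log z - log 3 + 1 / 2 * t) = log 3 + (-t / 2) - ((2 : ℕ) : ℝ) * log z := by
      push_cast; ring
    rw [this, exp_sub, exp_add, exp_log (by norm_num), ← log_pow, exp_log (by positivity)]
    ring
  rw [e2]
  apply mul_le_mul_of_nonneg_left _ (by positivity)
  split_ifs with h
  · by_cases hv : vv z = 0
    · rw [hv, abs_zero]; exact (exp_pos _).le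
    · have h0 : 0 < |vv z| := abs_pos.mpr hv
      have : - -log (vv z ^ 2) / 2 = log |vv z| := by
        rw [← sq_abs, log_pow]; push_cast; ring
      rw [this, exp_log h0]
  · exact abs_le_exp _

end ModD3

open ModD3 in
theorem d3 (h1 : StmJ3) (h2 : StmD3N) : StmD3 := by
  have hpi := pi_pos
  have hpi0 := pi_ne_zero
  have hN0 : NN 3 ≠ 0 := by rw [NN_three]; positivity
  set W : ℝ → ℝ := fun z => z ^ 2 * G 3 z ^ 2 / NN 3 with hW
  have hWeq : ∀ z, 0 < z → W z = 6 / π * (vv z ^ 2 / z ^ 2) := by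
    intro z hz
    simp only [hW]
    rw [G_three hz, NN_three]
    field_simp
    ring
  have hi := (tNOR 2).1
  have hWi : IntegrableOn W (Ioi 0) := by
    simp only [hW]
    exact hi.div_const _
  have hW1 : ∫ z in Ioi (0 : ℝ), W z = 1 := by
    simp only [hW]
    rw [integral_div]
    exact div_self hN0
  have hLi := tLIN 3 (by norm_num)
  have hLi' : IntegrableOn (fun z : ℝ => W z * log z) (Ioi 0) := by
    have : (fun z : ℝ => W z * log z) =
        fun z : ℝ => (z ^ (3 - 1) * G 3 z ^ 2 * log z) / NN 3 := by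
      ext z; simp only [hW]; norm_num; ring
    rw [this]
    exact hLi.div_const _
  have hL : ∫ z in Ioi (0 : ℝ), W z * log z = LL 3 / NN 3 := by
    have : (fun z : ℝ => W z * log z) =
        fun z : ℝ => (z ^ (3 - 1) * G 3 z ^ 2 * log z) / NN 3 := by
      ext z; simp only [hW]; norm_num; ring
    rw [this, integral_div]
    rfl
  -- the fourth moment
  have hQ : ∀ z, 0 < z → W z * vv z ^ 2 = 6 / π * (vv z ^ 4 / z ^ 2) := by
    intro z hz
    rw [hWeq z hz]; ring
  have hQi : IntegrableOn (fun z => W z * vv z ^ 2) (Ioi 0) := by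
    refine (IntegrableOn.congr_fun (h1.1.const_mul (6 / π)) ?_ measurableSet_Ioi)
    intro z hz
    exact (hQ z hz).symm
  have hQ1 : ∫ z in Ioi (0 : ℝ), W z * vv z ^ 2 = 7 / 10 := by
    rw [setIntegral_congr_fun measurableSet_Ioi (fun z hz => hQ z hz), integral_const_mul, h1.2]
    field_simp
    norm_num
  -- the part near zero
  set R : ℝ → ℝ := (Iic (3 / 2 : ℝ)).indicator
    (fun z => W z * (-log (vv z ^ 2) - 1 + vv z ^ 2)) with hR
  have hsub : Ioi (0 : ℝ) ∩ Iic (3 / 2) = Ioc 0 (3 / 2) := rfl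
  have hPi : IntegrableOn (fun z => W z * (-log (vv z ^ 2) - 1 + vv z ^ 2)) (Ioc 0 (3 / 2)) := by
    refine (IntegrableOn.congr_fun (h2.1.const_mul (6 / π)) ?_ measurableSet_Ioc)
    intro z hz
    simp only
    rw [hWeq z hz.1]; ring
  have hRi : IntegrableOn R (Ioi 0) := by
    rw [hR, integrableOn_indicator_iff measurableSet_Iic, inter_comm, hsub]
    exact hPi
  have hR1 : 9 / 40 ≤ ∫ z in Ioi (0 : ℝ), R z := by
    rw [hR, setIntegral_indicator measurableSet_Iic, hsub]
    refine h2.2.trans (le_of_eq ?_)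
    rw [← integral_const_mul]
    apply setIntegral_congr_fun measurableSet_Ioc
    intro z hz
    simp only
    rw [hWeq z hz.1]; ring
  have hsplit : ∀ z, W z * ll z = 2 * (W z * log z) + (-log 3) * W z +
      (1 / 2) * (W z - W z * vv z ^ 2) + (1 / 2) * R z := by
    intro z
    unfold ll
    simp only [hR]
    by_cases h : z ≤ 3 / 2
    · rw [if_pos h, indicator_of_mem (by exact h)]; ring
    · rw [if_neg h, indicator_of_notMem (by exact h)]; ring
  have i1 := hLi'.const_mul 2
  have i2 := hWi.const_mul (-log 3)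
  have i3 : IntegrableOn (fun z => (1 / 2 : ℝ) * (W z - W z * vv z ^ 2)) (Ioi 0) :=
    (hWi.sub hQi).const_mul (1 / 2)
  have i4 : IntegrableOn (fun z => (1 / 2 : ℝ) * R z) (Ioi 0) := hRi.const_mul (1 / 2)
  have i12 : IntegrableOn (fun z => 2 * (W z * log z) + (-log 3) * W z) (Ioi 0) := i1.add i2
  have i123 : IntegrableOn (fun z => 2 * (W z * log z) + (-log 3) * W z +
      (1 / 2) * (W z - W z * vv z ^ 2)) (Ioi 0) := i12.add i3
  have hint : IntegrableOn (fun z => W z * ll z) (Ioi 0) := by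
    simp_rw [hsplit]
    exact i123.add i4
  refine ⟨ll, ll_meas, fun z hz => le_exp_ll hz, hint, ?_⟩
  have hval : ∫ z in Ioi (0 : ℝ), W z * ll z = 2 * (LL 3 / NN 3) - log 3 +
      (1 / 2) * (1 - 7 / 10) + (1 / 2) * ∫ z in Ioi (0 : ℝ), R z := by
    simp_rw [hsplit]
    rw [integral_add i123 i4, integral_add i12 i3, integral_add i1 i2,
      integral_const_mul, integral_const_mul, integral_const_mul, integral_const_mul,
      integral_sub hWi hQi, hW1, hQ1, hL]
    ring
  change 3 * (log 2 + LL 1 / NN 1) < ∫ z in Ioi (0 : ℝ), W z * ll z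
  rw [hval]
  have hrec := tREC 1 le_rfl
  norm_num at hrec
  have hlam := tLA2
  unfold StmLA2 at hlam
  have hl3 := log_three_lt
  have hl2 := Real.log_two_lt_d9
  rw [hrec]
  linarith

end H50.QN
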