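import Pool.Agent.T6.H50.QN.Defs3

/-! Project QN, module D3N: numerical integral in dimension three. -/

set_option autoImplicit false

open MeasureTheory Real Filter Topology Set

namespace H50.QN
namespace ModD3Nx

/-- `cos x ≤ 1 - x^2/2 + x^4/24` for `x ≥ 0` -/
lemma cos_le4 {x : ℝ} (hx : 0 ≤ x) : cos x ≤ 1 - x ^ 2 / 2 + x ^ 4 / 24 := by
  have hm : MonotoneOn (fun x : ℝ => 1 - x ^ 2 / 2 + x ^ 4 / 24 - cos x) (Ici 0) := by
    apply monotoneOn_of_deriv_nonneg (convex_Ici 0)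
    · fun_prop
    · fun_prop
    · intro y hy
      rw [interior_Ici] at hy
      have hd : HasDerivAt (fun x : ℝ => 1 - x ^ 2 / 2 + x ^ 4 / 24 - cos x)
          (-y + y ^ 3 / 6 + sin y) y := by
        have h1 := ((((hasDerivAt_pow 2 y).div_const 2).const_sub 1).add
          ((hasDerivAt_pow 4 y).div_const 24)).sub (Real.hasDerivAt_cos y)
        refine h1.congr_deriv ?_
        norm_num
        ring
      rw [hd.deriv]
      have := sin_ge_sub_cube (le_of_lt hy)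
      linarith
  have := hm (mem_Ici.mpr le_rfl) (mem_Ici.mpr hx) hx
  simp only at this
  norm_num at this
  linarith

/-- `sin x ≤ x - x^3/6 + x^5/120` for `x ≥ 0` -/
lemma sin_le5 {x : ℝ} (hx : 0 ≤ x) : sin x ≤ x - x ^ 3 / 6 + x ^ 5 / 120 := by
  have hm : MonotoneOn (fun x : ℝ => x - x ^ 3 / 6 + x ^ 5 / 120 - sin x) (Ici 0) := by
    apply monotoneOn_of_deriv_nonneg (convex_Ici 0)
    · fun_prop
    · fun_prop
    · intro y hy
      rw [interior_Ici] at hy
      have hd : HasDerivAt (fun x : ℝ => x - x ^ 3 / 6 + x ^ 5 / 120 - sin x)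
          (1 - y ^ 2 / 2 + y ^ 4 / 24 - cos y) y := by
        have h1 := (((hasDerivAt_id y).sub ((hasDerivAt_pow 3 y).div_const 6)).add
          ((hasDerivAt_pow 5 y).div_const 120)).sub (Real.hasDerivAt_sin y)
        refine h1.congr_deriv ?_
        norm_num
        ring
      rw [hd.deriv]
      have := cos_le4 (le_of_lt hy)
      linarith
  have := hm (mem_Ici.mpr le_rfl) (mem_Ici.mpr hx) hx
  simp only at this
  norm_num at this
  linarith

lemma k_ge {x : ℝ} (hx : 0 ≤ x) : x ^ 3 / 3 - x ^ 5 / 30 ≤ sin x - x * cos x := by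
  have hm : MonotoneOn (fun x : ℝ => sin x - x * cos x - (x ^ 3 / 3 - x ^ 5 / 30)) (Ici 0) := by
    apply monotoneOn_of_deriv_nonneg (convex_Ici 0)
    · fun_prop
    · fun_prop
    · intro y hy
      rw [interior_Ici] at hy
      have hy0 : 0 < y := hy
      have hd : HasDerivAt (fun x : ℝ => sin x - x * cos x - (x ^ 3 / 3 - x ^ 5 / 30))
          (y * (sin y - (y - y ^ 3 / 6))) y := by
        have h1 := ((Real.hasDerivAt_sin y).sub ((hasDerivAt_id y).mul
          (Real.hasDerivAt_cos y))).sub (((hasDerivAt_pow 3 y).div_const 3).sub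
            ((hasDerivAt_pow 5 y).div_const 30))
        refine h1.congr_deriv ?_
        simp only [id_eq]
        norm_num
        ring
      rw [hd.deriv]
      have := sin_ge_sub_cube hy0.le
      apply mul_nonneg hy0.le
      linarith
  have := hm (mem_Ici.mpr le_rfl) (mem_Ici.mpr hx) hx
  simp only at this
  norm_num at this
  linarith

lemma k_le {x : ℝ} (hx : 0 ≤ x) : sin x - x * cos x ≤ x ^ 3 / 3 - x ^ 5 / 30 + x ^ 7 / 840 := by
  have hm : MonotoneOn (fun x : ℝ => x ^ 3 / 3 - x ^ 5 / 30 + x ^ 7 / 840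
      - (sin x - x * cos x)) (Ici 0) := by
    apply monotoneOn_of_deriv_nonneg (convex_Ici 0)
    · fun_prop
    · fun_prop
    · intro y hy
      rw [interior_Ici] at hy
      have hy0 : 0 < y := hy
      have hd : HasDerivAt (fun x : ℝ => x ^ 3 / 3 - x ^ 5 / 30 + x ^ 7 / 840
          - (sin x - x * cos x))
          (y * (y - y ^ 3 / 6 + y ^ 5 / 120 - sin y)) y := by
        have h1 := ((((hasDerivAt_pow 3 y).div_const 3).sub
            ((hasDerivAt_pow 5 y).div_const 30)).add ((hasDerivAt_pow 7 y).div_const 840)).sub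
            ((Real.hasDerivAt_sin y).sub ((hasDerivAt_id y).mul
          (Real.hasDerivAt_cos y)))
        refine h1.congr_deriv ?_
        simp only [id_eq]
        norm_num
        ring
      rw [hd.deriv]
      have := sin_le5 hy0.le
      apply mul_nonneg hy0.le
      linarith
  have := hm (mem_Ici.mpr le_rfl) (mem_Ici.mpr hx) hx
  simp only at this
  norm_num at this
  linarith

lemma vv_eq {z : ℝ} (hz : 0 < z) : vv z = (sin z - z * cos z) / z := by
  unfold vv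
  field_simp

lemma vv_ge {z : ℝ} (hz : 0 < z) : z ^ 2 / 3 * (1 - z ^ 2 / 10) ≤ vv z := by
  rw [vv_eq hz, le_div_iff₀ hz]
  have := k_ge hz.le
  nlinarith

lemma vv_le {z : ℝ} (hz : 0 < z) : vv z ≤ z ^ 2 / 3 * (1 + (-z ^ 2 / 10 + z ^ 4 / 280)) := by
  rw [vv_eq hz, div_le_iff₀ hz]
  have := k_le hz.le
  nlinarith

lemma vv_pos {z : ℝ} (hz : 0 < z) (h2 : z ≤ 3 / 2) : 0 < vv z := by
  refine lt_of_lt_of_le ?_ (vv_ge hz)
  have : z ^ 2 ≤ 9 / 4 := by nlinarith
  have h3 : 0 < 1 - z ^ 2 / 10 := by linarith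
  positivity

/-- the integrand -/
noncomputable def ff (z : ℝ) : ℝ := vv z ^ 2 / z ^ 2 * (-log (vv z ^ 2) - 1 + vv z ^ 2)

/-- the lower bound -/
noncomputable def ll (z : ℝ) : ℝ :=
  z ^ 2 / 9 * (1 - z ^ 2 / 5) * (-4 * log z + (2 * log 3 - 1) + z ^ 2 / 5 - z ^ 4 / 140)

lemma log_vv_le {z : ℝ} (hz : 0 < z) (h2 : z ≤ 3 / 2) :
    log (vv z ^ 2) ≤ 4 * log z - 2 * log 3 - z ^ 2 / 5 + z ^ 4 / 140 := by
  have hp := vv_pos hz h2
  rw [log_pow]
  have h1 : log (vv z) ≤ log (z ^ 2 / 3 * (1 + (-z ^ 2 / 10 + z ^ 4 / 280))) :=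
    log_le_log hp (vv_le hz)
  have hpos : 0 < 1 + (-z ^ 2 / 10 + z ^ 4 / 280) := by
    have : z ^ 2 ≤ 9 / 4 := by nlinarith
    have : 0 ≤ z ^ 4 := by positivity
    nlinarith
  rw [log_mul (by positivity) hpos.ne', log_div (by positivity) (by norm_num), log_pow] at h1
  have h3 := log_le_sub_one_of_pos hpos
  push_cast at *
  linarith

lemma phi_nonneg {x : ℝ} (hx : 0 < x) : 0 ≤ -log x - 1 + x := by
  have := log_le_sub_one_of_pos hx
  linarith

lemma ll_le {z : ℝ} (hz : 0 < z) (h2 : z ≤ 3 / 2) : ll z ≤ ff z := by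
  have hp := vv_pos hz h2
  have h1 := vv_ge hz
  have hz2 : z ^ 2 ≤ 9 / 4 := by nlinarith
  have hphi := phi_nonneg (x := vv z ^ 2) (by positivity)
  have hlog := log_vv_le hz h2
  have hw : z ^ 2 / 9 * (1 - z ^ 2 / 5) ≤ vv z ^ 2 / z ^ 2 := by
    rw [le_div_iff₀ (by positivity)]
    have h4 : (z ^ 2 / 3 * (1 - z ^ 2 / 10)) ^ 2 ≤ vv z ^ 2 := by
      apply pow_le_pow_left₀ _ h1
      have : 0 ≤ 1 - z ^ 2 / 10 := by linarith
      positivity
    have h5 : (z ^ 2 / 3 * (1 - z ^ 2 / 10)) ^ 2 = z ^ 4 / 9 * (1 - z ^ 2 / 5) + z ^ 8 / 900 := by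
      ring
    have h6 : 0 ≤ z ^ 8 / 900 := by positivity
    nlinarith
  have hw0 : 0 ≤ z ^ 2 / 9 * (1 - z ^ 2 / 5) := by
    have : 0 ≤ 1 - z ^ 2 / 5 := by linarith
    positivity
  unfold ll ff
  calc z ^ 2 / 9 * (1 - z ^ 2 / 5) * (-4 * log z + (2 * log 3 - 1) + z ^ 2 / 5 - z ^ 4 / 140)
      ≤ z ^ 2 / 9 * (1 - z ^ 2 / 5) * (-log (vv z ^ 2) - 1 + vv z ^ 2) := by
        apply mul_le_mul_of_nonneg_left _ hw0
        have : 0 ≤ vv z ^ 2 := by positivity
        linarith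
    _ ≤ vv z ^ 2 / z ^ 2 * (-log (vv z ^ 2) - 1 + vv z ^ 2) :=
        mul_le_mul_of_nonneg_right hw hphi

/-- primitive of `ll` -/
noncomputable def L0 (z : ℝ) : ℝ :=
  1 / 9 * (-4 * (z ^ 2 * (z * log z) / 3 - z ^ 3 / 9) + 4 / 5 * (z ^ 4 * (z * log z) / 5 - z ^ 5 / 25)
    + (2 * log 3 - 1) * (z ^ 3 / 3 - z ^ 5 / 25) + z ^ 5 / 25 - z ^ 7 / 980 - z ^ 7 / 175
    + z ^ 9 / 6300)

lemma L0_cont : Continuous L0 := by
  unfold L0
  have := Real.continuous_mul_log
  fun_prop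

lemma L0_deriv {z : ℝ} (hz : 0 < z) : HasDerivAt L0 (ll z) z := by
  have hm : HasDerivAt (fun z : ℝ => z * log z) (log z + 1) z := Real.hasDerivAt_mul_log hz.ne'
  have h1 := ((((hasDerivAt_pow 2 z).mul hm).div_const 3).sub
    ((hasDerivAt_pow 3 z).div_const 9)).const_mul (-4)
  have h2 := ((((hasDerivAt_pow 4 z).mul hm).div_const 5).sub
    ((hasDerivAt_pow 5 z).div_const 25)).const_mul (4 / 5)
  have h3 := (((hasDerivAt_pow 3 z).div_const 3).sub
    ((hasDerivAt_pow 5 z).div_const 25)).const_mul (2 * log 3 - 1)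
  have h4 := ((((((h1.add h2).add h3).add ((hasDerivAt_pow 5 z).div_const 25)).sub
    ((hasDerivAt_pow 7 z).div_const 980)).sub ((hasDerivAt_pow 7 z).div_const 175)).add
    ((hasDerivAt_pow 9 z).div_const 6300)).const_mul (1 / 9)
  refine h4.congr_deriv ?_
  unfold ll
  norm_num
  ring

lemma ff_meas : Measurable ff := by
  unfold ff vv
  fun_prop

lemma ff_nonneg {z : ℝ} (hz : 0 < z) (h2 : z ≤ 3 / 2) : 0 ≤ ff z := by
  have hp := vv_pos hz h2
  have hphi := phi_nonneg (x := vv z ^ 2) (by positivity)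
  unfold ff
  positivity

lemma ff_le {z : ℝ} (hz : 0 < z) (h2 : z ≤ 3 / 2) : ff z ≤ 4 * |log z| + 5 := by
  have hp := vv_pos hz h2
  have hz2 : z ^ 2 ≤ 9 / 4 := by nlinarith
  have hv : vv z ≤ z ^ 2 / 3 := by
    refine (vv_le hz).trans ?_
    have h1 : -z ^ 2 / 10 + z ^ 4 / 280 ≤ 0 := by nlinarith [sq_nonneg z]
    have h3 : 0 ≤ z ^ 2 / 3 := by positivity
    nlinarith
  have hv2 : vv z ^ 2 ≤ (z ^ 2 / 3) ^ 2 := pow_le_pow_left₀ hp.le hv 2
  have hratio : vv z ^ 2 / z ^ 2 ≤ 1 := by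
    rw [div_le_one (by positivity)]
    nlinarith [sq_nonneg z]
  have hr0 : 0 ≤ vv z ^ 2 / z ^ 2 := by positivity
  have hphi := phi_nonneg (x := vv z ^ 2) (by positivity)
  have hv1 : vv z ^ 2 ≤ 1 := by nlinarith [sq_nonneg z]
  have hl : -log (vv z ^ 2) ≤ 4 * |log z| + 5 := by
    rw [log_pow]
    have h5 : log (z ^ 2 / 9) ≤ log (vv z) := by
      apply log_le_log (by positivity)
      refine le_trans ?_ (vv_ge hz)
      have : 0 < z ^ 2 := by positivity
      nlinarith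
    rw [log_div (by positivity) (by norm_num), log_pow] at h5
    have h9 : log 9 ≤ 2 * (log 3) := by
      rw [show (9 : ℝ) = 3 ^ 2 by norm_num, log_pow]
      norm_num
    have h3 : log 3 ≤ 1 + log 2 - 1 / 2 := by
      have h32 : log (3 / 2) ≤ 3 / 2 - 1 := log_le_sub_one_of_pos (by norm_num)
      rw [log_div (by norm_num) (by norm_num)] at h32
      linarith
    have h22 := log_two_lt_d9
    have h6 := neg_abs_le (log z)
    push_cast at *
    linarith
  unfold ff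
  calc vv z ^ 2 / z ^ 2 * (-log (vv z ^ 2) - 1 + vv z ^ 2)
      ≤ 1 * (-log (vv z ^ 2) - 1 + vv z ^ 2) := mul_le_mul_of_nonneg_right hratio hphi
    _ ≤ 4 * |log z| + 5 := by linarith

lemma ff_int : IntegrableOn ff (Ioc 0 (3 / 2)) := by
  have h1 : IntegrableOn (fun z : ℝ => 4 * |log z| + 5) (Ioc 0 (3 / 2)) := by
    have h2 : IntervalIntegrable log volume 0 (3 / 2) := intervalIntegral.intervalIntegrable_log'
    have h3 := (intervalIntegrable_iff_integrableOn_Ioc_of_le (by norm_num)).mp h2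
    have h4 : IntegrableOn (fun z : ℝ => |log z|) (Ioc 0 (3 / 2)) := h3.abs
    exact (h4.const_mul 4).add (integrableOn_const (by simp))
  refine Integrable.mono' h1 ff_meas.aestronglyMeasurable ?_
  filter_upwards [ae_restrict_mem measurableSet_Ioc] with z hz
  rw [Real.norm_eq_abs, abs_of_nonneg (ff_nonneg hz.1 hz.2)]
  exact ff_le hz.1 hz.2

lemma ll_cont : Continuous ll := by
  have h : ll = fun z : ℝ => 1 / 9 * (-4 * (z * (z * log z)) + 4 / 5 * (z ^ 3 * (z * log z))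
      + (z ^ 2 - z ^ 4 / 5) * ((2 * log 3 - 1) + z ^ 2 / 5 - z ^ 4 / 140)) := by
    funext z
    unfold ll
    ring
  rw [h]
  have := Real.continuous_mul_log
  fun_prop

lemma ll_integral : ∫ z in (0 : ℝ)..(3 / 2), ll z = L0 (3 / 2) - L0 0 := by
  apply intervalIntegral.integral_eq_sub_of_hasDerivAt_of_le (by norm_num)
  · exact L0_cont.continuousOn
  · intro z hz
    exact L0_deriv hz.1
  · exact ll_cont.intervalIntegrable _ _

lemma log_three_le : log 3 ≤ 11 / 10 := by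
  rw [log_le_iff_le_exp (by norm_num)]
  have h1 := Real.exp_one_gt_d9
  have h2 : (11 / 10 : ℝ) = 1 + 1 / 10 := by norm_num
  rw [h2, exp_add]
  have h3 : 1 + 1 / 10 + (1 / 10) ^ 2 / 2 ≤ exp (1 / 10 : ℝ) := by
    exact Real.quadratic_le_exp_of_nonneg (by norm_num)
  nlinarith [exp_pos (1 : ℝ)]

end ModD3Nx

open ModD3Nx in
theorem d3nx : StmD3N := by
  refine ⟨ff_int, ?_⟩
  have h1 : ∫ z in Ioc (0 : ℝ) (3 / 2), ll z ≤ ∫ z in Ioc (0 : ℝ) (3 / 2), ff z := by
    apply setIntegral_mono_on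
    · exact (intervalIntegrable_iff_integrableOn_Ioc_of_le (by norm_num)).mp
        (ll_cont.intervalIntegrable 0 (3 / 2))
    · exact ff_int
    · exact measurableSet_Ioc
    · intro z hz
      exact ll_le hz.1 hz.2
  rw [← intervalIntegral.integral_of_le (by norm_num), ll_integral] at h1
  have h2 : L0 0 = 0 := by
    unfold L0
    simp
  have h3 : log (3 / 2 : ℝ) = log 3 - log 2 := log_div (by norm_num) (by norm_num)
  have h4 : 6 / 5 / 10 ≤ L0 (3 / 2) := by
    unfold L0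
    rw [h3]
    have h5 := log_three_le
    have h6 := log_two_gt_d9
    norm_num
    linarith
  have h7 : ∫ z in Ioc (0 : ℝ) (3 / 2), ff z
      = ∫ z in Ioc (0 : ℝ) (3 / 2), vv z ^ 2 / z ^ 2 * (-log (vv z ^ 2) - 1 + vv z ^ 2) := rfl
  rw [← h7]
  have hpi := Real.pi_lt_d2
  have hpi0 := Real.pi_pos
  have h8 : 6 / 5 / 10 ≤ ∫ z in Ioc (0 : ℝ) (3 / 2), ff z := by linarith
  have h9 : 9 / 40 ≤ 6 / π * (6 / 5 / 10) := by
    rw [div_mul_eq_mul_div, le_div_iff₀ hpi0]
    linarith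
  have h10 : 0 ≤ 6 / π := by positivity
  nlinarith [mul_le_mul_of_nonneg_left h8 h10]

end H50.QN
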