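import Pool.Agent.T6.H50.QN.Defs3
import Pool.Agent.H153R4.Pl

/-! Project QN, module J3: the fourth moment in dimension three. -/

set_option autoImplicit false

open MeasureTheory Real Filter Topology Set
open scoped ENNReal RealInnerProductSpace FourierTransform

namespace H50.QN
namespace J3

noncomputable def F (z : ℝ) : ℝ := ∫ k in (0 : ℝ)..2, (1 - k ^ 2 / 2) * sin (z * k)

lemma F_closed (z : ℝ) (hz : 0 < z) : F z = 2 * vv z ^ 2 / z := by
  unfold F
  have hz' := hz.ne'
  have key : ∫ k in (0 : ℝ)..2, (1 - k ^ 2 / 2) * sin (z * k) =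
      (-(1 - 2 ^ 2 / 2) * cos (z * 2) / z - 2 * sin (z * 2) / z ^ 2 - cos (z * 2) / z ^ 3)
        - (-(1 - 0 ^ 2 / 2) * cos (z * 0) / z - 0 * sin (z * 0) / z ^ 2
          - cos (z * 0) / z ^ 3) := by
    apply intervalIntegral.integral_eq_sub_of_hasDerivAt
      (f := fun k : ℝ => -(1 - k ^ 2 / 2) * cos (z * k) / z - k * sin (z * k) / z ^ 2
        - cos (z * k) / z ^ 3)
    · intro k _
      have h1 : HasDerivAt (fun k : ℝ => z * k) z k := by
        simpa using (hasDerivAt_id k).const_mul z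
      have hc : HasDerivAt (fun k : ℝ => cos (z * k)) (-sin (z * k) * z) k :=
        (Real.hasDerivAt_cos (z * k)).comp k h1
      have hs : HasDerivAt (fun k : ℝ => sin (z * k)) (cos (z * k) * z) k :=
        (Real.hasDerivAt_sin (z * k)).comp k h1
      have hp : HasDerivAt (fun k : ℝ => -(1 - k ^ 2 / 2)) k k := by
        have := (((hasDerivAt_pow 2 k).div_const 2).const_sub 1).neg
        refine this.congr_deriv ?_
        push_cast
        ring
      have h2 := (((hp.mul hc).div_const z).sub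
        (((hasDerivAt_id k).mul hs).div_const (z ^ 2))).sub (hc.div_const (z ^ 3))
      refine h2.congr_deriv ?_
      rw [id_eq]
      field_simp
      ring
    · apply Continuous.intervalIntegrable
      fun_prop
  rw [key]
  unfold vv
  rw [mul_comm z 2, Real.cos_two_mul, Real.sin_two_mul]
  simp only [mul_zero, Real.cos_zero, Real.sin_zero]
  field_simp
  have := Real.sin_sq z
  ring_nf
  rw [this]
  ring

noncomputable def p (k : ℝ) : ℂ := ((1 - k ^ 2 / 2 : ℝ) : ℂ)

lemma p_cont : Continuous p := by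
  unfold p
  fun_prop

noncomputable def f (k : ℝ) : ℂ :=
  (Ioc (0 : ℝ) 2).indicator p k - (Ioc (-2 : ℝ) 0).indicator p k

lemma ft_f (ξ : ℝ) : 𝓕 f ξ = -2 * Complex.I * (F (2 * π * ξ) : ℂ) := by
  rw [Real.fourier_real_eq_integral_exp_smul]
  set e : ℝ → ℂ := fun v => Complex.exp (((-2 * π * v * ξ : ℝ) : ℂ) * Complex.I) with he
  have hec : Continuous e := by
    rw [he]; fun_prop
  have h1 : ∀ v, Complex.exp (((-2 * π * v * ξ : ℝ) : ℂ) * Complex.I) • f v
      = (Ioc (0 : ℝ) 2).indicator (fun v => e v * p v) v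
        - (Ioc (-2 : ℝ) 0).indicator (fun v => e v * p v) v := by
    intro v
    simp only [f, he, smul_eq_mul, mul_sub, Set.indicator_apply]
    split_ifs <;> simp
  have hI : ∀ a b : ℝ, Integrable ((Ioc a b).indicator (fun v => e v * p v)) := by
    intro a b
    rw [integrable_indicator_iff measurableSet_Ioc]
    exact ((hec.mul p_cont).continuousOn.integrableOn_Icc).mono_set Ioc_subset_Icc_self
  simp_rw [h1]
  rw [integral_sub (hI _ _) (hI _ _), integral_indicator measurableSet_Ioc,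
    integral_indicator measurableSet_Ioc,
    ← intervalIntegral.integral_of_le (by norm_num : (0 : ℝ) ≤ 2),
    ← intervalIntegral.integral_of_le (by norm_num : (-2 : ℝ) ≤ 0)]
  have h2 : ∫ v in (-2 : ℝ)..0, e v * p v = ∫ v in (0 : ℝ)..2, e (-v) * p (-v) := by
    rw [intervalIntegral.integral_comp_neg (fun v => e v * p v)]
    simp
  rw [h2, ← intervalIntegral.integral_sub]
  · unfold F
    rw [← intervalIntegral.integral_ofReal, ← intervalIntegral.integral_const_mul]
    apply intervalIntegral.integral_congr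
    intro v _
    simp only [he, p]
    have e1 : (((-2 * π * v * ξ : ℝ) : ℂ) * Complex.I)
        = (((-(2 * π * ξ * v) : ℝ) : ℂ) * Complex.I) := by
      push_cast; ring
    have e2 : (((-2 * π * (-v) * ξ : ℝ) : ℂ) * Complex.I)
        = (((2 * π * ξ * v : ℝ) : ℂ) * Complex.I) := by
      push_cast; ring
    rw [e1, e2, Complex.exp_mul_I, Complex.exp_mul_I]
    push_cast
    rw [Complex.cos_neg, Complex.sin_neg]
    ring
  · exact (hec.mul p_cont).intervalIntegrable _ _
  · exact ((hec.mul p_cont).comp continuous_neg).intervalIntegrable _ _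

lemma f_meas : Measurable f := by
  unfold f
  exact (p_cont.measurable.indicator measurableSet_Ioc).sub
    (p_cont.measurable.indicator measurableSet_Ioc)

lemma f_int : Integrable f := by
  unfold f
  have hI : ∀ a b : ℝ, Integrable ((Ioc a b).indicator p) := by
    intro a b
    rw [integrable_indicator_iff measurableSet_Ioc]
    exact (p_cont.continuousOn.integrableOn_Icc).mono_set Ioc_subset_Icc_self
  exact (hI _ _).sub (hI _ _)

lemma f_normsq (k : ℝ) : ‖f k‖ ^ 2 = (Ioc (-2 : ℝ) 2).indicator (fun k => (1 - k ^ 2 / 2) ^ 2) k := by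
  unfold f p
  simp only [Set.indicator_apply, mem_Ioc]
  by_cases h1 : 0 < k ∧ k ≤ 2
  · have h2 : ¬ (-2 < k ∧ k ≤ 0) := fun h => by linarith [h1.1, h.2]
    have h3 : -2 < k ∧ k ≤ 2 := ⟨by linarith [h1.1], h1.2⟩
    rw [if_pos h1, if_neg h2, if_pos h3, sub_zero, Complex.norm_real, Real.norm_eq_abs, sq_abs]
  · by_cases h2 : -2 < k ∧ k ≤ 0
    · have h3 : -2 < k ∧ k ≤ 2 := ⟨h2.1, by linarith [h2.2]⟩
      rw [if_neg h1, if_pos h2, if_pos h3, zero_sub, norm_neg, Complex.norm_real,
        Real.norm_eq_abs, sq_abs]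
    · have h3 : ¬ (-2 < k ∧ k ≤ 2) := by
        intro h
        rcases lt_or_ge 0 k with h0 | h0
        · exact h1 ⟨h0, h.2⟩
        · exact h2 ⟨h.1, h0⟩
      rw [if_neg h1, if_neg h2, if_neg h3]
      simp

lemma f_sq_int : Integrable (fun k => ‖f k‖ ^ 2) := by
  simp_rw [f_normsq]
  show Integrable ((Ioc (-2 : ℝ) 2).indicator (fun k => (1 - k ^ 2 / 2) ^ 2))
  rw [integrable_indicator_iff measurableSet_Ioc]
  exact ((by fun_prop : Continuous fun k : ℝ => (1 - k ^ 2 / 2) ^ 2).continuousOn.integrableOn_Icc).mono_set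
    Ioc_subset_Icc_self

lemma f_memLp : MemLp f 2 :=
  (memLp_two_iff_integrable_sq_norm f_meas.aestronglyMeasurable).mpr f_sq_int

lemma f_sq_val : ∫ k, ‖f k‖ ^ 2 = 28 / 15 := by
  simp_rw [f_normsq]
  show ∫ k, ((Ioc (-2 : ℝ) 2).indicator (fun k => (1 - k ^ 2 / 2) ^ 2)) k = _
  rw [integral_indicator measurableSet_Ioc,
    ← intervalIntegral.integral_of_le (by norm_num : (-2 : ℝ) ≤ 2)]
  have : ∀ k : ℝ, (1 - k ^ 2 / 2) ^ 2 = 1 - k ^ 2 + k ^ 4 / 4 := by intro k; ring
  simp_rw [this]
  rw [intervalIntegral.integral_add, intervalIntegral.integral_sub,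
    intervalIntegral.integral_div, integral_pow, integral_pow]
  · simp
    norm_num
  all_goals apply Continuous.intervalIntegrable; fun_prop

lemma F_odd (z : ℝ) : F (-z) = -F z := by
  unfold F
  rw [← intervalIntegral.integral_neg]
  apply intervalIntegral.integral_congr
  intro k _
  simp [neg_mul, Real.sin_neg]

lemma F_sq_abs (z : ℝ) : F |z| ^ 2 = F z ^ 2 := by
  rcases abs_choice z with h | h
  · rw [h]
  · rw [h, F_odd]; ring

lemma norm_ft (ξ : ℝ) : ‖𝓕 f ξ‖ ^ 2 = 4 * F (2 * π * ξ) ^ 2 := by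
  rw [ft_f]
  simp only [norm_mul, norm_neg, Complex.norm_I, Complex.norm_real, Real.norm_eq_abs]
  rw [mul_pow, sq_abs]
  norm_num

end J3

open J3 in
theorem j3 : StmJ3 := by
  have hcont : Continuous (𝓕 f) := by
    have := VectorFourier.fourierIntegral_continuous (L := innerₗ ℝ) Real.continuous_fourierChar
      continuous_inner f_int
    exact this
  have hpl := Pool.Agent.H153R4.plancherel f f_int f_memLp
  have hc : ∀ g : ℝ → ℂ, ∫⁻ x, ‖g x‖ₑ ^ 2 = ∫⁻ x, ENNReal.ofReal (‖g x‖ ^ 2) := by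
    intro g
    apply lintegral_congr
    intro x
    rw [ENNReal.ofReal_pow (norm_nonneg _), ofReal_norm]
  rw [hc, hc] at hpl
  have hr : ∫⁻ x, ENNReal.ofReal (‖f x‖ ^ 2) = ENNReal.ofReal (28 / 15) := by
    rw [← ofReal_integral_eq_lintegral_ofReal f_sq_int
      (Filter.Eventually.of_forall fun x => by positivity), f_sq_val]
  rw [hr] at hpl
  have hmeas : AEStronglyMeasurable (fun ξ => ‖𝓕 f ξ‖ ^ 2) volume :=
    (hcont.norm.pow 2).aestronglyMeasurable
  have hint : Integrable (fun ξ => ‖𝓕 f ξ‖ ^ 2) := by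
    refine ⟨hmeas, ?_⟩
    rw [hasFiniteIntegral_iff_ofReal (Filter.Eventually.of_forall fun x => by positivity), hpl]
    exact ENNReal.ofReal_lt_top
  have hval : ∫ ξ, ‖𝓕 f ξ‖ ^ 2 = 28 / 15 := by
    rw [integral_eq_lintegral_of_nonneg_ae (Filter.Eventually.of_forall fun x => by positivity) hmeas,
      hpl, ENNReal.toReal_ofReal (by norm_num)]
  simp_rw [norm_ft] at hint hval
  have hpi : (0 : ℝ) < 2 * π := by positivity
  -- even
  have hval2 : ∫ ξ : ℝ, 4 * F (2 * π * ξ) ^ 2 = 2 * ∫ ξ in Ioi (0 : ℝ), 4 * F (2 * π * ξ) ^ 2 := by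
    rw [← integral_comp_abs (f := fun ξ => 4 * F (2 * π * ξ) ^ 2)]
    apply integral_congr_ae
    refine Filter.Eventually.of_forall fun ξ => ?_
    show 4 * F (2 * π * ξ) ^ 2 = 4 * F (2 * π * |ξ|) ^ 2
    have : 2 * π * |ξ| = |2 * π * ξ| := by rw [abs_mul, abs_of_pos hpi]
    rw [this, F_sq_abs]
  have hsub := integral_comp_mul_left_Ioi (fun z => 4 * F z ^ 2) 0 hpi
  have hii : IntegrableOn (fun z => 4 * F z ^ 2) (Ioi 0) := by
    have := (integrableOn_Ioi_comp_mul_left_iff (fun z => 4 * F z ^ 2) 0 hpi).mp hint.integrableOn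
    simpa using this
  simp only [mul_zero, smul_eq_mul] at hsub
  rw [hval2, hsub] at hval
  have hcongr : ∀ z ∈ Ioi (0 : ℝ), vv z ^ 4 / z ^ 2 = (1 / 16) * (4 * F z ^ 2) := by
    intro z hz
    have hz' : z ≠ 0 := (ne_of_gt hz)
    rw [F_closed z hz]
    field_simp
    ring
  constructor
  · have h16 : IntegrableOn (fun z => 1 / 16 * (4 * F z ^ 2)) (Ioi 0) := hii.const_mul (1 / 16)
    exact h16.congr_fun (fun z hz => (hcongr z hz).symm) measurableSet_Ioi
  · rw [setIntegral_congr_fun measurableSet_Ioi hcongr, integral_const_mul]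
    have : ∫ z in Ioi (0 : ℝ), 4 * F z ^ 2 = 28 / 15 * π := by
      field_simp at hval
      linarith
    rw [this]
    ring

end H50.QN
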