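import Pool.Agent.T6.H50.QN.Defs3

/-! Project QN, module JBD (helper37). -/

open MeasureTheory Real Filter Topology Set
open scoped ENNReal RealInnerProductSpace

namespace H50.QN

namespace JBDx

theorem contPL : ∀ n : ℕ, Continuous (PL n)
  | 0 => by
      have : PL 0 = fun _ => (1 : ℝ) := by funext x; simp [PL]
      rw [this]; exact continuous_const
  | 1 => by
      have : PL 1 = fun x => x := by funext x; simp [PL]
      rw [this]; exact continuous_id
  | (n + 2) => by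
      have h1 := contPL (n + 1)
      have h0 := contPL n
      have : PL (n + 2) = fun x =>
          ((2 * (n : ℝ) + 3) * x * PL (n + 1) x - ((n : ℝ) + 1) * PL n x) / ((n : ℝ) + 2) := by
        funext x; simp [PL]
      rw [this]
      fun_prop

theorem subst_int (n : ℕ) :
    ∫ k in (0 : ℝ)..2, PL n (1 - k ^ 2 / 2) ^ 2 * k = ∫ x in (-1 : ℝ)..1, PL n x ^ 2 := by
  have hc : Continuous (fun x : ℝ => PL n x ^ 2) := (contPL n).pow 2
  have h := intervalIntegral.integral_comp_mul_deriv (a := (0 : ℝ)) (b := 2)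
    (f := fun k : ℝ => 1 - k ^ 2 / 2) (f' := fun k : ℝ => -k) (g := fun x : ℝ => PL n x ^ 2)
    (fun k _ => by
      have h1 : HasDerivAt (fun k : ℝ => k ^ 2) (2 * k) k := by
        simpa using hasDerivAt_pow 2 k
      have h2 : HasDerivAt (fun k : ℝ => 1 - k ^ 2 / 2) (-(2 * k / 2)) k :=
        (h1.div_const 2).const_sub 1
      have e : -(2 * k / 2) = -k := by ring
      rw [e] at h2
      exact h2) (by fun_prop) hc
  simp only [Function.comp] at h
  have e1 : (1 - (0 : ℝ) ^ 2 / 2) = 1 := by norm_num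
  have e2 : (1 - (2 : ℝ) ^ 2 / 2) = -1 := by norm_num
  rw [e1, e2, intervalIntegral.integral_symm (-1 : ℝ) 1] at h
  have h3 : ∫ k in (0 : ℝ)..2, PL n (1 - k ^ 2 / 2) ^ 2 * -k
      = -∫ k in (0 : ℝ)..2, PL n (1 - k ^ 2 / 2) ^ 2 * k := by
    rw [← intervalIntegral.integral_neg]
    congr 1; funext k; ring
  rw [h3] at h
  linarith

end JBDx

open JBDx in
theorem jbd (h : StmLEG) : StmJBD := by
  intro n hn
  obtain ⟨hL1, hL2⟩ := h
  set t : ℝ := (2 * (n : ℝ) + 1) / 2 with ht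
  have hn1 : (1 : ℝ) ≤ (n : ℝ) := by exact_mod_cast hn
  have ht1 : 3 / 2 ≤ t := by rw [ht]; linarith
  have ht0 : 0 < t := by linarith
  set r : ℝ := √t with hr
  have hr0 : 0 < r := Real.sqrt_pos.mpr ht0
  have hrr : r * r = t := Real.mul_self_sqrt ht0.le
  have hr1 : 1 ≤ r := by
    rw [hr]
    exact Real.one_le_sqrt.mpr (by linarith)
  set s : ℝ := 1 / r with hs
  have hs0 : 0 < s := by positivity
  have hs2 : s ≤ 1 := by
    rw [hs, div_le_one hr0]; exact hr1
  have hcp : Continuous (fun k : ℝ => PL n (1 - k ^ 2 / 2) ^ 2) :=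
    ((contPL n).comp (by fun_prop : Continuous fun k : ℝ => 1 - k ^ 2 / 2)).pow 2
  have hcp2 : Continuous (fun k : ℝ => PL n (1 - k ^ 2 / 2) ^ 2 * k) := hcp.mul continuous_id
  have hbd : ∀ k : ℝ, 0 ≤ k → k ≤ 2 → PL n (1 - k ^ 2 / 2) ^ 2 ≤ 1 := by
    intro k hk0 hk2
    have h1 : |1 - k ^ 2 / 2| ≤ 1 := by
      rw [abs_le]; constructor <;> nlinarith
    have h2 := hL1 n _ h1
    rw [← sq_abs]
    have h3 := abs_nonneg (PL n (1 - k ^ 2 / 2))
    nlinarith
  -- first part
  have hA : ∫ k in (0 : ℝ)..s, PL n (1 - k ^ 2 / 2) ^ 2 ≤ s := by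
    have h1 : ∫ k in (0 : ℝ)..s, PL n (1 - k ^ 2 / 2) ^ 2 ≤ ∫ _k in (0 : ℝ)..s, (1 : ℝ) := by
      apply intervalIntegral.integral_mono_on hs0.le (hcp.intervalIntegrable _ _)
        (continuous_const.intervalIntegrable _ _)
      intro k hk
      exact hbd k hk.1 (by linarith [hk.2])
    simpa using h1
  -- second part
  have hB : s * ∫ k in s..(2 : ℝ), PL n (1 - k ^ 2 / 2) ^ 2
      ≤ ∫ k in s..(2 : ℝ), PL n (1 - k ^ 2 / 2) ^ 2 * k := by
    rw [← intervalIntegral.integral_const_mul]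
    have hcs : Continuous (fun k : ℝ => s * PL n (1 - k ^ 2 / 2) ^ 2) := continuous_const.mul hcp
    apply intervalIntegral.integral_mono_on (by linarith)
      (hcs.intervalIntegrable _ _) (hcp2.intervalIntegrable _ _)
    intro k hk
    have h1 := mul_le_mul_of_nonneg_left hk.1 (sq_nonneg (PL n (1 - k ^ 2 / 2)))
    linarith
  have hC : 0 ≤ ∫ k in (0 : ℝ)..s, PL n (1 - k ^ 2 / 2) ^ 2 * k := by
    apply intervalIntegral.integral_nonneg hs0.le
    intro k hk
    exact mul_nonneg (sq_nonneg _) hk.1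
  have hsum2 : ∫ k in (0 : ℝ)..2, PL n (1 - k ^ 2 / 2) ^ 2 * k = s * s := by
    rw [subst_int n, hL2 n]
    have : s * s = 1 / t := by
      rw [hs, div_mul_div_comm, hrr]; norm_num
    rw [this, ht]
    have : (2 * (n : ℝ) + 1) ≠ 0 := by positivity
    field_simp
  have hadd2 := intervalIntegral.integral_add_adjacent_intervals
    (hcp2.intervalIntegrable (μ := volume) 0 s) (hcp2.intervalIntegrable (μ := volume) s 2)
  have hadd := intervalIntegral.integral_add_adjacent_intervals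
    (hcp.intervalIntegrable (μ := volume) 0 s) (hcp.intervalIntegrable (μ := volume) s 2)
  have hB2 : ∫ k in s..(2 : ℝ), PL n (1 - k ^ 2 / 2) ^ 2 ≤ s := by
    have h1 : s * ∫ k in s..(2 : ℝ), PL n (1 - k ^ 2 / 2) ^ 2 ≤ s * s := by
      linarith
    exact le_of_mul_le_mul_left h1 hs0
  have hT : ∫ k in (0 : ℝ)..2, PL n (1 - k ^ 2 / 2) ^ 2 ≤ 2 * s := by
    rw [← hadd]; linarith
  have hfin : (2 * (n : ℝ) + 1) / 4 * (2 * s) = r := by
    have h1 : (2 * (n : ℝ) + 1) / 4 * (2 * s) = t * s := by rw [ht]; ring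
    rw [h1, ← hrr, hs]
    field_simp
  calc (2 * (n : ℝ) + 1) / 4 * ∫ k in (0 : ℝ)..2, PL n (1 - k ^ 2 / 2) ^ 2
      ≤ (2 * (n : ℝ) + 1) / 4 * (2 * s) := by
        apply mul_le_mul_of_nonneg_left hT (by positivity)
    _ = r := hfin

end H50.QN

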