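import Pool.Agent.T6.H50.QN.Defs3

/-! Project QN (helper50), third wave, module JEX (helper12): explicit integrals of squares of
Legendre polynomials. -/

set_option autoImplicit false

open MeasureTheory Real Filter Topology Set

namespace H50.QN

namespace ModJEX

theorem poly_int (m : ℕ) (c : ℕ → ℝ) :
    ∫ k in (0 : ℝ)..2, ∑ j ∈ Finset.range m, c j * k ^ (2 * j) =
      ∑ j ∈ Finset.range m, c j * (2 ^ (2 * j + 1) / (2 * (j : ℝ) + 1)) := by
  rw [intervalIntegral.integral_finsetSum]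
  · refine Finset.sum_congr rfl fun j _ => ?_
    rw [intervalIntegral.integral_const_mul, integral_pow]
    push_cast
    simp
  · intro j _
    apply Continuous.intervalIntegrable
    fun_prop

theorem P2 (x : ℝ) : PL 2 x = (3 * x ^ 2 - 1) / 2 := by
  show ((2 * ((0 : ℕ) : ℝ) + 3) * x * PL 1 x - (((0 : ℕ) : ℝ) + 1) * PL 0 x) / (((0 : ℕ) : ℝ) + 2) = _
  show ((2 * ((0 : ℕ) : ℝ) + 3) * x * x - (((0 : ℕ) : ℝ) + 1) * 1) / (((0 : ℕ) : ℝ) + 2) = _
  push_cast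
  ring

theorem P3 (x : ℝ) : PL 3 x = (5 * x ^ 3 - 3 * x) / 2 := by
  show ((2 * ((1 : ℕ) : ℝ) + 3) * x * PL 2 x - (((1 : ℕ) : ℝ) + 1) * PL 1 x) / (((1 : ℕ) : ℝ) + 2) = _
  rw [P2]
  show ((2 * ((1 : ℕ) : ℝ) + 3) * x * ((3 * x ^ 2 - 1) / 2) - (((1 : ℕ) : ℝ) + 1) * x) / (((1 : ℕ) : ℝ) + 2) = _
  push_cast
  ring

theorem P4 (x : ℝ) : PL 4 x = (35 * x ^ 4 - 30 * x ^ 2 + 3) / 8 := by
  show ((2 * ((2 : ℕ) : ℝ) + 3) * x * PL 3 x - (((2 : ℕ) : ℝ) + 1) * PL 2 x) / (((2 : ℕ) : ℝ) + 2) = _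
  rw [P2, P3]
  push_cast
  ring

theorem P5 (x : ℝ) : PL 5 x = (63 * x ^ 5 - 70 * x ^ 3 + 15 * x) / 8 := by
  show ((2 * ((3 : ℕ) : ℝ) + 3) * x * PL 4 x - (((3 : ℕ) : ℝ) + 1) * PL 3 x) / (((3 : ℕ) : ℝ) + 2) = _
  rw [P3, P4]
  push_cast
  ring

theorem I2 : ∫ k in (0 : ℝ)..2, PL 2 (1 - k ^ 2 / 2) ^ 2 = 22 / 35 := by
  have h : ∀ k : ℝ, PL 2 (1 - k ^ 2 / 2) ^ 2 = ∑ j ∈ Finset.range 5,
      ([1, -3, 3, -9 / 8, 9 / 64] : List ℝ).getD j 0 * k ^ (2 * j) := by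
    intro k
    rw [P2]
    simp only [Finset.sum_range_succ, Finset.sum_range_zero, List.getD_cons_zero,
      List.getD_cons_succ]
    ring
  simp only [h]
  rw [poly_int]
  simp only [Finset.sum_range_succ, Finset.sum_range_zero, List.getD_cons_zero,
      List.getD_cons_succ]
  norm_num

theorem I3 : ∫ k in (0 : ℝ)..2, PL 3 (1 - k ^ 2 / 2) ^ 2 = 7214 / 15015 := by
  have h : ∀ k : ℝ, PL 3 (1 - k ^ 2 / 2) ^ 2 = ∑ j ∈ Finset.range 7,
      ([1, -6, 51 / 4, -95 / 8, 345 / 64, -75 / 64, 25 / 256] : List ℝ).getD j 0 * k ^ (2 * j) := by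
    intro k
    rw [P3]
    simp only [Finset.sum_range_succ, Finset.sum_range_zero, List.getD_cons_zero,
      List.getD_cons_succ]
    ring
  simp only [h]
  rw [poly_int]
  simp only [Finset.sum_range_succ, Finset.sum_range_zero, List.getD_cons_zero,
      List.getD_cons_succ]
  norm_num

theorem I4 : ∫ k in (0 : ℝ)..2, PL 4 (1 - k ^ 2 / 2) ^ 2 = 60002 / 153153 := by
  have h : ∀ k : ℝ, PL 4 (1 - k ^ 2 / 2) ^ 2 = ∑ j ∈ Finset.range 9,
      ([1, -10, 145 / 4, -485 / 8, 865 / 16, -875 / 32, 4025 / 512, -1225 / 1024, 1225 / 16384] : List ℝ).getD j 0 * k ^ (2 * j) := by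
    intro k
    rw [P4]
    simp only [Finset.sum_range_succ, Finset.sum_range_zero, List.getD_cons_zero,
      List.getD_cons_succ]
    ring
  simp only [h]
  rw [poly_int]
  simp only [Finset.sum_range_succ, Finset.sum_range_zero, List.getD_cons_zero,
      List.getD_cons_succ]
  norm_num

theorem I5 : ∫ k in (0 : ℝ)..2, PL 5 (1 - k ^ 2 / 2) ^ 2 = 322 / 969 := by
  have h : ∀ k : ℝ, PL 5 (1 - k ^ 2 / 2) ^ 2 = ∑ j ∈ Finset.range 11,
      ([1, -15, 165 / 2, -1715 / 8, 4935 / 16, -8547 / 32, 74165 / 512, -50715 / 1024, 169785 / 16384, -19845 / 16384, 3969 / 65536] : List ℝ).getD j 0 * k ^ (2 * j) := by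
    intro k
    rw [P5]
    simp only [Finset.sum_range_succ, Finset.sum_range_zero, List.getD_cons_zero,
      List.getD_cons_succ]
    ring
  simp only [h]
  rw [poly_int]
  simp only [Finset.sum_range_succ, Finset.sum_range_zero, List.getD_cons_zero,
      List.getD_cons_succ]
  norm_num

end ModJEX

open ModJEX in
theorem jex : StmJEX := by
  unfold StmJEX
  rw [I2, I3, I4, I5]
  norm_num

end H50.QN
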