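import Pool.Agent.T6.H50.QN.Defs3
import Pool.Agent.T6.H50.QN.BES
import Pool.Agent.T6.H50.QN.Fin

/-! Project QN (`MP_3fd3b2_an`), module KER: the sine transform formula (helper91). -/

set_option autoImplicit false

open MeasureTheory Real Filter Topology Set

namespace H50.QN

namespace ModKER

open ModBES

/-- differentiation of `∫ w(t) cos (z t) dt` -/
theorem dcos2 {w : ℝ → ℝ} (hw : Continuous w) (z : ℝ) :
    HasDerivAt (fun z : ℝ => ∫ t in (0 : ℝ)..2, w t * cos (z * t))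
      (∫ t in (0 : ℝ)..2, w t * (-sin (z * t) * t)) z := by
  have hc1 : Continuous fun t : ℝ => |w t| * |t| := (hw.abs).mul continuous_abs
  refine (intervalIntegral.hasDerivAt_integral_of_dominated_loc_of_deriv_le
    (F := fun z t => w t * cos (z * t)) (F' := fun z t => w t * (-sin (z * t) * t))
    (x₀ := z) (a := 0) (b := 2) (bound := fun t => |w t| * |t|) (μ := volume)
    (Metric.ball_mem_nhds z one_pos) ?_ ?_ ?_ ?_ ?_ ?_).2
  · exact Eventually.of_forall fun y => (by fun_prop : Continuous fun t => w t * cos (y * t)).aestronglyMeasurable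
  · exact (by fun_prop : Continuous fun t => w t * cos (z * t)).intervalIntegrable _ _
  · exact (by fun_prop : Continuous fun t => w t * (-sin (z * t) * t)).aestronglyMeasurable
  · refine Eventually.of_forall fun t _ x _ => ?_
    rw [Real.norm_eq_abs, abs_mul, abs_mul, abs_neg]
    exact mul_le_mul_of_nonneg_left (mul_le_of_le_one_left (abs_nonneg _) (abs_sin_le_one _))
      (abs_nonneg _)
  · exact hc1.intervalIntegrable _ _
  · refine Eventually.of_forall fun t _ x _ => ?_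
    have h1 : HasDerivAt (fun x : ℝ => x * t) t x := by
      simpa using (hasDerivAt_id x).mul_const t
    exact (h1.cos).const_mul (w t)

/-- differentiation of `∫ w(t) sin (z t) dt` -/
theorem dsin2 {w : ℝ → ℝ} (hw : Continuous w) (z : ℝ) :
    HasDerivAt (fun z : ℝ => ∫ t in (0 : ℝ)..2, w t * sin (z * t))
      (∫ t in (0 : ℝ)..2, w t * (cos (z * t) * t)) z := by
  have hc1 : Continuous fun t : ℝ => |w t| * |t| := (hw.abs).mul continuous_abs
  refine (intervalIntegral.hasDerivAt_integral_of_dominated_loc_of_deriv_le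
    (F := fun z t => w t * sin (z * t)) (F' := fun z t => w t * (cos (z * t) * t))
    (x₀ := z) (a := 0) (b := 2) (bound := fun t => |w t| * |t|) (μ := volume)
    (Metric.ball_mem_nhds z one_pos) ?_ ?_ ?_ ?_ ?_ ?_).2
  · exact Eventually.of_forall fun y => (by fun_prop : Continuous fun t => w t * sin (y * t)).aestronglyMeasurable
  · exact (by fun_prop : Continuous fun t => w t * sin (z * t)).intervalIntegrable _ _
  · exact (by fun_prop : Continuous fun t => w t * (cos (z * t) * t)).aestronglyMeasurable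
  · refine Eventually.of_forall fun t _ x _ => ?_
    rw [Real.norm_eq_abs, abs_mul, abs_mul]
    exact mul_le_mul_of_nonneg_left (mul_le_of_le_one_left (abs_nonneg _) (abs_cos_le_one _))
      (abs_nonneg _)
  · exact hc1.intervalIntegrable _ _
  · refine Eventually.of_forall fun t _ x _ => ?_
    have h1 : HasDerivAt (fun x : ℝ => x * t) t x := by
      simpa using (hasDerivAt_id x).mul_const t
    exact (h1.sin).const_mul (w t)

/-- spherical Bessel functions -/
noncomputable def jj (n : ℕ) (z : ℝ) : ℝ := z ^ n * G (2 * n + 1) z / kap n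

lemma kap_pos (n : ℕ) : 0 < kap n := by
  unfold kap
  positivity

lemma kap_succ (n : ℕ) : kap (n + 1) = kap n * (2 * ((n : ℝ) + 1)) := by
  unfold kap
  rw [Nat.factorial_succ]
  push_cast
  ring

lemma djj (n : ℕ) {z : ℝ} (hz : 0 < z) :
    HasDerivAt (jj n) ((n : ℝ) / z * jj n z - jj (n + 1) z) z := by
  have hd : 1 ≤ 2 * n + 1 := by omega
  have h1 := ((hasDerivAt_pow n z).mul (dG hd z)).div_const (kap n)
  have hp : (n : ℝ) * z ^ (n - 1) = (n : ℝ) / z * z ^ n := by
    cases n with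
    | zero => simp
    | succ m =>
      rw [Nat.add_sub_cancel, pow_succ]
      field_simp
  have hk := kap_pos n
  have e2 : 2 * (n + 1) + 1 = 2 * n + 1 + 2 := by ring
  have e : (n : ℝ) / z * jj n z - jj (n + 1) z =
      ((n : ℝ) * z ^ (n - 1) * G (2 * n + 1) z + z ^ n * HH (2 * n + 1) z) / kap n := by
    rw [hp, HH_eq hd]
    unfold jj
    rw [kap_succ, e2, pow_succ]
    have hn : (n : ℝ) + 1 ≠ 0 := by positivity
    push_cast
    field_simp
    ring
  rw [e]
  exact h1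

lemma rec3 (n : ℕ) {z : ℝ} (hz : 0 < z) :
    jj (n + 2) z = (2 * (n : ℝ) + 3) / z * jj (n + 1) z - jj n z := by
  have hd : 1 ≤ 2 * n + 1 := by omega
  have hd2 : 1 ≤ 2 * n + 1 + 2 := by omega
  have hfun : HH (2 * n + 1) = fun z => -(z / (((2 * n + 1 : ℕ) : ℝ) + 1)) * G (2 * n + 1 + 2) z := by
    ext y
    exact HH_eq hd y
  have h1 := dH hd z
  rw [hfun] at h1
  have h2 : HasDerivAt (fun z : ℝ => -(z / (((2 * n + 1 : ℕ) : ℝ) + 1)))
      (-(1 / (((2 * n + 1 : ℕ) : ℝ) + 1))) z := ((hasDerivAt_id z).div_const _).neg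
  have h3 := h2.mul (dG hd2 z)
  have h4 := h1.unique h3
  rw [HH_eq hd2] at h4
  have e2 : 2 * (n + 1) + 1 = 2 * n + 1 + 2 := by ring
  have e3 : 2 * (n + 2) + 1 = 2 * n + 1 + 2 + 2 := by ring
  unfold jj
  have hk2 : kap (n + 2) = kap n * (2 * ((n : ℝ) + 1)) * (2 * ((n : ℝ) + 2)) := by
    rw [kap_succ (n + 1), kap_succ n]
    push_cast
    ring
  rw [hk2, kap_succ n, e2, e3]
  have hk := kap_pos n
  generalize G (2 * n + 1 + 2 + 2) z = A at *
  generalize G (2 * n + 1 + 2) z = B at *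
  generalize G (2 * n + 1) z = D at *
  generalize kap n = κ at *
  have hn1 : (n : ℝ) + 1 ≠ 0 := by positivity
  have hn2 : (n : ℝ) + 2 ≠ 0 := by positivity
  push_cast at h4
  have h5 : z ^ 2 * A = (2 * (n : ℝ) + 4) * ((2 * (n : ℝ) + 3) * B - (2 * (n : ℝ) + 2) * D) := by
    have h6 : (2 * (n : ℝ) + 1 + 1) ≠ 0 := by positivity
    have h7 : (2 * (n : ℝ) + 1 + 2 + 1) ≠ 0 := by positivity
    field_simp at h4
    linarith
  have h8 : z ^ (n + 2) * A = z ^ n * ((2 * (n : ℝ) + 4) * ((2 * (n : ℝ) + 3) * B - (2 * (n : ℝ) + 2) * D)) := by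
    rw [← h5]
    ring
  rw [h8, pow_succ]
  field_simp
  ring

/-- the function of the left hand side -/
noncomputable def ff (n : ℕ) (z : ℝ) : ℝ := 2 * z * jj n z ^ 2

noncomputable def f1 (m : ℕ) (z : ℝ) : ℝ :=
  (4 * (m : ℝ) + 2) * jj m z ^ 2 - 4 * z * jj m z * jj (m + 1) z

noncomputable def f2 (m : ℕ) (z : ℝ) : ℝ :=
  (8 * (m : ℝ) ^ 2 + 4 * m) * jj m z ^ 2 / z - 8 * m * jj m z * jj (m + 1) z
    + 4 * z * jj (m + 1) z ^ 2 - 4 * z * jj m z ^ 2

lemma ff_eq (n : ℕ) (z : ℝ) :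
    2 * z ^ (2 * n + 1) * G (2 * n + 1) z ^ 2 / kap n ^ 2 = ff n z := by
  unfold ff jj
  have hk := kap_pos n
  field_simp
  ring

lemma dff (m : ℕ) {z : ℝ} (hz : 0 < z) : HasDerivAt (ff m) (f1 m z) z := by
  have h1 := ((hasDerivAt_id z).const_mul 2).mul ((djj m hz).pow 2)
  have e : f1 m z = 2 * 1 * jj m z ^ 2 +
      2 * z * (((2 : ℕ) : ℝ) * jj m z ^ (2 - 1) * ((m : ℝ) / z * jj m z - jj (m + 1) z)) := by
    unfold f1
    norm_num
    field_simp
    ring
  rw [e]
  exact h1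

lemma df1 (m : ℕ) {z : ℝ} (hz : 0 < z) : HasDerivAt (f1 m) (f2 m z) z := by
  have h1 := ((djj m hz).pow 2).const_mul (4 * (m : ℝ) + 2)
  have h2 := (((hasDerivAt_id z).const_mul 4).mul (djj m hz)).mul (djj (m + 1) hz)
  have h3 := h1.sub h2
  have e : f2 m z = (4 * (m : ℝ) + 2) * (((2 : ℕ) : ℝ) * jj m z ^ (2 - 1) *
      ((m : ℝ) / z * jj m z - jj (m + 1) z)) -
      ((4 * 1 * jj m z + 4 * z * ((m : ℝ) / z * jj m z - jj (m + 1) z)) * jj (m + 1) z +
        4 * z * jj m z * (((m + 1 : ℕ) : ℝ) / z * jj (m + 1) z - jj (m + 1 + 1) z)) := by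
    rw [show m + 1 + 1 = m + 2 from rfl, rec3 m hz]
    unfold f2
    norm_num
    field_simp
    ring
  rw [e]
  exact h3

/-- the recurrence of `ff` -/
lemma ff_rec (m : ℕ) {z : ℝ} (hz : 0 < z) :
    ((m : ℝ) + 2) * ff (m + 2) z = (2 * (m : ℝ) + 3) * (ff (m + 1) z + 1 / 2 * f2 (m + 1) z)
      - ((m : ℝ) + 1) * ff m z := by
  unfold ff f2
  rw [show m + 1 + 1 = m + 2 from rfl, rec3 m hz]
  push_cast
  field_simp
  ring

lemma ff_one (z : ℝ) : ff 1 z = ff 0 z + 1 / 2 * f2 0 z := by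
  unfold ff f2
  norm_num
  ring

/-- the sine transform -/
noncomputable def KK (n : ℕ) (z : ℝ) : ℝ := ∫ k in (0 : ℝ)..2, PL n (1 - k ^ 2 / 2) * sin (z * k)

noncomputable def K1 (n : ℕ) (z : ℝ) : ℝ :=
  ∫ k in (0 : ℝ)..2, PL n (1 - k ^ 2 / 2) * (cos (z * k) * k)

noncomputable def K2 (n : ℕ) (z : ℝ) : ℝ :=
  ∫ k in (0 : ℝ)..2, (PL n (1 - k ^ 2 / 2) * k) * (-sin (z * k) * k)

lemma PL_cont (n : ℕ) : Continuous (PL n) := by
  induction n using Nat.strong_induction_on with
  | _ n ih =>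
    match n with
    | 0 => exact (continuous_const : Continuous fun _ : ℝ => (1 : ℝ))
    | 1 => exact continuous_id
    | (m + 2) =>
      have h1 := ih (m + 1) (by omega)
      have h2 := ih m (by omega)
      have e : PL (m + 2) = fun x => ((2 * (m : ℝ) + 3) * x * PL (m + 1) x -
          ((m : ℝ) + 1) * PL m x) / ((m : ℝ) + 2) := rfl
      rw [e]
      fun_prop

lemma PLc (n : ℕ) : Continuous fun k : ℝ => PL n (1 - k ^ 2 / 2) :=
  (PL_cont n).comp (by fun_prop)

lemma dKK (n : ℕ) (z : ℝ) : HasDerivAt (KK n) (K1 n z) z := dsin2 (PLc n) z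

lemma dK1 (n : ℕ) (z : ℝ) : HasDerivAt (K1 n) (K2 n z) z := by
  have h := dcos2 (w := fun k => PL n (1 - k ^ 2 / 2) * k) ((PLc n).mul continuous_id) z
  have e : K1 n = fun z => ∫ t in (0 : ℝ)..2, PL n (1 - t ^ 2 / 2) * t * cos (z * t) := by
    ext y
    unfold K1
    congr 1
    ext t
    ring
  rw [e]
  exact h

lemma K_int (n : ℕ) (z : ℝ) :
    KK n z + 1 / 2 * K2 n z =
      ∫ k in (0 : ℝ)..2, (1 - k ^ 2 / 2) * PL n (1 - k ^ 2 / 2) * sin (z * k) := by
  unfold KK K2
  have hc := PLc n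
  rw [← intervalIntegral.integral_const_mul, ← intervalIntegral.integral_add]
  · congr 1
    ext k
    ring
  · exact (hc.mul (by fun_prop : Continuous fun k : ℝ => sin (z * k))).intervalIntegrable _ _
  · exact (continuous_const.mul ((hc.mul continuous_id).mul
      (by fun_prop : Continuous fun k : ℝ => -sin (z * k) * k))).intervalIntegrable _ _

lemma K_rec (n : ℕ) (z : ℝ) :
    ((n : ℝ) + 2) * KK (n + 2) z = (2 * (n : ℝ) + 3) * (KK (n + 1) z + 1 / 2 * K2 (n + 1) z)
      - ((n : ℝ) + 1) * KK n z := by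
  rw [K_int]
  unfold KK
  have hc := PLc n
  have hc1 := PLc (n + 1)
  have hs : Continuous fun k : ℝ => sin (z * k) := by fun_prop
  have hq : Continuous fun k : ℝ => 1 - k ^ 2 / 2 := by fun_prop
  rw [← intervalIntegral.integral_const_mul, ← intervalIntegral.integral_const_mul,
    ← intervalIntegral.integral_const_mul, ← intervalIntegral.integral_sub]
  · congr 1
    ext k
    have e : PL (n + 2) (1 - k ^ 2 / 2) = ((2 * (n : ℝ) + 3) * (1 - k ^ 2 / 2) *
      PL (n + 1) (1 - k ^ 2 / 2) - ((n : ℝ) + 1) * PL n (1 - k ^ 2 / 2)) / ((n : ℝ) + 2) := rfl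
    rw [e]
    have hn : (n : ℝ) + 2 ≠ 0 := by positivity
    field_simp
  · exact (continuous_const.mul ((hq.mul hc1).mul hs)).intervalIntegrable _ _
  · exact (continuous_const.mul (hc.mul hs)).intervalIntegrable _ _

lemma K_one (z : ℝ) : KK 1 z = KK 0 z + 1 / 2 * K2 0 z := by
  rw [K_int]
  unfold KK
  congr 1
  ext k
  have e1 : PL 1 (1 - k ^ 2 / 2) = 1 - k ^ 2 / 2 := rfl
  have e0 : PL 0 (1 - k ^ 2 / 2) = 1 := rfl
  rw [e1, e0, mul_one]

/-- equality on the half line passes to the second derivative -/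
lemma second (n : ℕ) (h : ∀ z : ℝ, 0 < z → ff n z = KK n z) {z : ℝ} (hz : 0 < z) :
    f2 n z = K2 n z := by
  have h1 : ∀ z : ℝ, 0 < z → f1 n z = K1 n z := by
    intro y hy
    have e : ff n =ᶠ[𝓝 y] KK n := by
      filter_upwards [Ioi_mem_nhds hy] with x hx
      exact h x hx
    exact (dff n hy).unique ((dKK n y).congr_of_eventuallyEq e)
  have e : f1 n =ᶠ[𝓝 z] K1 n := by
    filter_upwards [Ioi_mem_nhds hz] with x hx
    exact h1 x hx
  exact (df1 n hz).unique ((dK1 n z).congr_of_eventuallyEq e)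

lemma base {z : ℝ} (hz : 0 < z) : ff 0 z = KK 0 z := by
  have e : KK 0 z = ∫ k in (0 : ℝ)..2, sin (z * k) := by
    unfold KK
    congr 1
    ext k
    have e0 : PL 0 (1 - k ^ 2 / 2) = 1 := rfl
    rw [e0, one_mul]
  rw [e, intervalIntegral.integral_comp_mul_left (fun x => sin x) hz.ne', integral_sin]
  have h2 : cos (z * 2) = 1 - 2 * sin z ^ 2 := by
    rw [mul_comm, cos_two_mul, cos_sq']
    ring
  rw [h2, mul_zero, cos_zero, smul_eq_mul]
  unfold ff jj
  have hk : kap 0 = 2 := by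
    unfold kap
    norm_num
  rw [hk, show 2 * 0 + 1 = 1 from rfl, G_one hz.ne']
  field_simp
  ring

lemma main (n : ℕ) : (∀ z : ℝ, 0 < z → ff n z = KK n z) ∧
    (∀ z : ℝ, 0 < z → ff (n + 1) z = KK (n + 1) z) := by
  induction n with
  | zero =>
    refine ⟨fun z hz => base hz, fun z hz => ?_⟩
    show ff 1 z = KK 1 z
    rw [ff_one z, K_one, base hz, second 0 (fun z hz => base hz) hz]
  | succ n ih =>
    obtain ⟨ih0, ih1⟩ := ih
    refine ⟨ih1, fun z hz => ?_⟩
    have h1 := ff_rec n hz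
    have h2 := K_rec n z
    rw [ih1 z hz, second (n + 1) ih1 hz, ih0 z hz, ← h2] at h1
    have hn : (n : ℝ) + 2 ≠ 0 := by positivity
    exact mul_left_cancel₀ hn h1

end ModKER

open ModKER in
theorem ker : StmKER := by
  intro n z hz
  rw [ff_eq]
  exact (main n).1 z hz

end H50.QN
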