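import Pool.Agent.T6.H50.QN.Defs3

/-! Project QN (helper50), module LEG: two facts on Legendre polynomials. -/

open MeasureTheory Real Filter Topology Set
open scoped ENNReal RealInnerProductSpace

namespace H50.QN

namespace ModLEG

/-- the derivatives of the Legendre polynomials -/
noncomputable def QL : ℕ → ℝ → ℝ
  | 0, _ => 0
  | 1, _ => 1
  | (n + 2), x => ((2 * (n : ℝ) + 3) * (PL (n + 1) x + x * QL (n + 1) x)
      - ((n : ℝ) + 1) * QL n x) / ((n : ℝ) + 2)

lemma PL_succ (n : ℕ) (x : ℝ) : PL (n + 2) x =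
    ((2 * (n : ℝ) + 3) * x * PL (n + 1) x - ((n : ℝ) + 1) * PL n x) / ((n : ℝ) + 2) := rfl

lemma QL_succ (n : ℕ) (x : ℝ) : QL (n + 2) x =
    ((2 * (n : ℝ) + 3) * (PL (n + 1) x + x * QL (n + 1) x)
      - ((n : ℝ) + 1) * QL n x) / ((n : ℝ) + 2) := rfl

lemma hasDeriv (n : ℕ) : ∀ x : ℝ, HasDerivAt (PL n) (QL n x) x := by
  induction n using Nat.twoStepInduction with
  | zero =>
    intro x
    have e : PL 0 = fun _ => (1 : ℝ) := by funext y; rfl
    rw [e]
    exact hasDerivAt_const x 1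
  | one =>
    intro x
    have e : PL 1 = fun y => y := by funext y; rfl
    rw [e]
    exact hasDerivAt_id x
  | more n h0 h1 =>
    intro x
    have e : PL (n + 2) = fun y => ((2 * (n : ℝ) + 3) * y * PL (n + 1) y
        - ((n : ℝ) + 1) * PL n y) / ((n : ℝ) + 2) := by funext y; rfl
    rw [e]
    have h2 : HasDerivAt (fun y : ℝ => (2 * (n : ℝ) + 3) * y) (2 * (n : ℝ) + 3) x := by
      simpa using (hasDerivAt_id x).const_mul (2 * (n : ℝ) + 3)
    refine (((h2.mul (h1 x)).sub ((h0 x).const_mul ((n : ℝ) + 1))).div_const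
      ((n : ℝ) + 2)).congr_deriv ?_
    rw [QL_succ]
    ring

lemma cont (n : ℕ) : Continuous (PL n) :=
  continuous_iff_continuousAt.2 fun x => (hasDeriv n x).continuousAt

lemma ids (x : ℝ) (n : ℕ) : x * QL (n + 1) x - QL n x = ((n : ℝ) + 1) * PL (n + 1) x ∧
    QL (n + 1) x - x * QL n x = ((n : ℝ) + 1) * PL n x := by
  induction n with
  | zero => simp [QL, PL]
  | succ n ih =>
    obtain ⟨i1, i2⟩ := ih
    have hn : (n : ℝ) + 2 ≠ 0 := by positivity
    have hP : ((n : ℝ) + 2) * PL (n + 2) x =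
        (2 * (n : ℝ) + 3) * x * PL (n + 1) x - ((n : ℝ) + 1) * PL n x := by
      rw [PL_succ]; field_simp
    have hQ : ((n : ℝ) + 2) * QL (n + 2) x =
        (2 * (n : ℝ) + 3) * (PL (n + 1) x + x * QL (n + 1) x) - ((n : ℝ) + 1) * QL n x := by
      rw [QL_succ]; field_simp
    have e : n + 1 + 1 = n + 2 := rfl
    rw [e]
    push_cast
    constructor
    · apply mul_left_cancel₀ hn
      linear_combination x * hQ - ((n : ℝ) + 2) * hP + (2 * (n : ℝ) + 3) * x * i1 -
        ((n : ℝ) + 2) * i2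
    · apply mul_left_cancel₀ hn
      linear_combination hQ + ((n : ℝ) + 1) * i1

lemma at_one (n : ℕ) : PL n 1 = 1 := by
  induction n using Nat.twoStepInduction with
  | zero => rfl
  | one => rfl
  | more n h0 h1 =>
    rw [PL_succ, h0, h1]
    have hn : (n : ℝ) + 2 ≠ 0 := by positivity
    field_simp
    ring

lemma at_neg_one (n : ℕ) : PL n (-1) = (-1) ^ n := by
  induction n using Nat.twoStepInduction with
  | zero => simp [PL]
  | one => simp [PL]
  | more n h0 h1 =>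
    rw [PL_succ, h0, h1]
    have hn : (n : ℝ) + 2 ≠ 0 := by positivity
    rw [div_eq_iff hn]
    ring

/-- the quadratic form -/
noncomputable def ee (n : ℕ) (x : ℝ) : ℝ :=
  PL n x ^ 2 - 2 * x * PL n x * PL (n + 1) x + PL (n + 1) x ^ 2

lemma ee_eq (n : ℕ) (x : ℝ) :
    ee n x = (1 - x ^ 2) * PL (n + 1) x ^ 2 + (PL n x - x * PL (n + 1) x) ^ 2 := by
  unfold ee; ring

lemma ee_succ (n : ℕ) (x : ℝ) : ee (n + 1) x = (1 - x ^ 2) * PL (n + 1) x ^ 2 +
    (((n : ℝ) + 1) / ((n : ℝ) + 2)) ^ 2 * (PL n x - x * PL (n + 1) x) ^ 2 := by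
  have hn : (n : ℝ) + 2 ≠ 0 := by positivity
  have hP : PL (n + 2) x = x * PL (n + 1) x -
      ((n : ℝ) + 1) / ((n : ℝ) + 2) * (PL n x - x * PL (n + 1) x) := by
    rw [PL_succ]; field_simp; ring
  have e : n + 1 + 1 = n + 2 := rfl
  unfold ee
  rw [e, hP]
  ring

lemma ee_le (x : ℝ) (n : ℕ) : ee n x ≤ 1 - x ^ 2 := by
  induction n with
  | zero =>
    unfold ee
    have h0 : PL 0 x = 1 := rfl
    have h1 : PL (0 + 1) x = x := rfl
    rw [h0, h1]
    nlinarith
  | succ n ih =>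
    refine le_trans ?_ ih
    rw [ee_succ, ee_eq]
    have h1 : (((n : ℝ) + 1) / ((n : ℝ) + 2)) ^ 2 ≤ 1 := by
      apply pow_le_one₀ (by positivity)
      rw [div_le_one (by positivity)]
      linarith
    have h2 := mul_le_mul_of_nonneg_right h1 (sq_nonneg (PL n x - x * PL (n + 1) x))
    linarith

lemma abs_le_one' (n : ℕ) (x : ℝ) (hx : |x| ≤ 1) : |PL n x| ≤ 1 := by
  rcases n with _ | n
  · have h0 : PL 0 x = 1 := rfl
    rw [h0]; simp
  · rcases hx.eq_or_lt with h | h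
    · rcases (abs_eq zero_le_one).1 h with h1 | h1
      · rw [h1, at_one]; simp
      · rw [h1, at_neg_one, abs_pow]; simp
    · have h1 : x ^ 2 < 1 := by
        rw [← sq_abs]
        nlinarith [abs_nonneg x]
      have h2 := ee_le x n
      rw [ee_eq] at h2
      have h3 := sq_nonneg (PL n x - x * PL (n + 1) x)
      have h4 : (1 - x ^ 2) * PL (n + 1) x ^ 2 ≤ (1 - x ^ 2) * 1 := by linarith
      have h5 : PL (n + 1) x ^ 2 ≤ 1 := le_of_mul_le_mul_left h4 (by linarith)
      exact (sq_le_one_iff_abs_le_one _).1 h5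

lemma step (n : ℕ) : (2 * (n : ℝ) + 3) * ∫ x in (-1 : ℝ)..1, PL (n + 1) x ^ 2 =
    (2 * (n : ℝ) + 1) * ∫ x in (-1 : ℝ)..1, PL n x ^ 2 := by
  have hd : ∀ x : ℝ, HasDerivAt (fun x => x * (PL n x ^ 2 + PL (n + 1) x ^ 2) -
      2 * (PL n x * PL (n + 1) x))
      ((2 * (n : ℝ) + 3) * PL (n + 1) x ^ 2 - (2 * (n : ℝ) + 1) * PL n x ^ 2) x := by
    intro x
    have h0 := hasDeriv n x
    have h1 := hasDeriv (n + 1) x
    have h2 := ((hasDerivAt_id x).mul ((h0.pow 2).add (h1.pow 2))).sub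
      ((h0.mul h1).const_mul 2)
    refine h2.congr_deriv ?_
    obtain ⟨i1, i2⟩ := ids x n
    simp only [id, Nat.cast_ofNat, Pi.add_apply, Pi.pow_apply]
    norm_num
    linear_combination 2 * PL (n + 1) x * i1 - 2 * PL n x * i2
  have c0 := cont n
  have c1 := cont (n + 1)
  have hI : ∫ x in (-1 : ℝ)..1,
      ((2 * (n : ℝ) + 3) * PL (n + 1) x ^ 2 - (2 * (n : ℝ) + 1) * PL n x ^ 2) = 0 := by
    rw [intervalIntegral.integral_eq_sub_of_hasDerivAt (fun x _ => hd x)
      (Continuous.intervalIntegrable (by fun_prop) _ _)]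
    simp only [at_one, at_neg_one]
    have h3 : ((-1 : ℝ) ^ n) ^ 2 = 1 := by rw [← pow_mul, mul_comm, pow_mul]; simp
    have h4 : ((-1 : ℝ) ^ (n + 1)) = -(-1) ^ n := by rw [pow_succ]; ring
    rw [h4]
    linear_combination (-4 : ℝ) * h3 + (4 : ℝ) * h3
  rw [intervalIntegral.integral_sub (Continuous.intervalIntegrable (by fun_prop) _ _)
    (Continuous.intervalIntegrable (by fun_prop) _ _),
    intervalIntegral.integral_const_mul, intervalIntegral.integral_const_mul] at hI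
  linarith

lemma norm_sq (n : ℕ) : ∫ x in (-1 : ℝ)..1, PL n x ^ 2 = 2 / (2 * n + 1) := by
  induction n with
  | zero =>
    have e : (fun x : ℝ => PL 0 x ^ 2) = fun _ => (1 : ℝ) := by
      funext x
      have h0 : PL 0 x = 1 := rfl
      rw [h0, one_pow]
    rw [e]
    simp
    norm_num
  | succ n ih =>
    have h := step n
    rw [ih] at h
    have h1 : (2 * (n : ℝ) + 1) ≠ 0 := by positivity
    have h2 : (2 * (n : ℝ) + 3) ≠ 0 := by positivity
    have h3 : (2 * (n : ℝ) + 1) * (2 / (2 * (n : ℝ) + 1)) = 2 := by field_simp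
    rw [h3] at h
    push_cast
    rw [eq_div_iff (by positivity)]
    linarith

end ModLEG

theorem leg : StmLEG := ⟨fun n x hx => ModLEG.abs_le_one' n x hx, fun n => ModLEG.norm_sq n⟩

end H50.QN
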