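import Pool.Agent.T6.H50.QN.Defs3

/-! Project QN, module NU3: the numerical inequality for the odd dimensions `d ≥ 5`. -/

open MeasureTheory Real Filter Topology Set
open scoped ENNReal RealInnerProductSpace

namespace H50.QN

namespace NU3

/-- the harmonic type sum -/
noncomputable def sS (n : ℕ) : ℝ :=
  ∑ j ∈ Finset.range n, (1 / (2 * (j : ℝ) + 1) + 1 / (2 * (j : ℝ) + 3))

/-- the sum of the logarithms -/
noncomputable def sF (n : ℕ) : ℝ := ∑ j ∈ Finset.range n, log (2 * (j : ℝ) + 3)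

/-- the main expression -/
noncomputable def sW (n : ℕ) : ℝ :=
  (2 * (n : ℝ) + 2) * sS n - 2 * sF n - 2 * (2 * (n : ℝ) + 1) * log 2 + (n : ℝ) * (51 / 100)

lemma sS_succ (n : ℕ) : sS (n + 1) = sS n + (1 / (2 * (n : ℝ) + 1) + 1 / (2 * (n : ℝ) + 3)) := by
  unfold sS; rw [Finset.sum_range_succ]

lemma sF_succ (n : ℕ) : sF (n + 1) = sF n + log (2 * (n : ℝ) + 3) := by
  unfold sF; rw [Finset.sum_range_succ]

lemma sS_two : sS 2 = 28 / 15 := by
  unfold sS; rw [Finset.sum_range_succ, Finset.sum_range_succ, Finset.sum_range_zero]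
  norm_num

lemma sF_two : sF 2 = log 15 := by
  unfold sF; rw [Finset.sum_range_succ, Finset.sum_range_succ, Finset.sum_range_zero]
  rw [zero_add, ← log_mul (by norm_num) (by norm_num)]
  norm_num

lemma sS_three : sS 3 = 232 / 105 := by
  rw [sS_succ 2, sS_two]; norm_num

lemma sF_three : sF 3 = log 105 := by
  rw [sF_succ 2, sF_two, ← log_mul (by norm_num) (by norm_num)]; norm_num

lemma sS_four : sS 4 = 776 / 315 := by
  rw [sS_succ 3, sS_three]; norm_num

lemma sF_four : sF 4 = log 945 := by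
  rw [sF_succ 3, sF_three, ← log_mul (by norm_num) (by norm_num)]; norm_num

lemma sS_five : sS 5 = 776 / 315 + 20 / 99 := by
  rw [sS_succ 4, sS_four]; norm_num

lemma sF_five : sF 5 = log 10395 := by
  rw [sF_succ 4, sF_four, ← log_mul (by norm_num) (by norm_num)]; norm_num

lemma sS_six : sS 6 = 776 / 315 + 20 / 99 + 24 / 143 := by
  rw [sS_succ 5, sS_five]; norm_num

lemma sF_six : sF 6 = log 135135 := by
  rw [sF_succ 5, sF_five, ← log_mul (by norm_num) (by norm_num)]; norm_num

lemma sS_seven : sS 7 = 776 / 315 + 20 / 99 + 24 / 143 + 28 / 195 := by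
  rw [sS_succ 6, sS_six]; norm_num

lemma sQ_mono (n : ℕ) : sS n - log (2 * (n : ℝ) + 3) ≤
    sS (n + 1) - log (2 * ((n + 1 : ℕ) : ℝ) + 3) := by
  rw [sS_succ]
  have hn : (0 : ℝ) ≤ n := Nat.cast_nonneg n
  have h1 : log (2 * ((n + 1 : ℕ) : ℝ) + 3) - log (2 * (n : ℝ) + 3) ≤ 2 / (2 * (n : ℝ) + 3) := by
    rw [← log_div (by positivity) (by positivity)]
    refine (log_le_sub_one_of_pos (by positivity)).trans (le_of_eq ?_)
    push_cast
    field_simp
    ring
  have h2 : 2 / (2 * (n : ℝ) + 3) ≤ 1 / (2 * (n : ℝ) + 1) + 1 / (2 * (n : ℝ) + 3) := by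
    have h3 : 1 / (2 * (n : ℝ) + 3) ≤ 1 / (2 * (n : ℝ) + 1) := by
      apply one_div_le_one_div_of_le <;> linarith
    have h4 : 2 / (2 * (n : ℝ) + 3) = 1 / (2 * (n : ℝ) + 3) + 1 / (2 * (n : ℝ) + 3) := by ring
    rw [h4]
    linarith
  linarith

lemma sQ_seven (n : ℕ) (hn : 7 ≤ n) : 141 / 1000 ≤ sS n - log (2 * (n : ℝ) + 3) := by
  induction n, hn using Nat.le_induction with
  | base =>
    have h1 : log (17 : ℝ) ≤ 4 * log 2 + 1 / 16 := by
      have e : (17 : ℝ) = 2 ^ 4 * (17 / 16) := by norm_num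
      rw [e, log_mul (by norm_num) (by norm_num), log_pow]
      have := log_le_sub_one_of_pos (show (0 : ℝ) < 17 / 16 by norm_num)
      push_cast
      linarith
    have h2 := Real.log_two_lt_d9
    have e2 : (2 * ((7 : ℕ) : ℝ) + 3) = 17 := by norm_num
    rw [e2, sS_seven]
    linarith
  | succ k hk ih => exact ih.trans (sQ_mono k)

lemma sQ_six : 123 / 1000 ≤ sS 6 - log 15 := by
  have h1 : log (15 : ℝ) ≤ 4 * log 2 - 1 / 16 := by
    have e : (15 : ℝ) = 2 ^ 4 * (15 / 16) := by norm_num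
    rw [e, log_mul (by norm_num) (by norm_num), log_pow]
    have := log_le_sub_one_of_pos (show (0 : ℝ) < 15 / 16 by norm_num)
    push_cast
    linarith
  have h2 := Real.log_two_lt_d9
  rw [sS_six]
  linarith

lemma pow_bound {N : ℝ} (hN : 0 < N) {m : ℕ} (h : N ≤ 2 ^ m) : log N ≤ m * log 2 := by
  rw [← log_pow]
  exact log_le_log hN h

lemma sW_two : log (4 / 5) < sW 2 := by
  have h : 4 * log 15 + 2 * log (4 / 5) ≤ 15 * log 2 := by
    have := pow_bound (N := 15 ^ 4 * (4 / 5) ^ 2) (by norm_num) (m := 15) (by norm_num)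
    rw [log_mul (by norm_num) (by norm_num), log_pow, log_pow] at this
    push_cast at this
    linarith
  have h2 := Real.log_two_lt_d9
  unfold sW
  rw [sS_two, sF_two]
  push_cast
  linarith

lemma sW_three : 0 < sW 3 := by
  have h : 4 * log 105 ≤ 27 * log 2 := by
    have := pow_bound (N := 105 ^ 4) (by norm_num) (m := 27) (by norm_num)
    rw [log_pow] at this
    push_cast at this
    linarith
  have h2 := Real.log_two_lt_d9
  unfold sW
  rw [sS_three, sF_three]
  push_cast
  linarith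

lemma sW_four : 0 < sW 4 := by
  have h : 2 * log 945 ≤ 20 * log 2 := by
    have := pow_bound (N := 945 ^ 2) (by norm_num) (m := 20) (by norm_num)
    rw [log_pow] at this
    push_cast at this
    linarith
  have h2 := Real.log_two_lt_d9
  unfold sW
  rw [sS_four, sF_four]
  push_cast
  linarith

lemma sW_five : 0 < sW 5 := by
  have h : 2 * log 10395 ≤ 27 * log 2 := by
    have := pow_bound (N := 10395 ^ 2) (by norm_num) (m := 27) (by norm_num)
    rw [log_pow] at this
    push_cast at this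
    linarith
  have h2 := Real.log_two_lt_d9
  unfold sW
  rw [sS_five, sF_five]
  push_cast
  linarith

lemma sW_six : 1 / 2 * log (13 / 2) < sW 6 := by
  have h : 4 * log 135135 + log (13 / 2) ≤ 71 * log 2 := by
    have := pow_bound (N := 135135 ^ 4 * (13 / 2)) (by norm_num) (m := 71) (by norm_num)
    rw [log_mul (by norm_num) (by norm_num), log_pow] at this
    push_cast at this
    linarith
  have h2 := Real.log_two_lt_d9
  unfold sW
  rw [sS_six, sF_six]
  push_cast
  linarith

lemma sW_step (n : ℕ) (hn : 6 ≤ n) :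
    1 / 2 * log ((2 * ((n + 1 : ℕ) : ℝ) + 1) / 2) - 1 / 2 * log ((2 * (n : ℝ) + 1) / 2)
      < sW (n + 1) - sW n := by
  have hn0 : (0 : ℝ) ≤ n := Nat.cast_nonneg n
  have hl2 := Real.log_two_lt_d9
  have h1 : log ((2 * ((n + 1 : ℕ) : ℝ) + 1) / 2) - log ((2 * (n : ℝ) + 1) / 2)
      ≤ 2 / (2 * (n : ℝ) + 1) := by
    rw [← log_div (by positivity) (by positivity)]
    refine (log_le_sub_one_of_pos (by positivity)).trans (le_of_eq ?_)
    push_cast
    field_simp
    ring
  have h2 : sW (n + 1) - sW n = 2 * (sS n - log (2 * (n : ℝ) + 3)) +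
      (2 + 3 / (2 * (n : ℝ) + 1) + 1 / (2 * (n : ℝ) + 3)) - 4 * log 2 + 51 / 100 := by
    unfold sW
    rw [sS_succ, sF_succ]
    push_cast
    field_simp
    ring
  have h3 : 1 / 2 * (2 / (2 * (n : ℝ) + 1)) = 1 / (2 * (n : ℝ) + 1) := by ring
  have h4 : 3 / (2 * (n : ℝ) + 1) = 2 / (2 * (n : ℝ) + 1) + 1 / (2 * (n : ℝ) + 1) := by ring
  have h5 : 0 ≤ 2 / (2 * (n : ℝ) + 1) := by positivity
  have h6 : 0 ≤ 1 / (2 * (n : ℝ) + 3) := by positivity
  rcases hn.eq_or_lt with rfl | h7
  · have hq := sQ_six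
    have e : (2 * ((6 : ℕ) : ℝ) + 3) = 15 := by norm_num
    rw [e] at h2
    have e2 : 2 / (2 * ((6 : ℕ) : ℝ) + 1) = 2 / 13 := by norm_num
    rw [e2] at h4
    rw [h2, h4]
    linarith
  · have hq := sQ_seven n h7
    rw [h2, h4]
    linarith

lemma sW_large (n : ℕ) (hn : 6 ≤ n) : 1 / 2 * log ((2 * (n : ℝ) + 1) / 2) < sW n := by
  induction n, hn using Nat.le_induction with
  | base =>
    have := sW_six
    have e : (2 * ((6 : ℕ) : ℝ) + 1) / 2 = 13 / 2 := by norm_num
    rw [e]
    exact this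
  | succ k hk ih =>
    have := sW_step k hk
    linarith

end NU3

open NU3 in
theorem nu3 : StmNU3 := by
  intro lam J n hn hlam hJ h2 h35 h6
  have hn0 : (0 : ℝ) ≤ n := Nat.cast_nonneg n
  have key : log J < sW n := by
    rcases lt_or_ge n 6 with h | h
    · interval_cases n
      · exact (log_le_log hJ (h2 rfl)).trans_lt sW_two
      · have : log J ≤ 0 := by
          rw [← log_one]; exact log_le_log hJ (h35 (by norm_num) (by norm_num))
        exact this.trans_lt sW_three
      · have : log J ≤ 0 := by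
          rw [← log_one]; exact log_le_log hJ (h35 (by norm_num) (by norm_num))
        exact this.trans_lt sW_four
      · have : log J ≤ 0 := by
          rw [← log_one]; exact log_le_log hJ (h35 (by norm_num) (by norm_num))
        exact this.trans_lt sW_five
    · have h' := log_le_log hJ (h6 h)
      rw [log_sqrt (by positivity)] at h'
      have := sW_large n h
      linarith
  unfold sW at key
  have hS : sS n = ∑ j ∈ Finset.range n, (1 / (2 * (j : ℝ) + 1) + 1 / (2 * (j : ℝ) + 3)) := rfl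
  have hF : sF n = ∑ j ∈ Finset.range n, log (2 * (j : ℝ) + 3) := rfl
  rw [← hS, ← hF]
  have hl : 0 ≤ (n : ℝ) * (-(51 / 200) - lam) := mul_nonneg hn0 (by linarith)
  nlinarith [key, hl]

end H50.QN
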