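import Pool.Agent.T6.H50.QN.Defs3
import Pool.Agent.H153R4.Pl

/-! Project QN, module PLJ: Plancherel for the sine transform formula. -/

set_option autoImplicit false

open MeasureTheory Real Filter Topology Set FourierTransform

namespace H50.QN

namespace ModPLJ

theorem PL_cont (n : ℕ) : Continuous (PL n) := by
  induction n using Nat.twoStepInduction with
  | zero =>
    have h : PL 0 = fun _ => 1 := by funext x; simp only [PL]
    rw [h]; exact continuous_const
  | one =>
    have h : PL 1 = fun x => x := by funext x; simp only [PL]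
    rw [h]; exact continuous_id
  | more n h1 h2 =>
    have h : PL (n + 2) = fun x =>
        ((2 * (n : ℝ) + 3) * x * PL (n + 1) x - ((n : ℝ) + 1) * PL n x) / ((n : ℝ) + 2) := by
      funext x; simp only [PL]
    rw [h]
    fun_prop

/-- the kernel -/
noncomputable def p (n : ℕ) (k : ℝ) : ℝ := PL n (1 - k ^ 2 / 2)

theorem p_cont (n : ℕ) : Continuous (p n) := by
  unfold p
  exact (PL_cont n).comp (by fun_prop)

theorem p_neg (n : ℕ) (k : ℝ) : p n (-k) = p n k := by
  unfold p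
  rw [neg_sq]

/-- the sine transform -/
noncomputable def F (n : ℕ) (z : ℝ) : ℝ := ∫ k in (0 : ℝ)..2, p n k * sin (z * k)

theorem F_neg (n : ℕ) (z : ℝ) : F n (-z) = -F n z := by
  unfold F
  rw [← intervalIntegral.integral_neg]
  apply intervalIntegral.integral_congr
  intro k _
  show p n k * sin (-z * k) = -(p n k * sin (z * k))
  rw [neg_mul, sin_neg]
  ring

theorem F_sq_abs (n : ℕ) (z : ℝ) : F n |z| ^ 2 = F n z ^ 2 := by
  rcases abs_choice z with h | h
  · rw [h]
  · rw [h, F_neg, neg_sq]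

/-- the odd extension -/
noncomputable def g (n : ℕ) (k : ℝ) : ℝ :=
  (Ioc (0 : ℝ) 2).indicator (p n) k - (Ico (-2 : ℝ) 0).indicator (p n) k

theorem i1 (n : ℕ) : Integrable ((Ioc (0 : ℝ) 2).indicator (p n)) := by
  rw [integrable_indicator_iff measurableSet_Ioc]
  exact ((p_cont n).integrableOn_Icc).mono_set Ioc_subset_Icc_self

theorem i2 (n : ℕ) : Integrable ((Ico (-2 : ℝ) 0).indicator (p n)) := by
  rw [integrable_indicator_iff measurableSet_Ico]
  exact ((p_cont n).integrableOn_Icc).mono_set Ico_subset_Icc_self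

theorem g_int (n : ℕ) : Integrable (g n) := (i1 n).sub (i2 n)

theorem g_sq (n : ℕ) (k : ℝ) : g n k ^ 2 =
    (Ioc (0 : ℝ) 2).indicator (fun k => p n k ^ 2) k +
      (Ico (-2 : ℝ) 0).indicator (fun k => p n k ^ 2) k := by
  unfold g
  by_cases h1 : k ∈ Ioc (0 : ℝ) 2
  · have h2 : k ∉ Ico (-2 : ℝ) 0 := fun h => by have := h.2; have := h1.1; linarith
    simp [h1, h2]
  · by_cases h2 : k ∈ Ico (-2 : ℝ) 0
    · simp [h1, h2]
    · simp [h1, h2]

theorem j1 (n : ℕ) : Integrable ((Ioc (0 : ℝ) 2).indicator (fun k => p n k ^ 2)) := by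
  rw [integrable_indicator_iff measurableSet_Ioc]
  exact (((p_cont n).pow 2).integrableOn_Icc).mono_set Ioc_subset_Icc_self

theorem j2 (n : ℕ) : Integrable ((Ico (-2 : ℝ) 0).indicator (fun k => p n k ^ 2)) := by
  rw [integrable_indicator_iff measurableSet_Ico]
  exact (((p_cont n).pow 2).integrableOn_Icc).mono_set Ico_subset_Icc_self

theorem g_sq_int (n : ℕ) : Integrable (fun k => g n k ^ 2) := by
  simp only [g_sq]
  exact (j1 n).add (j2 n)

theorem g_sq_val (n : ℕ) : ∫ k, g n k ^ 2 = 2 * ∫ k in (0 : ℝ)..2, p n k ^ 2 := by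
  simp only [g_sq]
  rw [integral_add (j1 n) (j2 n), integral_indicator measurableSet_Ioc,
    integral_indicator measurableSet_Ico, integral_Ico_eq_integral_Ioc,
    ← intervalIntegral.integral_of_le (by norm_num : (0 : ℝ) ≤ 2),
    ← intervalIntegral.integral_of_le (by norm_num : (-2 : ℝ) ≤ 0)]
  have h := intervalIntegral.integral_comp_neg (a := 0) (b := 2) (fun k => p n k ^ 2)
  simp only [p_neg, neg_zero] at h
  rw [← h]
  ring

/-- the Fourier transform of the odd extension -/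
theorem fourier_g (n : ℕ) (ξ : ℝ) :
    𝓕 (fun k => (g n k : ℂ)) ξ = -2 * Complex.I * ((F n (2 * π * ξ) : ℝ) : ℂ) := by
  rw [Real.fourier_real_eq_integral_exp_smul]
  have hE : Continuous fun k : ℝ => Complex.exp (((-2 * π * k * ξ : ℝ) : ℂ) * Complex.I) := by
    fun_prop
  have e1 : ∀ k : ℝ, Complex.exp (((-2 * π * k * ξ : ℝ) : ℂ) * Complex.I) • ((g n k : ℝ) : ℂ) =
      (Ioc (0 : ℝ) 2).indicator
        (fun k => Complex.exp (((-2 * π * k * ξ : ℝ) : ℂ) * Complex.I) * ((p n k : ℝ) : ℂ)) k -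
      (Ico (-2 : ℝ) 0).indicator
        (fun k => Complex.exp (((-2 * π * k * ξ : ℝ) : ℂ) * Complex.I) * ((p n k : ℝ) : ℂ)) k := by
    intro k
    unfold g
    by_cases h1 : k ∈ Ioc (0 : ℝ) 2
    · have h2 : k ∉ Ico (-2 : ℝ) 0 := fun h => by have := h.2; have := h1.1; linarith
      simp [h1, h2]
    · by_cases h2 : k ∈ Ico (-2 : ℝ) 0
      · simp [h1, h2]
      · simp [h1, h2]
  simp only [e1]
  have hc : Continuous fun k : ℝ =>
      Complex.exp (((-2 * π * k * ξ : ℝ) : ℂ) * Complex.I) * ((p n k : ℝ) : ℂ) :=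
    hE.mul (Complex.continuous_ofReal.comp (p_cont n))
  rw [integral_sub, integral_indicator measurableSet_Ioc,
    integral_indicator measurableSet_Ico, integral_Ico_eq_integral_Ioc,
    ← intervalIntegral.integral_of_le (by norm_num : (0 : ℝ) ≤ 2),
    ← intervalIntegral.integral_of_le (by norm_num : (-2 : ℝ) ≤ 0)]
  · have h := intervalIntegral.integral_comp_neg (a := 0) (b := 2) (fun k : ℝ =>
      Complex.exp (((-2 * π * k * ξ : ℝ) : ℂ) * Complex.I) * ((p n k : ℝ) : ℂ))
    simp only [p_neg, neg_zero] at h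
    rw [← h, ← intervalIntegral.integral_sub (hc.intervalIntegrable _ _) (by
      have hc2 : Continuous fun k : ℝ =>
        Complex.exp (((-2 * π * (-k) * ξ : ℝ) : ℂ) * Complex.I) * ((p n k : ℝ) : ℂ) :=
        (by fun_prop : Continuous fun k : ℝ =>
          Complex.exp (((-2 * π * (-k) * ξ : ℝ) : ℂ) * Complex.I)).mul
          (Complex.continuous_ofReal.comp (p_cont n))
      exact hc2.intervalIntegrable _ _)]
    unfold F
    rw [← intervalIntegral.integral_ofReal, ← intervalIntegral.integral_const_mul]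
    apply intervalIntegral.integral_congr
    intro k _
    show Complex.exp (((-2 * π * k * ξ : ℝ) : ℂ) * Complex.I) * ((p n k : ℝ) : ℂ) -
      Complex.exp (((-2 * π * (-k) * ξ : ℝ) : ℂ) * Complex.I) * ((p n k : ℝ) : ℂ) =
      -2 * Complex.I * ((p n k * sin (2 * π * ξ * k) : ℝ) : ℂ)
    have a1 : ((-2 * π * k * ξ : ℝ) : ℂ) = -((2 * π * ξ * k : ℝ) : ℂ) := by push_cast; ring
    have a2 : ((-2 * π * (-k) * ξ : ℝ) : ℂ) = ((2 * π * ξ * k : ℝ) : ℂ) := by push_cast; ring
    rw [a1, a2, Complex.exp_mul_I, Complex.exp_mul_I, Complex.cos_neg, Complex.sin_neg,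
      Complex.ofReal_mul (p n k), Complex.ofReal_sin]
    ring
  · rw [integrable_indicator_iff measurableSet_Ioc]
    exact (hc.integrableOn_Icc).mono_set Ioc_subset_Icc_self
  · rw [integrable_indicator_iff measurableSet_Ico]
    exact (hc.integrableOn_Icc).mono_set Ico_subset_Icc_self

theorem toReal_sq {h : ℝ → ℂ} (hm : AEStronglyMeasurable h volume) :
    ∫ x, ‖h x‖ ^ 2 = (∫⁻ x, ‖h x‖ₑ ^ 2).toReal := by
  have hm2 : AEStronglyMeasurable (fun x => ‖h x‖ ^ 2) volume := hm.norm.pow 2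
  rw [integral_eq_lintegral_of_nonneg_ae (Eventually.of_forall fun x => by positivity) hm2]
  congr 1
  apply lintegral_congr
  intro x
  rw [ENNReal.ofReal_pow (norm_nonneg _), ofReal_norm]

theorem F_sq (n : ℕ) : Integrable (fun z => F n z ^ 2) ∧
    ∫ z, F n z ^ 2 = π * ∫ k in (0 : ℝ)..2, p n k ^ 2 := by
  set f : ℝ → ℂ := fun k => (g n k : ℂ) with hf
  have hfi : Integrable f := (g_int n).ofReal
  have hfn : ∀ k, ‖f k‖ ^ 2 = g n k ^ 2 := by
    intro k
    rw [hf]
    simp
  have hf2 : MemLp f 2 := by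
    rw [memLp_two_iff_integrable_sq_norm hfi.aestronglyMeasurable]
    simp only [hfn]
    exact g_sq_int n
  have hpl := Pool.Agent.H153R4.plancherel f hfi hf2
  have hFc : Continuous (𝓕 f) := by
    exact VectorFourier.fourierIntegral_continuous (L := innerₗ ℝ) Real.continuous_fourierChar
      continuous_inner hfi
  have hval : ∫ ξ, ‖𝓕 f ξ‖ ^ 2 = ∫ k, ‖f k‖ ^ 2 := by
    rw [toReal_sq hFc.aestronglyMeasurable, toReal_sq hfi.aestronglyMeasurable, hpl]
  have hsq : ∀ ξ, ‖𝓕 f ξ‖ ^ 2 = 4 * F n (2 * π * ξ) ^ 2 := by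
    intro ξ
    rw [hf, fourier_g]
    rw [norm_mul, norm_mul, norm_neg, Complex.norm_I, Complex.norm_real, mul_pow, mul_pow]
    simp
    norm_num
  have hfin : ∫⁻ k, ‖f k‖ₑ ^ 2 ≠ ⊤ := by
    have h1 : ∀ k, ‖f k‖ₑ ^ 2 = ENNReal.ofReal (g n k ^ 2) := by
      intro k
      rw [← hfn, ENNReal.ofReal_pow (norm_nonneg _), ofReal_norm]
    simp only [h1]
    exact (g_sq_int n).lintegral_lt_top.ne
  have hint : Integrable (fun ξ => ‖𝓕 f ξ‖ ^ 2) := by
    refine ⟨(hFc.norm.pow 2).aestronglyMeasurable, ?_⟩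
    rw [hasFiniteIntegral_iff_ofReal (Eventually.of_forall fun x => by positivity)]
    have h1 : ∫⁻ ξ, ENNReal.ofReal (‖𝓕 f ξ‖ ^ 2) = ∫⁻ ξ, ‖𝓕 f ξ‖ₑ ^ 2 := by
      apply lintegral_congr
      intro x
      rw [ENNReal.ofReal_pow (norm_nonneg _), ofReal_norm]
    rw [h1, hpl]
    exact hfin.lt_top
  simp only [hsq] at hint hval
  simp only [hfn] at hval
  have h2p : (2 * π : ℝ) ≠ 0 := by positivity
  have hint2 : Integrable (fun ξ : ℝ => F n (2 * π * ξ) ^ 2) := by
    have := hint.const_mul (1 / 4)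
    refine this.congr (Eventually.of_forall fun x => ?_)
    show 1 / 4 * (4 * F n (2 * π * x) ^ 2) = F n (2 * π * x) ^ 2
    ring
  have hint3 : Integrable (fun z => F n z ^ 2) :=
    (integrable_comp_mul_left_iff (fun z => F n z ^ 2) h2p).1 hint2
  refine ⟨hint3, ?_⟩
  have hch := Measure.integral_comp_mul_left (fun z => F n z ^ 2) (2 * π)
  rw [integral_const_mul, hch, g_sq_val, smul_eq_mul, abs_of_pos (by positivity)] at hval
  have hpi : 0 < π := Real.pi_pos
  field_simp at hval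
  linarith

end ModPLJ

open ModPLJ in
theorem plj (h : StmKER) : StmPLJ := by
  intro n
  obtain ⟨hi, hv⟩ := F_sq n
  have hkap : kap n ≠ 0 := by
    unfold kap
    positivity
  have heq : ∀ z ∈ Ioi (0 : ℝ), z ^ (4 * n + 2) * G (2 * n + 1) z ^ 4 =
      kap n ^ 4 / 4 * F n z ^ 2 := by
    intro z hz
    have h1 : F n z = 2 * z ^ (2 * n + 1) * G (2 * n + 1) z ^ 2 / kap n ^ 2 := (h n z hz).symm
    rw [h1]
    have h2 : z ^ (4 * n + 2) = (z ^ (2 * n + 1)) ^ 2 := by
      rw [← pow_mul]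
      congr 1
      ring
    rw [h2]
    field_simp
    ring
  constructor
  · refine IntegrableOn.congr_fun (f := fun z => kap n ^ 4 / 4 * F n z ^ 2)
      ((hi.const_mul _).integrableOn) (fun z hz => (heq z hz).symm) measurableSet_Ioi
  · rw [setIntegral_congr_fun measurableSet_Ioi heq, integral_const_mul]
    have h3 : ∫ z, F n z ^ 2 = 2 * ∫ z in Ioi (0 : ℝ), F n z ^ 2 := by
      rw [← integral_comp_abs (f := fun z => F n z ^ 2)]
      simp only [F_sq_abs]
    have h4 : ∫ z in Ioi (0 : ℝ), F n z ^ 2 = π / 2 * ∫ k in (0 : ℝ)..2, p n k ^ 2 := by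
      rw [h3] at hv
      linarith
    rw [h4]
    show kap n ^ 4 / 4 * (π / 2 * ∫ k in (0 : ℝ)..2, p n k ^ 2) =
      kap n ^ 4 * (π / 8) * ∫ k in (0 : ℝ)..2, p n k ^ 2
    ring

end H50.QN
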