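import Pool.Agent.T6.H50.QN.FinOdd
import Pool.Agent.T6.H50.QN.J3
import Pool.Agent.T6.H50.QN.D3Nx
import Pool.Agent.T6.H50.QN.D3
import Pool.Agent.T6.H50.QN.KER
import Pool.Agent.T6.H50.QN.PLJ
import Pool.Agent.T6.H50.QN.LEG
import Pool.Agent.T6.H50.QN.JBD
import Pool.Agent.T6.H50.QN.JEX
import Pool.Agent.T6.H50.QN.NU3

/-! Project QN: odd dimensions `d ≥ 3` and all dimensions `d ≥ 70`. -/

open MeasureTheory Real Filter Topology Set
open scoped ENNReal RealInnerProductSpace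

namespace H50.QN

/-- Ellipsoids lose against the cube for `q` close to `2` in every odd dimension `d ≥ 3` and in
every dimension `d ≥ 70`. -/
theorem allDim (d : ℕ) (hd : (Odd d ∧ 3 ≤ d) ∨ 70 ≤ d) :
    ∃ q₀ : ℝ, 2 < q₀ ∧ ∀ q : ℝ, 2 < q → q < q₀ → ∀ A : Set (E d), IsEll A →
      volume A = 1 → Phi q A < Phi q (cube d) := by
  rcases hd with ⟨⟨m, rfl⟩, h3⟩ | h
  · by_cases hm : 2 ≤ m
    · exact finOdd (plj ker) nu3 (jbd leg) jex m hm
    · have : m = 1 := by omega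
      subst this
      exact fin3 (d3 j3 d3nx)
  · exact all70 d h

end H50.QN
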