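import Pool.Agent.T6.H50.QN.Defs2

/-! Project QN, third wave: dimension three and all odd dimensions. -/

open MeasureTheory Real Filter Topology Set
open scoped ENNReal RealInnerProductSpace

namespace H50.QN

/-- `v(z) = sin z / z - cos z`, so that `G_3(z) = 4 v(z) / z^2` -/
noncomputable def vv (z : ℝ) : ℝ := sin z / z - cos z

/-- J3: the fourth moment in dimension three. -/
def StmJ3 : Prop :=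
  IntegrableOn (fun z : ℝ => vv z ^ 4 / z ^ 2) (Ioi 0) ∧
  ∫ z in Ioi (0 : ℝ), vv z ^ 4 / z ^ 2 = 7 * π / 60

/-- D3N: numerical integral. -/
def StmD3N : Prop :=
  IntegrableOn (fun z : ℝ => vv z ^ 2 / z ^ 2 * (-log (vv z ^ 2) - 1 + vv z ^ 2)) (Ioc 0 (3 / 2)) ∧
  9 / 40 ≤ 6 / π *
    ∫ z in Ioc (0 : ℝ) (3 / 2), vv z ^ 2 / z ^ 2 * (-log (vv z ^ 2) - 1 + vv z ^ 2)

/-- D3: the entropy comparison in dimension three. -/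
def StmD3 : Prop := ∃ l : ℝ → ℝ, Measurable l ∧
  (∀ z, 0 < z → om 2 * |G 3 z| / om 3 ≤ exp (-l z)) ∧
  IntegrableOn (fun z => z ^ 2 * G 3 z ^ 2 / NN 3 * l z) (Ioi 0) ∧
  3 * (log 2 + LL 1 / NN 1) < ∫ z in Ioi (0 : ℝ), z ^ 2 * G 3 z ^ 2 / NN 3 * l z

/-- Legendre polynomials -/
noncomputable def PL : ℕ → ℝ → ℝ
  | 0, _ => 1
  | 1, x => x
  | (n + 2), x => ((2 * (n : ℝ) + 3) * x * PL (n + 1) x - ((n : ℝ) + 1) * PL n x) / ((n : ℝ) + 2)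

/-- `κ_n = 2^{n+1} n!` -/
noncomputable def kap (n : ℕ) : ℝ := 2 ^ (n + 1) * (n.factorial : ℝ)

/-- KER: sine transform formula. -/
def StmKER : Prop := ∀ (n : ℕ) (z : ℝ), 0 < z →
  2 * z ^ (2 * n + 1) * G (2 * n + 1) z ^ 2 / kap n ^ 2
    = ∫ k in (0 : ℝ)..2, PL n (1 - k ^ 2 / 2) * sin (z * k)

/-- PLJ: Plancherel for KER. -/
def StmPLJ : Prop := ∀ n : ℕ,
  IntegrableOn (fun z : ℝ => z ^ (4 * n + 2) * G (2 * n + 1) z ^ 4) (Ioi 0) ∧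
  ∫ z in Ioi (0 : ℝ), z ^ (4 * n + 2) * G (2 * n + 1) z ^ 4
    = kap n ^ 4 * (π / 8) * ∫ k in (0 : ℝ)..2, PL n (1 - k ^ 2 / 2) ^ 2

/-- LEG: two facts on Legendre polynomials. -/
def StmLEG : Prop := (∀ (n : ℕ) (x : ℝ), |x| ≤ 1 → |PL n x| ≤ 1) ∧
  ∀ n : ℕ, ∫ x in (-1 : ℝ)..1, PL n x ^ 2 = 2 / (2 * n + 1)

/-- JBD: general bound. -/
def StmJBD : Prop := ∀ n : ℕ, 1 ≤ n →
  (2 * (n : ℝ) + 1) / 4 * ∫ k in (0 : ℝ)..2, PL n (1 - k ^ 2 / 2) ^ 2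
    ≤ √((2 * (n : ℝ) + 1) / 2)

/-- JEX: explicit bounds. -/
def StmJEX : Prop :=
  5 / 4 * ∫ k in (0 : ℝ)..2, PL 2 (1 - k ^ 2 / 2) ^ 2 ≤ 4 / 5 ∧
  7 / 4 * ∫ k in (0 : ℝ)..2, PL 3 (1 - k ^ 2 / 2) ^ 2 ≤ 1 ∧
  9 / 4 * ∫ k in (0 : ℝ)..2, PL 4 (1 - k ^ 2 / 2) ^ 2 ≤ 1 ∧
  11 / 4 * ∫ k in (0 : ℝ)..2, PL 5 (1 - k ^ 2 / 2) ^ 2 ≤ 1

/-- NU3: numerical inequality for odd `d = 2 n + 1 ≥ 5`. -/
def StmNU3 : Prop := ∀ (lam J : ℝ) (n : ℕ), 2 ≤ n → lam ≤ -(51 / 200) → 0 < J →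
  (n = 2 → J ≤ 4 / 5) → (3 ≤ n → n ≤ 5 → J ≤ 1) →
  (6 ≤ n → J ≤ √((2 * (n : ℝ) + 1) / 2)) →
  2 * (2 * (n : ℝ) + 1) * (log 2 + lam)
    < (2 * (n : ℝ) + 2) * (lam + ∑ j ∈ Finset.range n, (1 / (2 * (j : ℝ) + 1) + 1 / (2 * (j : ℝ) + 3)))
      - 2 * ∑ j ∈ Finset.range n, log (2 * (j : ℝ) + 3) - log J

end H50.QN
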