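import Pool.Agent.T6.H50.QN.Fin
import Pool.Agent.T6.H50.QN.Defs3

/-! Project QN: assembly for a general lower bound `l` of `-log g`. -/

open MeasureTheory Real Filter Topology Set
open scoped ENNReal RealInnerProductSpace

namespace H50.QN

/-- Ellipsoids lose against the cube for `q` close to `2` as soon as `-log g` has a minorant `l`
whose mean exceeds the entropy of the cube. -/
theorem finCore (hAFF : StmAFF) (hSLI : StmSLI) (hPOL : StmPOL) (hNOR : StmNOR) (hBES : StmBES)
    (hCUB : StmCUB) (hSIN : StmSIN) (hLIM : StmLIM) (hOMR : StmOMR) (n : ℕ) (l : ℝ → ℝ)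
    (hlm : Measurable l)
    (hgl' : ∀ z, 0 < z → om n * |G (n + 1) z| / om (n + 1) ≤ exp (-l z))
    (hwlint' : IntegrableOn (fun z => z ^ n * G (n + 1) z ^ 2 / NN (n + 1) * l z) (Ioi 0))
    (hnum : ((n + 1 : ℕ) : ℝ) * (log 2 + LL 1 / NN 1)
      < ∫ z in Ioi (0 : ℝ), z ^ n * G (n + 1) z ^ 2 / NN (n + 1) * l z) :
    ∃ q₀ : ℝ, 2 < q₀ ∧ ∀ q : ℝ, 2 < q → q < q₀ → ∀ A : Set (E (n + 1)), IsEll A →
      volume A = 1 → Phi q A < Phi q (cube (n + 1)) := by
  set lam : ℝ := 2 / π * ∫ z in Ioi (0 : ℝ), (sin z / z) ^ 2 * log z with hlam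
  have he0 : LL 1 / NN 1 = lam := e_zero hNOR hOMR
  rw [he0] at hnum
  have hompos : ∀ k, 0 < om k := hOMR.2.2.2
  obtain ⟨hint, hNN⟩ := hNOR n
  have hNNpos : 0 < NN (n + 1) := by
    rw [hNN]
    have := hompos n
    positivity
  set d : ℕ := n + 1 with hd
  have hdR : (d : ℝ) = n + 1 := by rw [hd]; push_cast; ring
  -- the three functions
  set w : ℝ → ℝ := fun z => z ^ n * G d z ^ 2 / NN d with hw
  set g : ℝ → ℝ := fun z => om n * |G d z| / om d with hg
  obtain ⟨H, hH, -⟩ := hBES d (by omega)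
  have hGc : Continuous (G d) := continuous_iff_continuousAt.mpr fun z => (hH z).continuousAt
  have hwm : Measurable w := by
    have := hGc.measurable
    simp only [hw]
    fun_prop
  have hgm : Measurable g := by
    have := hGc.measurable
    simp only [hg]
    fun_prop
  have hw0 : ∀ z, 0 < z → 0 ≤ w z := by
    intro z hz
    simp only [hw]
    positivity
  have hg0 : ∀ z, 0 < z → 0 ≤ g z := by
    intro z hz
    simp only [hg]
    have := hompos n
    have := hompos d
    positivity
  have hg1 : ∀ z, 0 < z → g z ≤ 1 := by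
    intro z hz
    simp only [hg]
    rw [div_le_one (hompos d)]
    have h1 := om_mul_G_zero hSLI n
    rw [← h1]
    exact mul_le_mul_of_nonneg_left (G_abs_le (by omega) z) (hompos _).le
  have hgl : ∀ z, 0 < z → g z ≤ exp (-l z) := hgl'
  have hwint : IntegrableOn w (Ioi 0) := by
    simp only [hw]
    exact hint.div_const _
  have hw1 : ∫ z in Ioi (0 : ℝ), w z = 1 := by
    simp only [hw]
    rw [integral_div]
    have : NN d = ∫ z in Ioi (0 : ℝ), z ^ n * G d z ^ 2 := by
      unfold NN
      simp [hd]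
    rw [← this]
    exact div_self hNNpos.ne'
  have hwlint : IntegrableOn (fun z => w z * l z) (Ioi 0) := hwlint'
  set h : ℝ := d * (log 2 + lam) with hh
  have hlt : h < ∫ z in Ioi (0 : ℝ), w z * l z := hnum
  obtain ⟨δ, hδ, hlim⟩ := hLIM w g l hwm hgm hlm hw0 hg0 hg1 hgl hwint hw1 hwlint h hlt
  have hmin : 0 < min δ (1 / (1 + |log 2 + lam|)) := lt_min hδ (by positivity)
  refine ⟨2 + min δ (1 / (1 + |log 2 + lam|)), by linarith, ?_⟩
  intro q hq hq0 A hA hvol
  set p : ℝ := q - 2 with hp
  have hp0 : 0 < p := by rw [hp]; linarith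
  have hpδ : p < δ := by
    have := min_le_left δ (1 / (1 + |log 2 + lam|))
    rw [hp]; linarith
  have hp1 : p < 1 / (1 + |log 2 + lam|) := by
    have := min_le_right δ (1 / (1 + |log 2 + lam|))
    rw [hp]; linarith
  have hsmall : p * (log 2 + lam) ≤ 1 := by
    have h1 : p * (1 + |log 2 + lam|) < 1 := by
      rwa [lt_div_iff₀ (by positivity)] at hp1
    nlinarith [le_abs_self (log 2 + lam), abs_nonneg (log 2 + lam)]
  obtain ⟨hi, hlt2⟩ := hlim p hp0 hpδ
  -- the ellipsoid
  have hPhiA : Phi q A = ENNReal.ofReal (∫ z in Ioi (0 : ℝ), w z * g z ^ p) := by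
    rw [hAFF d (by omega) q hq A hA hvol, hPOL n q (by linarith)]
    rw [ofReal_integral_eq_lintegral_ofReal hi ?_]
    swap
    · filter_upwards [ae_restrict_mem measurableSet_Ioi] with z hz
      exact mul_nonneg (hw0 z hz) (rpow_nonneg (hg0 z hz) _)
    rw [← mul_assoc, ← ENNReal.ofReal_mul (rpow_nonneg (hompos d).le _)]
    rw [← lintegral_const_mul' _ _ ENNReal.ofReal_ne_top]
    apply setLIntegral_congr_fun measurableSet_Ioi
    intro z hz
    have hz' : 0 < z := hz
    simp only
    have hom1 := hompos n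
    have hom2 := hompos d
    rw [← ENNReal.ofReal_mul (by positivity)]
    congr 1
    simp only [hw, hg]
    by_cases hG : G d z = 0
    · rw [← hd, hG]
      have : (0 : ℝ) ^ q = 0 := zero_rpow (by linarith)
      simp [this]
    · have hGa : 0 < |G d z| := abs_pos.mpr hG
      have e1 : (om n * |G d z| / om d) ^ p
          = om n ^ q / om n ^ 2 * (|G d z| ^ q / |G d z| ^ 2) / om d ^ p := by
        rw [div_rpow (by positivity) hom2.le, mul_rpow hom1.le hGa.le]
        rw [hp, rpow_sub hom1, rpow_sub hGa]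
        norm_num
      have e2 : om d ^ (1 - q) = 1 / (om d * om d ^ p) := by
        have : 1 - q = -(1 + p) := by rw [hp]; ring
        rw [this, rpow_neg hom2.le, rpow_add hom2, rpow_one, one_div]
      rw [e1, e2, hNN, sq_abs]
      have := rpow_pos_of_pos hom2 p
      rw [← hd]
      push_cast
      field_simp
  -- the cube
  have hcube : ENNReal.ofReal (1 - p * h) ≤ Phi q (cube d) := by
    rw [(hCUB d q (by linarith)).2.2]
    have h1 := hSIN q hq
    rw [← hlam, ← hp] at h1
    have h2 : ENNReal.ofReal (1 - p * h) ≤ ENNReal.ofReal (1 - p * (log 2 + lam)) ^ d := by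
      rw [← ENNReal.ofReal_pow (by linarith)]
      apply ENNReal.ofReal_le_ofReal
      have h3 := one_add_mul_le_pow (a := -(p * (log 2 + lam))) (by linarith) d
      have h4 : 1 + (d : ℝ) * (-(p * (log 2 + lam))) = 1 - p * h := by rw [hh]; ring
      have h5 : 1 + -(p * (log 2 + lam)) = 1 - p * (log 2 + lam) := by ring
      rw [h4, h5] at h3
      exact h3
    exact h2.trans (pow_le_pow_left' h1 d)
  refine lt_of_lt_of_le ?_ hcube
  rw [hPhiA]
  have hnn : 0 ≤ ∫ z in Ioi (0 : ℝ), w z * g z ^ p := by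
    apply setIntegral_nonneg measurableSet_Ioi
    intro z hz
    exact mul_nonneg (hw0 z hz) (rpow_nonneg (hg0 z hz) _)
  rw [ENNReal.ofReal_lt_ofReal_iff (by linarith)]
  exact hlt2

end H50.QN
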