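import Pool.Agent.T6.H50.QN.All
import Pool.Agent.T6.H50.QN.Fin3

/-! Project QN: odd dimensions and dimension three. -/

open MeasureTheory Real Filter Topology Set
open scoped ENNReal RealInnerProductSpace

namespace H50.QN

lemma kap_pos (m : ℕ) : 0 < kap m := by
  unfold kap
  positivity

lemma NN_odd (m : ℕ) : NN (2 * m + 1) = kap m ^ 2 * π / (2 * (2 * m + 1)) := by
  have h := (tNOR (2 * m)).2
  rw [h, ModNU2.om_even omr m]
  unfold kap
  have h1 : ((2 * m : ℕ) : ℝ) = 2 * m := by push_cast; ring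
  rw [h1]
  have h2 : (0 : ℝ) < m.factorial := by positivity
  have h3 : (2 * π) ^ (2 * m + 1) = 2 ^ (2 * m + 1) * π ^ (2 * m) * π := by
    rw [mul_pow, pow_succ π (2 * m)]
    ring
  have h4 : (π ^ m) ^ 2 = π ^ (2 * m) := by rw [← pow_mul, mul_comm]
  have h5 : ((2 : ℝ) ^ (m + 1)) ^ 2 = 2 ^ (2 * m + 1) * 2 := by
    rw [← pow_mul, ← pow_succ]
    congr 1
    ring
  rw [h3, div_pow, mul_pow, h4, h5]
  field_simp

/-- dimension `2 m + 1 ≥ 5` -/
theorem finOdd (hPLJ : StmPLJ) (hNU3 : StmNU3) (hJBD : StmJBD) (hJEX : StmJEX) (m : ℕ)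
    (hm : 2 ≤ m) :
    ∃ q₀ : ℝ, 2 < q₀ ∧ ∀ q : ℝ, 2 < q → q < q₀ → ∀ A : Set (E (2 * m + 1)), IsEll A →
      volume A = 1 → Phi q A < Phi q (cube (2 * m + 1)) := by
  set P : ℝ := ∫ k in (0 : ℝ)..2, PL m (1 - k ^ 2 / 2) ^ 2 with hP
  -- the bound for `J`
  obtain ⟨B, hB0, hJB, hB2, hB3, hB6⟩ : ∃ B : ℝ, 0 < B ∧ (2 * (m : ℝ) + 1) / 4 * P ≤ B ∧
      (m = 2 → B ≤ 4 / 5) ∧ (3 ≤ m → m ≤ 5 → B ≤ 1) ∧ (6 ≤ m → B ≤ √((2 * (m : ℝ) + 1) / 2)) := by
    by_cases h6 : 6 ≤ m
    · refine ⟨√((2 * (m : ℝ) + 1) / 2), by positivity, hJBD m (by omega), by omega, by omega,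
        fun _ => le_rfl⟩
    · by_cases h2 : m = 2
      · refine ⟨4 / 5, by norm_num, ?_, fun _ => le_rfl, by omega, by omega⟩
        have := hJEX.1
        rw [hP, h2]
        norm_num
        norm_num at this
        linarith
      · refine ⟨1, by norm_num, ?_, by omega, fun _ _ => le_rfl, by omega⟩
        have h3 : m = 3 ∨ m = 4 ∨ m = 5 := by omega
        rcases h3 with h | h | h
        · have := hJEX.2.1
          rw [hP, h]
          norm_num
          norm_num at this
          linarith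
        · have := hJEX.2.2.1
          rw [hP, h]
          norm_num
          norm_num at this
          linarith
        · have := hJEX.2.2.2
          rw [hP, h]
          norm_num
          norm_num at this
          linarith
  set F : ℝ := ∑ j ∈ Finset.range m, log (2 * (j : ℝ) + 3) with hF
  set W : ℝ → ℝ := fun z => z ^ (2 * m) * G (2 * m + 1) z ^ 2 / NN (2 * m + 1) with hW
  set l : ℝ → ℝ := fun z => (1 / 2) * ((2 * (m : ℝ) + 2) * log z - 2 * F + 1
    - z ^ (2 * m + 2) * G (2 * m + 1) z ^ 2 / kap m ^ 2 / B - log B) with hl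
  obtain ⟨H, hH, -⟩ := bes (2 * m + 1) (by omega)
  have hGc : Continuous (G (2 * m + 1)) :=
    continuous_iff_continuousAt.mpr fun z => (hH z).continuousAt
  have hlm : Measurable l := by
    have := hGc.measurable
    simp only [hl]
    fun_prop
  have hkap := kap_pos m
  have hNN := NN_odd m
  have hNNpos : 0 < NN (2 * m + 1) := by
    rw [hNN]
    positivity
  have hompos : ∀ k, 0 < om k := omr.2.2.2
  -- pointwise bound
  have hgl : ∀ z, 0 < z → om (2 * m) * |G (2 * m + 1) z| / om (2 * m + 1) ≤ exp (-l z) := by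
    intro z hz
    set X : ℝ := z ^ (2 * m + 2) * G (2 * m + 1) z ^ 2 / kap m ^ 2 with hX
    have hX0 : 0 ≤ X := by positivity
    have h1 : X ≤ B * exp (X / B - 1) := by
      have := add_one_le_exp (X / B - 1)
      have h2 : X / B ≤ exp (X / B - 1) := by linarith
      rwa [div_le_iff₀ hB0, mul_comm] at h2
    have hprod : (∏ j ∈ Finset.range m, (2 * (j : ℝ) + 3)) = exp F := by
      rw [hF, exp_sum]
      apply Finset.prod_congr rfl
      intro j _
      rw [exp_log (by positivity)]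
    have hodd := ModNU2.om_odd omr m
    have hratio : om (2 * m) / om (2 * m + 1) = exp F / kap m := by
      rw [ModNU2.om_even omr m, ← hprod]
      rw [div_eq_div_iff (hompos _).ne' hkap.ne']
      rw [mul_comm (∏ j ∈ Finset.range m, (2 * (j : ℝ) + 3)), hodd]
      unfold kap
      have h2 : (0 : ℝ) < m.factorial := by positivity
      rw [mul_pow]
      field_simp
      ring
    have hg2 : (om (2 * m) * |G (2 * m + 1) z| / om (2 * m + 1)) ^ 2
        = exp (2 * F) * X / z ^ (2 * m + 2) := by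
      have h3 : om (2 * m) * |G (2 * m + 1) z| / om (2 * m + 1)
          = exp F / kap m * |G (2 * m + 1) z| := by
        rw [← hratio]
        ring
      rw [h3, mul_pow, sq_abs, div_pow, hX]
      have h4 : exp (2 * F) = exp F ^ 2 := by
        rw [← exp_nat_mul]
        norm_num
      rw [h4]
      have : z ^ (2 * m + 2) ≠ 0 := by positivity
      field_simp
    have hle : (om (2 * m) * |G (2 * m + 1) z| / om (2 * m + 1)) ^ 2 ≤ exp (-l z) ^ 2 := by
      rw [hg2]
      have h5 : exp (-l z) ^ 2 = exp (2 * F) * (B * exp (X / B - 1)) / z ^ (2 * m + 2) := by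
        rw [← exp_nat_mul]
        have h6 : ((2 : ℕ) : ℝ) * -l z
            = 2 * F + (log B + (X / B - 1)) - ((2 * m + 2 : ℕ) : ℝ) * log z := by
          simp only [hl]
          rw [← hX]
          push_cast
          ring
        rw [h6, exp_sub, exp_add, exp_add, exp_log hB0, exp_nat_mul, exp_log hz]
      rw [h5]
      gcongr
    exact (sq_le_sq₀ (by have := hompos (2 * m); have := hompos (2 * m + 1); positivity)
      (exp_pos _).le).mp hle
  -- integrals
  have hWint : IntegrableOn W (Ioi 0) := by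
    simp only [hW]
    exact (tNOR (2 * m)).1.div_const _
  have hW1 : ∫ z in Ioi (0 : ℝ), W z = 1 := by
    simp only [hW]
    rw [integral_div]
    have : NN (2 * m + 1) = ∫ z in Ioi (0 : ℝ), z ^ (2 * m) * G (2 * m + 1) z ^ 2 := by
      unfold NN
      simp
    rw [← this]
    exact div_self hNNpos.ne'
  have hLint : IntegrableOn (fun z : ℝ => z ^ (2 * m) * G (2 * m + 1) z ^ 2 * log z) (Ioi 0) := by
    have := tLIN (2 * m + 1) (by omega)
    simpa using this
  obtain ⟨hJint, hJ⟩ := hPLJ m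
  have hWl_eq : ∀ z, W z * l z = ((m : ℝ) + 1) / NN (2 * m + 1)
        * (z ^ (2 * m) * G (2 * m + 1) z ^ 2 * log z)
      + ((1 - 2 * F - log B) / 2) * W z
      - (1 / (2 * B * NN (2 * m + 1) * kap m ^ 2)) * (z ^ (4 * m + 2) * G (2 * m + 1) z ^ 4) := by
    intro z
    simp only [hW, hl]
    have h1 : z ^ (4 * m + 2) = z ^ (2 * m) * z ^ (2 * m + 2) := by
      rw [← pow_add]
      congr 1
      ring
    rw [h1]
    have := hNNpos.ne'
    have := hB0.ne'
    have := hkap.ne'
    field_simp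
    ring
  have hWlint : IntegrableOn (fun z => W z * l z) (Ioi 0) := by
    simp_rw [hWl_eq]
    exact ((hLint.const_mul _).add (hWint.const_mul _)).sub (hJint.const_mul _)
  have hWl : ∫ z in Ioi (0 : ℝ), W z * l z
      = (1 / 2) * ((2 * (m : ℝ) + 2) * (LL (2 * m + 1) / NN (2 * m + 1)) - 2 * F + 1
        - (2 * (m : ℝ) + 1) / 4 * P / B - log B) := by
    simp_rw [hWl_eq]
    have i1 : Integrable (fun z : ℝ => ((m : ℝ) + 1) / NN (2 * m + 1)
        * (z ^ (2 * m) * G (2 * m + 1) z ^ 2 * log z)) (volume.restrict (Ioi 0)) :=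
      hLint.const_mul _
    have i2 : Integrable (fun z : ℝ => ((1 - 2 * F - log B) / 2) * W z)
        (volume.restrict (Ioi 0)) := hWint.const_mul _
    have i3 : Integrable (fun z : ℝ => (1 / (2 * B * NN (2 * m + 1) * kap m ^ 2))
        * (z ^ (4 * m + 2) * G (2 * m + 1) z ^ 4)) (volume.restrict (Ioi 0)) :=
      hJint.const_mul _
    have e1 := integral_sub (i1.add i2) i3
    have e2 := integral_add i1 i2
    simp only [Pi.add_apply] at e1
    rw [e1, e2, integral_const_mul,
      integral_const_mul, integral_const_mul, hW1, hJ, ← hP]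
    have h1 : ∫ z in Ioi (0 : ℝ), z ^ (2 * m) * G (2 * m + 1) z ^ 2 * log z
        = LL (2 * m + 1) := by
      unfold LL
      simp
    rw [h1]
    have h2 : (1 / (2 * B * NN (2 * m + 1) * kap m ^ 2)) * (kap m ^ 4 * (π / 8) * P)
        = (2 * (m : ℝ) + 1) / 4 * P / B / 2 := by
      rw [hNN]
      have := hB0.ne'
      have := hkap.ne'
      field_simp
      ring
    rw [h2]
    have := hNNpos.ne'
    field_simp
    ring
  have hrec := ModLA2.rec_n tREC m
  have hnu := hNU3 (LL 1 / NN 1) B m hm tLA2 hB0 hB2 hB3 hB6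
  rw [← hrec] at hnu
  refine finCore aff sli tPOL tNOR bes cub tSIN lim omr (2 * m) l hlm hgl hWlint ?_
  have hfin : ∫ z in Ioi (0 : ℝ), z ^ (2 * m) * G (2 * m + 1) z ^ 2 / NN (2 * m + 1) * l z
      = ∫ z in Ioi (0 : ℝ), W z * l z := rfl
  rw [hfin, hWl]
  have hJB' : (2 * (m : ℝ) + 1) / 4 * P / B ≤ 1 := by
    rw [div_le_one hB0]
    exact hJB
  push_cast
  linarith

/-- dimension three -/
theorem fin3 (hD3 : StmD3) :
    ∃ q₀ : ℝ, 2 < q₀ ∧ ∀ q : ℝ, 2 < q → q < q₀ → ∀ A : Set (E 3), IsEll A →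
      volume A = 1 → Phi q A < Phi q (cube 3) := by
  obtain ⟨l, hlm, hgl, hint, hlt⟩ := hD3
  refine finCore aff sli tPOL tNOR bes cub tSIN lim omr 2 l hlm hgl hint ?_
  have h : (((2 + 1 : ℕ) : ℝ)) = 3 := by norm_num
  rw [h]
  exact hlt

end H50.QN
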