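import Pool.Agent.T6.H50.QN.Defs3

/-! Project QN, KER, integral half (helper48): `K_n(z) = ∫_0^2 P_n(1-k^2/2) sin(zk) dk`. -/

open MeasureTheory Real Filter Topology Set intervalIntegral

namespace H50.QN
namespace KERb

/-- `K_n` -/
noncomputable def K (n : ℕ) (z : ℝ) : ℝ := ∫ k in (0 : ℝ)..2, PL n (1 - k ^ 2 / 2) * sin (z * k)
/-- `K_n'` -/
noncomputable def K1 (n : ℕ) (z : ℝ) : ℝ :=
  ∫ k in (0 : ℝ)..2, PL n (1 - k ^ 2 / 2) * (k * cos (z * k))
/-- `K_n''` -/
noncomputable def K2 (n : ℕ) (z : ℝ) : ℝ :=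
  ∫ k in (0 : ℝ)..2, PL n (1 - k ^ 2 / 2) * (-(k ^ 2) * sin (z * k))

lemma PL_cont : ∀ n : ℕ, Continuous (PL n)
  | 0 => by
      have : PL 0 = fun _ => (1 : ℝ) := by funext x; simp [PL]
      rw [this]; exact continuous_const
  | 1 => by
      have : PL 1 = fun x => x := by funext x; simp [PL]
      rw [this]; exact continuous_id
  | (n + 2) => by
      have h1 := PL_cont (n + 1)
      have h0 := PL_cont n
      have : PL (n + 2) = fun x =>
          ((2 * (n : ℝ) + 3) * x * PL (n + 1) x - ((n : ℝ) + 1) * PL n x) / ((n : ℝ) + 2) := by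
        funext x; simp [PL]
      rw [this]
      fun_prop

lemma PLk_cont (n : ℕ) : Continuous (fun k : ℝ => PL n (1 - k ^ 2 / 2)) :=
  (PL_cont n).comp (by fun_prop)

lemma derivint (g : ℝ → ℝ) (hg : Continuous g) (φ φ' : ℝ → ℝ)
    (hφ : ∀ t, HasDerivAt φ (φ' t) t) (hc' : Continuous φ') (hb : ∀ t, |φ' t| ≤ 1) (z : ℝ) :
    HasDerivAt (fun z => ∫ k in (0 : ℝ)..2, g k * φ (z * k))
      (∫ k in (0 : ℝ)..2, g k * (k * φ' (z * k))) z := by
  have hc : Continuous φ := continuous_iff_continuousAt.2 fun t => (hφ t).continuousAt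
  refine (intervalIntegral.hasDerivAt_integral_of_dominated_loc_of_deriv_le
    (F := fun z k => g k * φ (z * k)) (F' := fun z k => g k * (k * φ' (z * k)))
    (bound := fun k => |g k| * |k|) (s := Set.univ) Filter.univ_mem ?_ ?_ ?_ ?_ ?_ ?_).2
  · exact Filter.Eventually.of_forall fun x =>
      (Continuous.aestronglyMeasurable (by fun_prop))
  · exact Continuous.intervalIntegrable (by fun_prop) _ _
  · exact Continuous.aestronglyMeasurable (by fun_prop)
  · refine Filter.Eventually.of_forall fun k _ x _ => ?_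
    rw [Real.norm_eq_abs, abs_mul, abs_mul]
    have h0 : |k| * |φ' (x * k)| ≤ |k| * 1 := mul_le_mul_of_nonneg_left (hb _) (abs_nonneg _)
    rw [mul_one] at h0
    exact mul_le_mul_of_nonneg_left h0 (abs_nonneg _)
  · exact Continuous.intervalIntegrable (by fun_prop) _ _
  · refine Filter.Eventually.of_forall fun k _ x _ => ?_
    have h1 : HasDerivAt (fun x : ℝ => x * k) k x := by simpa using (hasDerivAt_id x).mul_const k
    have h2 := ((hφ (x * k)).comp x h1).const_mul (g k)
    refine (h2.congr_deriv (by ring)).congr_of_eventuallyEq (Filter.Eventually.of_forall fun y => ?_)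
    rfl

theorem K_hasDeriv (n : ℕ) (z : ℝ) : HasDerivAt (K n) (K1 n z) z :=
  derivint _ (PLk_cont n) sin cos Real.hasDerivAt_sin continuous_cos Real.abs_cos_le_one z

theorem K1_hasDeriv (n : ℕ) (z : ℝ) : HasDerivAt (K1 n) (K2 n z) z := by
  have h := derivint (fun k => PL n (1 - k ^ 2 / 2) * k) ((PLk_cont n).mul continuous_id) cos
    (fun t => -sin t) Real.hasDerivAt_cos (by fun_prop)
    (fun t => by rw [abs_neg]; exact Real.abs_sin_le_one t) z
  have e1 : K1 n = fun z => ∫ k in (0 : ℝ)..2, PL n (1 - k ^ 2 / 2) * k * cos (z * k) := by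
    funext w; unfold K1
    exact intervalIntegral.integral_congr fun k _ => by ring
  have e2 : K2 n z = ∫ k in (0 : ℝ)..2, PL n (1 - k ^ 2 / 2) * k * (k * -sin (z * k)) := by
    unfold K2
    exact intervalIntegral.integral_congr fun k _ => by ring
  rw [e1, e2]; exact h

lemma PL_rec (n : ℕ) (x : ℝ) :
    ((n : ℝ) + 2) * PL (n + 2) x = (2 * (n : ℝ) + 3) * x * PL (n + 1) x - ((n : ℝ) + 1) * PL n x := by
  have h : ((n : ℝ) + 2) ≠ 0 := by positivity
  simp only [PL]
  field_simp

/-- the recurrence of `K_n` -/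
theorem K_rec (n : ℕ) (z : ℝ) :
    ((n : ℝ) + 2) * K (n + 2) z
      = (2 * (n : ℝ) + 3) * (K (n + 1) z + K2 (n + 1) z / 2) - ((n : ℝ) + 1) * K n z := by
  have c2 := PLk_cont (n + 2)
  have c1 := PLk_cont (n + 1)
  have c0 := PLk_cont n
  have i1 : IntervalIntegrable (fun k : ℝ => PL (n + 1) (1 - k ^ 2 / 2) * sin (z * k)) volume 0 2 :=
    Continuous.intervalIntegrable (by fun_prop) _ _
  have i2 : IntervalIntegrable (fun k : ℝ => PL (n + 1) (1 - k ^ 2 / 2) * (-(k ^ 2) * sin (z * k)))
      volume 0 2 := Continuous.intervalIntegrable (by fun_prop) _ _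
  have i0 : IntervalIntegrable (fun k : ℝ => PL n (1 - k ^ 2 / 2) * sin (z * k)) volume 0 2 :=
    Continuous.intervalIntegrable (by fun_prop) _ _
  unfold K K2
  rw [← intervalIntegral.integral_div, ← intervalIntegral.integral_add i1 (i2.div_const 2),
    ← intervalIntegral.integral_const_mul, ← intervalIntegral.integral_const_mul,
    ← intervalIntegral.integral_const_mul, ← intervalIntegral.integral_sub]
  · refine intervalIntegral.integral_congr fun k _ => ?_
    have := PL_rec n (1 - k ^ 2 / 2)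
    rw [← mul_assoc, this]; ring
  · exact (i1.add (i2.div_const 2)).const_mul _
  · exact i0.const_mul _

theorem K_zero (z : ℝ) (hz : 0 < z) : K 0 z = (1 - cos (2 * z)) / z := by
  unfold K
  have h : ∀ k ∈ Set.uIcc (0 : ℝ) 2,
      HasDerivAt (fun k => -(cos (z * k) / z)) (PL 0 (1 - k ^ 2 / 2) * sin (z * k)) k := by
    intro k _
    have h1 : HasDerivAt (fun k : ℝ => z * k) z k := by simpa using (hasDerivAt_id k).const_mul z
    have h2 := ((h1.cos).div_const z).neg
    refine h2.congr_deriv ?_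
    simp only [PL]; field_simp
  rw [intervalIntegral.integral_eq_sub_of_hasDerivAt h
    (Continuous.intervalIntegrable (by have := PLk_cont 0; fun_prop) _ _)]
  rw [mul_zero, cos_zero, mul_comm z 2]; ring

theorem K_one (z : ℝ) (hz : 0 < z) : K 1 z = 2 * (sin z / z - cos z) ^ 2 / z := by
  unfold K
  have h : ∀ k ∈ Set.uIcc (0 : ℝ) 2,
      HasDerivAt (fun k => -((1 - k ^ 2 / 2) * (cos (z * k) / z)) - k * (sin (z * k) / z ^ 2)
          - cos (z * k) / z ^ 3) (PL 1 (1 - k ^ 2 / 2) * sin (z * k)) k := by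
    intro k _
    have h1 : HasDerivAt (fun k : ℝ => z * k) z k := by simpa using (hasDerivAt_id k).const_mul z
    have hp : HasDerivAt (fun k : ℝ => 1 - k ^ 2 / 2) (-k) k := by
      have := ((hasDerivAt_pow 2 k).div_const 2).const_sub 1
      refine this.congr_deriv ?_
      simp
    have h2 := ((hp.mul ((h1.cos).div_const z)).neg.sub
      ((hasDerivAt_id k).mul ((h1.sin).div_const (z ^ 2)))).sub ((h1.cos).div_const (z ^ 3))
    refine h2.congr_deriv ?_
    simp only [PL, id]; field_simp; ring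
  rw [intervalIntegral.integral_eq_sub_of_hasDerivAt h
    (Continuous.intervalIntegrable (by have := PLk_cont 1; fun_prop) _ _)]
  rw [mul_zero, cos_zero, sin_zero, mul_comm z 2, cos_two_mul, sin_two_mul]
  have hs : sin z ^ 2 = 1 - cos z ^ 2 := by rw [← sin_sq_add_cos_sq z]; ring
  field_simp
  ring_nf
  rw [hs]
  ring

end KERb
end H50.QN
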