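import Pool.Agent.T6.H50.QN.Defs

/-!
Project QN (helper50), MP_3fd3b2_an, module NUM (helper12): the numerical inequality.
-/

set_option autoImplicit false

open Real

namespace H50.QN

namespace ModNUM

theorem e_sum (e : ℕ → ℝ)
    (h : ∀ m : ℕ, e (m + 1) = e m + 1 / (2 * m + 1) + 1 / (2 * m + 3)) (m : ℕ) :
    e m = e 0 + ∑ j ∈ Finset.range m, (1 / (2 * (j : ℝ) + 1) + 1 / (2 * (j : ℝ) + 3)) := by
  induction m with
  | zero => simp
  | succ m ih => rw [Finset.sum_range_succ, h, ih]; ring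

theorem s50 : (4885 : ℝ) / 1000 ≤
    ∑ j ∈ Finset.range 50, (1 / (2 * (j : ℝ) + 1) + 1 / (2 * (j : ℝ) + 3)) := by
  simp only [Finset.sum_range_succ, Finset.sum_range_zero]
  norm_num

theorem om_prod (h : StmOMR) (m : ℕ) :
    om (2 * m + 1) * ((∏ j ∈ Finset.range m, (2 * j + 3) : ℕ) : ℝ) = 2 * (2 * π) ^ m := by
  obtain ⟨_, h1, h2, _⟩ := h
  induction m with
  | zero => simp [h1]
  | succ m ih =>
    rw [Finset.prod_range_succ, show 2 * (m + 1) + 1 = (2 * m + 1) + 2 by ring, h2]
    push_cast at ih ⊢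
    have h3 : (2 * (m : ℝ) + 1 + 2) ≠ 0 := by positivity
    have h4 : (2 * (m : ℝ) + 3) = 2 * (m : ℝ) + 1 + 2 := by ring
    rw [h4, pow_succ, ← mul_assoc 2, ← ih]
    field_simp

theorem P50 : (∏ j ∈ Finset.range 50, (2 * j + 3) : ℕ) ≤ 2 ^ 268 := by
  decide +kernel

theorem P50pos : 0 < (∏ j ∈ Finset.range 50, (2 * j + 3) : ℕ) :=
  Finset.prod_pos fun j _ => by omega

theorem log_om101 (h : StmOMR) :
    log 2 + 50 * log (2 * π) - 268 * log 2 ≤ log (om 101) := by
  have h1 := om_prod h 50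
  have hpos : 0 < om 101 := h.2.2.2 101
  have hP : (0 : ℝ) < ((∏ j ∈ Finset.range 50, (2 * j + 3) : ℕ) : ℝ) := by
    exact_mod_cast P50pos
  have h2 : log (om 101) + log (((∏ j ∈ Finset.range 50, (2 * j + 3) : ℕ) : ℝ)) =
      log 2 + 50 * log (2 * π) := by
    rw [← log_mul hpos.ne' hP.ne']
    have e1 : om 101 * ((∏ j ∈ Finset.range 50, (2 * j + 3) : ℕ) : ℝ) = 2 * (2 * π) ^ 50 := by
      simpa using h1
    rw [e1, log_mul (by norm_num) (by positivity), log_pow]
    norm_num
  have h3 : log (((∏ j ∈ Finset.range 50, (2 * j + 3) : ℕ) : ℝ)) ≤ 268 * log 2 := by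
    have h4 : (((∏ j ∈ Finset.range 50, (2 * j + 3) : ℕ)) : ℝ) ≤ (2 : ℝ) ^ 268 := by
      exact_mod_cast P50
    have h5 := log_le_log hP h4
    rw [log_pow] at h5
    exact_mod_cast h5
  linarith

theorem log3pi : log 3 + log π ≤ 226 / 100 := by
  rw [← log_mul (by norm_num) pi_pos.ne']
  have h1 : 3 * π ≤ exp (226 / 100) := by
    have h2 : π < 3.1416 := pi_lt_d4
    have h3 : (2.7182818283 : ℝ) < exp 1 := exp_one_gt_d9
    have h4 : exp (226 / 100) = exp 1 ^ 2 * exp (26 / 100) := by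
      rw [← exp_nat_mul, ← exp_add]; norm_num
    have h5 : (1 : ℝ) + 26 / 100 + (26 / 100) ^ 2 / 2 ≤ exp (26 / 100) :=
      quadratic_le_exp_of_nonneg (by norm_num)
    have h6 : (2.7182818283 : ℝ) ^ 2 ≤ exp 1 ^ 2 := pow_le_pow_left₀ (by norm_num) h3.le 2
    rw [h4]
    have h7 : (2.7182818283 : ℝ) ^ 2 * (1 + 26 / 100 + (26 / 100) ^ 2 / 2) ≤
        exp 1 ^ 2 * exp (26 / 100) := by
      apply mul_le_mul h6 h5 (by norm_num) (by positivity)
    norm_num at h7 h2 ⊢
    linarith
  have := log_le_log (by positivity) h1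
  rwa [log_exp] at this

end ModNUM

open ModNUM in
theorem num (h : StmOMR) : StmNUM := by
  intro e he0 he m hm
  have hl2 := log_two_lt_d9
  have hl2' := log_two_gt_d9
  set s : ℕ → ℝ := fun m => e m - e 0 with hs
  have hs1 : ∀ m : ℕ, s (m + 1) = s m + 1 / (2 * m + 1) + 1 / (2 * m + 3) := by
    intro m; simp only [hs]; rw [he]; ring
  have hs50 : (4885 : ℝ) / 1000 ≤ s 50 := by
    have h1 := e_sum e he 50
    have h2 := s50
    simp only [hs]
    linarith
  have ht : ∀ m : ℕ, 50 ≤ m → 17 / 100 ≤ s m - log (2 * m + 3) := by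
    intro m hm
    induction m, hm using Nat.le_induction with
    | base =>
      have h1 : log (2 * ((50 : ℕ) : ℝ) + 3) ≤ 7 * log 2 + (103 / 128 - 1) := by
        have h2 : (2 * ((50 : ℕ) : ℝ) + 3) = 2 ^ 7 * (103 / 128) := by norm_num
        rw [h2, log_mul (by norm_num) (by norm_num), log_pow]
        have := log_le_sub_one_of_pos (show (0 : ℝ) < 103 / 128 by norm_num)
        push_cast
        linarith
      norm_num at h1 hl2 hl2' ⊢
      linarith
    | succ m hm ih =>
      rw [hs1]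
      have h1 : log (2 * ((m + 1 : ℕ) : ℝ) + 3) ≤ log (2 * m + 3) + 2 / (2 * m + 3) := by
        have h2 : (2 * ((m + 1 : ℕ) : ℝ) + 3) = (2 * m + 3) * (1 + 2 / (2 * m + 3)) := by
          push_cast
          field_simp
          ring
        rw [h2, log_mul (by positivity) (by positivity)]
        have := log_le_sub_one_of_pos (show (0 : ℝ) < 1 + 2 / (2 * m + 3) by positivity)
        linarith
      have h3 : (1 : ℝ) / (2 * m + 3) ≤ 1 / (2 * m + 1) := by
        apply one_div_le_one_div_of_le (by positivity); linarith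
      have h4 : (2 : ℝ) / (2 * m + 3) = 1 / (2 * m + 3) + 1 / (2 * m + 3) := by ring
      linarith
  have hD : ∀ m : ℕ, 50 ≤ m →
      0 < (2 * m + 1) * (s m + 23 / 100 - 2 * log 2 - log (2 * π)) +
        2 * log (om (2 * m + 1)) - log 3 := by
    intro m hm
    induction m, hm using Nat.le_induction with
    | base =>
      have h1 := log_om101 h
      have h2 := log3pi
      have h3 : log (2 * π) = log 2 + log π := log_mul (by norm_num) pi_pos.ne'
      rw [h3] at h1 ⊢
      norm_num at h1 h2 hl2 hl2' ⊢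
      nlinarith
    | succ m hm ih =>
      have h1 : om (2 * (m + 1) + 1) = om (2 * m + 1) * (2 * π / (2 * m + 3)) := by
        have := h.2.2.1 (2 * m + 1)
        rw [show 2 * (m + 1) + 1 = (2 * m + 1) + 2 by ring, this]
        push_cast
        congr 2
        ring
      have hp : 0 < om (2 * m + 1) := h.2.2.2 _
      have h2 : log (om (2 * (m + 1) + 1)) =
          log (om (2 * m + 1)) + (log (2 * π) - log (2 * m + 3)) := by
        rw [h1, log_mul hp.ne' (by positivity), log_div (by positivity) (by positivity)]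
      have h3 := ht m hm
      rw [h2, hs1]
      have h4 : (2 * ((m + 1 : ℕ) : ℝ) + 1) = 2 * m + 3 := by push_cast; ring
      rw [h4]
      have h5 : (2 * (m : ℝ) + 3) * (1 / (2 * m + 1) + 1 / (2 * m + 3)) ≥ 2 := by
        have h6 : (2 * (m : ℝ) + 3) * (1 / (2 * m + 3)) = 1 := by field_simp
        have h7 : (1 : ℝ) ≤ (2 * (m : ℝ) + 3) * (1 / (2 * m + 1)) := by
          rw [mul_one_div, le_div_iff₀ (by positivity)]; linarith
        rw [mul_add]
        linarith
      have e1 : (2 * (m : ℝ) + 3) * (s m + 1 / (2 * m + 1) + 1 / (2 * m + 3) + 23 / 100 -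
          2 * log 2 - log (2 * π)) +
          2 * (log (om (2 * m + 1)) + (log (2 * π) - log (2 * m + 3))) - log 3 =
          ((2 * m + 1) * (s m + 23 / 100 - 2 * log 2 - log (2 * π)) +
            2 * log (om (2 * m + 1)) - log 3) +
          ((2 * (m : ℝ) + 3) * (1 / (2 * m + 1) + 1 / (2 * m + 3)) +
            2 * (s m - log (2 * m + 3)) + 46 / 100 - 4 * log 2) := by ring
      rw [e1]
      norm_num at hl2
      linarith
  have h9 := hD m hm
  have hm0 : (0 : ℝ) < 2 * m + 1 := by positivity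
  have h10 : (2 * (m : ℝ) + 1) * (23 / 100) ≤ (2 * m + 1) * (-e 0) := by
    apply mul_le_mul_of_nonneg_left _ hm0.le
    linarith
  simp only [hs] at h9
  nlinarith [h9, h10]

end H50.QN
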