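import Pool.Agent.T6.H50.QN.Defs

/-! Project QN (`MP_3fd3b2_an`), module SIN: lower bound for the integral of `|sinc|^q`. -/

open MeasureTheory Real Filter Topology Set
open scoped ENNReal RealInnerProductSpace

namespace H50.QN
namespace SIN

lemma cont_s : Continuous (fun x : ℝ => sinc (π * x)) :=
  continuous_sinc.comp (continuous_const.mul continuous_id)

lemma meas_s : Measurable (fun x : ℝ => ENNReal.ofReal (sinc (π * x) ^ 2)) :=
  ENNReal.measurable_ofReal.comp (cont_s.pow 2).measurable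

/-- integrals against `sinc^2` of periodic functions -/
lemma per (h1 : StmSU1) (h : ℝ → ℝ≥0∞) (hm : Measurable h)
    (hp : ∀ (x : ℝ) (n : ℤ), h (x + n) = h x) :
    ∫⁻ x : ℝ, ENNReal.ofReal (sinc (π * x) ^ 2) * h x = ∫⁻ x in Ioc (0:ℝ) 1, h x := by
  have e1 : ∫⁻ x : ℝ, ENNReal.ofReal (sinc (π * x) ^ 2) * h x
      = ∑' n : ℤ, ∫⁻ x in Ioc (n:ℝ) (n + 1), ENNReal.ofReal (sinc (π * x) ^ 2) * h x := by
    rw [← lintegral_iUnion (fun _ => measurableSet_Ioc) (pairwise_disjoint_Ioc_intCast ℝ),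
      iUnion_Ioc_intCast, Measure.restrict_univ]
  have e2 : ∀ n : ℤ, ∫⁻ x in Ioc (n:ℝ) (n + 1), ENNReal.ofReal (sinc (π * x) ^ 2) * h x
      = ∫⁻ x in Ioc (0:ℝ) 1, ENNReal.ofReal (sinc (π * (x + n)) ^ 2) * h x := by
    intro n
    have h2 := (measurePreserving_add_right (volume : Measure ℝ)
      (n:ℝ)).setLIntegral_comp_preimage_emb
      (measurableEmbedding_addRight (n:ℝ))
      (fun x => ENNReal.ofReal (sinc (π * x) ^ 2) * h x) (Ioc (n:ℝ) (n+1))
    have e3 : (fun x : ℝ => x + (n:ℝ)) ⁻¹' Ioc (n:ℝ) (n+1) = Ioc 0 1 := by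
      ext x
      simp only [mem_preimage, mem_Ioc]
      constructor <;> rintro ⟨h3, h4⟩ <;> constructor <;> linarith
    rw [← h2, e3]
    refine lintegral_congr fun x => ?_
    rw [hp]
  rw [e1]
  simp_rw [e2]
  rw [← lintegral_tsum]
  · refine lintegral_congr fun x => ?_
    rw [ENNReal.tsum_mul_right, ← ENNReal.ofReal_tsum_of_nonneg (fun n => sq_nonneg _)
      (h1 x).summable, (h1 x).tsum_eq, ENNReal.ofReal_one, one_mul]
  · intro n
    refine AEMeasurable.mul ?_ hm.aemeasurable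
    exact (meas_s.comp (measurable_id.add_const (n:ℝ))).aemeasurable

lemma lint_sq (h1 : StmSU1) : ∫⁻ x : ℝ, ENNReal.ofReal (sinc (π * x) ^ 2) = 1 := by
  have := per h1 (fun _ => 1) measurable_const (fun _ _ => rfl)
  simpa using this

lemma int_sq (h1 : StmSU1) : Integrable (fun x : ℝ => sinc (π * x) ^ 2) ∧
    ∫ x : ℝ, sinc (π * x) ^ 2 = 1 := by
  have h0 : 0 ≤ᵐ[volume] (fun x : ℝ => sinc (π * x) ^ 2) := Eventually.of_forall fun x => sq_nonneg _
  have hm : AEStronglyMeasurable (fun x : ℝ => sinc (π * x) ^ 2) volume :=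
    (cont_s.pow 2).aestronglyMeasurable
  constructor
  · refine ⟨hm, ?_⟩
    rw [hasFiniteIntegral_iff_ofReal h0, lint_sq h1]
    exact ENNReal.one_lt_top
  · rw [integral_eq_lintegral_of_nonneg_ae h0 hm, lint_sq h1]
    simp

lemma abs_sin_per (x : ℝ) (n : ℤ) : |sin (π * (x + n))| = |sin (π * x)| := by
  have : π * (x + n) = π * x + n * π := by ring
  rw [this, Real.sin_add_int_mul_pi, abs_mul]
  rcases Int.even_or_odd n with h | h
  · rw [h.neg_one_zpow]; simp
  · rw [h.neg_one_zpow]; simp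

lemma int_log : IntegrableOn (fun x : ℝ => log |sin (π * x)|) (Ioc 0 1) ∧
    ∫ x in Ioc (0:ℝ) 1, log |sin (π * x)| = - log 2 := by
  have e : ∀ x : ℝ, log |sin (π * x)| = (log ∘ sin) (π * x) := by
    intro x; simp [Real.log_abs]
  simp_rw [e]
  constructor
  · have h := (intervalIntegrable_log_sin (a := 0) (b := π)).comp_mul_left (c := π)
    rw [zero_div, div_self Real.pi_ne_zero, intervalIntegrable_iff_integrableOn_Ioc_of_le zero_le_one] at h
    exact h
  · rw [← intervalIntegral.integral_of_le zero_le_one,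
      intervalIntegral.integral_comp_mul_left (log ∘ sin) Real.pi_ne_zero]
    simp only [mul_zero, mul_one, smul_eq_mul]
    have h2 : ∫ x in (0:ℝ)..π, (log ∘ sin) x = -log 2 * π := integral_log_sin_zero_pi
    rw [h2]
    field_simp

lemma int_slog (h1 : StmSU1) :
    Integrable (fun x : ℝ => sinc (π * x) ^ 2 * log |sin (π * x)|) ∧
    ∫ x : ℝ, sinc (π * x) ^ 2 * log |sin (π * x)| = - log 2 := by
  have hle : ∀ x : ℝ, log |sin (π * x)| ≤ 0 := fun x =>
    Real.log_nonpos (abs_nonneg _) (Real.abs_sin_le_one _)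
  have hml : Measurable (fun x : ℝ => log |sin (π * x)|) := by fun_prop
  have hm : Measurable (fun x : ℝ => sinc (π * x) ^ 2 * - log |sin (π * x)|) :=
    (cont_s.pow 2).measurable.mul hml.neg
  have h0 : 0 ≤ᵐ[volume] (fun x : ℝ => sinc (π * x) ^ 2 * - log |sin (π * x)|) :=
    Eventually.of_forall fun x => mul_nonneg (sq_nonneg _) (by have := hle x; linarith)
  have hl : ∫⁻ x : ℝ, ENNReal.ofReal (sinc (π * x) ^ 2 * - log |sin (π * x)|)
      = ENNReal.ofReal (log 2) := by
    have e := per h1 (fun x => ENNReal.ofReal (- log |sin (π * x)|))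
      (ENNReal.measurable_ofReal.comp hml.neg) (fun x n => by rw [abs_sin_per])
    have e2 : ∫⁻ x in Ioc (0:ℝ) 1, ENNReal.ofReal (- log |sin (π * x)|) = ENNReal.ofReal (log 2) := by
      have hI : Integrable (fun x : ℝ => - log |sin (π * x)|) (volume.restrict (Ioc (0:ℝ) 1)) :=
        int_log.1.neg
      rw [← ofReal_integral_eq_lintegral_ofReal hI
        (Eventually.of_forall fun x => by have := hle x; simp only [Pi.zero_apply]; linarith)]
      congr 1
      have := int_log.2
      rw [integral_neg, this, neg_neg]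
    rw [← e2, ← e]
    refine lintegral_congr fun x => ?_
    rw [ENNReal.ofReal_mul (sq_nonneg _)]
  have hI : Integrable (fun x : ℝ => sinc (π * x) ^ 2 * - log |sin (π * x)|) := by
    refine ⟨hm.aestronglyMeasurable, ?_⟩
    rw [hasFiniteIntegral_iff_ofReal h0, hl]
    exact ENNReal.ofReal_lt_top
  have hv : ∫ x : ℝ, sinc (π * x) ^ 2 * - log |sin (π * x)| = log 2 := by
    rw [integral_eq_lintegral_of_nonneg_ae h0 hm.aestronglyMeasurable, hl,
      ENNReal.toReal_ofReal (Real.log_nonneg (by norm_num))]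
  constructor
  · have := hI.neg
    refine this.congr (Eventually.of_forall fun x => ?_)
    simp
  · have := integral_neg (fun x : ℝ => sinc (π * x) ^ 2 * - log |sin (π * x)|) (μ := volume)
    rw [hv] at this
    rw [← this]
    refine integral_congr_ae (Eventually.of_forall fun x => ?_)
    simp

lemma abs_int {f : ℝ → ℝ} (hf : IntegrableOn f (Ioi 0)) : Integrable (fun x => f |x|) := by
  have h1 : IntegrableOn (fun x => f |x|) (Ioi 0) := by
    refine hf.congr_fun (fun x hx => ?_) measurableSet_Ioi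
    rw [abs_of_pos hx]
  have int_Iic : IntegrableOn (fun x ↦ f |x|) (Iic 0) := by
    rw [← Measure.map_neg_eq_self (volume : Measure ℝ)]
    let m : MeasurableEmbedding fun x : ℝ => -x := (Homeomorph.neg ℝ).measurableEmbedding
    rw [m.integrableOn_map_iff]
    simp_rw [Function.comp_def, abs_neg, neg_preimage, neg_Iic, neg_zero]
    exact Iff.mpr integrableOn_Ici_iff_integrableOn_Ioi h1
  have := int_Iic.union h1
  rwa [Iic_union_Ioi, integrableOn_univ] at this

lemma int_xlog (h2 : StmLAM) :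
    Integrable (fun x : ℝ => sinc (π * x) ^ 2 * log |π * x|) ∧
    ∫ x : ℝ, sinc (π * x) ^ 2 * log |π * x|
      = 2 / π * ∫ z in Ioi (0 : ℝ), (sin z / z) ^ 2 * log z := by
  have e : ∀ x : ℝ, sinc (π * x) ^ 2 * log |π * x|
      = (fun x => (sin (π * x) / (π * x)) ^ 2 * log (π * x)) |x| := by
    intro x
    rcases eq_or_ne x 0 with h | h
    · subst h; simp
    · simp only
      rw [sinc_of_ne_zero (mul_ne_zero Real.pi_ne_zero h), abs_mul, abs_of_pos Real.pi_pos]
      congr 1
      rcases abs_choice x with h3 | h3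
      · rw [h3]
      · rw [h3, mul_neg, Real.sin_neg, neg_div_neg_eq]
  simp_rw [e]
  have hI : IntegrableOn (fun x => (sin (π * x) / (π * x)) ^ 2 * log (π * x)) (Ioi 0) := by
    have := (integrableOn_Ioi_comp_mul_left_iff (fun z : ℝ => (sin z / z) ^ 2 * log z) 0
      Real.pi_pos).2 (by rw [mul_zero]; exact h2.1)
    exact this
  constructor
  · exact abs_int hI
  · have h3 := integral_comp_abs (f := fun x => (sin (π * x) / (π * x)) ^ 2 * log (π * x))
    rw [h3, integral_comp_mul_left_Ioi (fun z : ℝ => (sin z / z) ^ 2 * log z) 0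
      Real.pi_pos, mul_zero, smul_eq_mul]
    ring

lemma pw {s p : ℝ} (hs : 0 ≤ s) (hp : 0 < p) : s ^ 2 + p * (s ^ 2 * log s) ≤ s ^ (p + 2) := by
  rcases hs.eq_or_lt with h | h
  · rw [← h, Real.zero_rpow (by linarith)]; simp
  · rw [Real.rpow_add h, Real.rpow_def_of_pos h]
    have h3 : log s * p + 1 ≤ exp (log s * p) := Real.add_one_le_exp _
    have h4 : s ^ (2:ℝ) = s ^ 2 := by exact_mod_cast Real.rpow_natCast s 2
    rw [h4]
    have h5 : 0 < s ^ 2 := by positivity
    nlinarith [mul_le_mul_of_nonneg_right h3 h5.le]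

lemma le_lint (F : ℝ → ℝ) (hF : Integrable F) :
    ENNReal.ofReal (∫ x, F x) ≤ ∫⁻ x, ENNReal.ofReal (F x) := by
  refine ENNReal.ofReal_le_of_le_toReal ?_
  rw [integral_eq_lintegral_pos_part_sub_lintegral_neg_part hF]
  have : 0 ≤ (∫⁻ a, ENNReal.ofReal (-F a)).toReal := ENNReal.toReal_nonneg
  linarith

end SIN

open SIN in
theorem sn (h1 : StmSU1) (h2 : StmLAM) : StmSIN := by
  intro q hq
  set p := q - 2 with hp
  have hp0 : 0 < p := by linarith
  set lam := 2 / π * ∫ z in Ioi (0 : ℝ), (sin z / z) ^ 2 * log z with hlam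
  obtain ⟨a1, a2⟩ := int_sq h1
  obtain ⟨b1, b2⟩ := int_slog h1
  obtain ⟨c1, c2⟩ := int_xlog h2
  rw [← hlam] at c2
  have d1 : Integrable (fun x : ℝ => sinc (π * x) ^ 2 * log |sin (π * x)|
      - sinc (π * x) ^ 2 * log |π * x|) := b1.sub c1
  have d2 : Integrable (fun x : ℝ => p * (sinc (π * x) ^ 2 * log |sin (π * x)|
      - sinc (π * x) ^ 2 * log |π * x|)) := d1.const_mul p
  have hF : Integrable (fun x : ℝ => sinc (π * x) ^ 2 + p * (sinc (π * x) ^ 2 * log |sin (π * x)|
      - sinc (π * x) ^ 2 * log |π * x|)) := a1.add d2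
  have hv : ∫ x : ℝ, (sinc (π * x) ^ 2 + p * (sinc (π * x) ^ 2 * log |sin (π * x)|
      - sinc (π * x) ^ 2 * log |π * x|)) = 1 - p * (log 2 + lam) := by
    rw [integral_add a1 d2, integral_const_mul, integral_sub b1 c1, a2, b2,
      c2]
    ring
  rw [← hv]
  refine (le_lint _ hF).trans ?_
  unfold S
  refine lintegral_mono_ae ?_
  have hne : ∀ᵐ x : ℝ, x ≠ 0 := by
    have : volume ({0} : Set ℝ) = 0 := by simp
    rw [ae_iff]
    simp
  filter_upwards [hne] with x hx
  refine ENNReal.ofReal_le_ofReal ?_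
  have e1 : sinc (π * x) ^ 2 * log |sin (π * x)| - sinc (π * x) ^ 2 * log |π * x|
      = |sinc (π * x)| ^ 2 * log |sinc (π * x)| := by
    have hpx : π * x ≠ 0 := mul_ne_zero Real.pi_ne_zero hx
    rw [sq_abs, sinc_of_ne_zero hpx]
    rcases eq_or_ne (sin (π * x)) 0 with h | h
    · rw [h]; simp
    · rw [abs_div, Real.log_div (abs_ne_zero.2 h) (abs_ne_zero.2 hpx)]
      ring
  rw [e1, ← sq_abs (sinc (π * x))]
  have := pw (abs_nonneg (sinc (π * x))) hp0
  have e2 : p + 2 = q := by rw [hp]; ring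
  rwa [e2] at this

end H50.QN
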